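import Pool.Agent.Lib.MP_e81270_lc.Defs

/-!
# Rows of bits, forms, affine spaces

Points and forms are vectors over the field with two elements, indexed by the bits `(i, β)` of
the rows `i`.
-/

set_option autoImplicit false

namespace Pool.Agent.MP_e81270_lc.Aff

open Finset Matrix

/-- Points and forms: vectors indexed by the bits of all rows. -/
abbrev Vec (M b : ℕ) : Type := Fin M × Fin b → ZMod 2

variable {M b n : ℕ}

/-- The forms supported in `X`. -/
def onSet (X : Finset (Fin M × Fin b)) : Submodule (ZMod 2) (Vec M b) where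
  carrier := {f | ∀ v, v ∉ X → f v = 0}
  add_mem' := by
    intro f g hf hg v hv
    simp [hf v hv, hg v hv]
  zero_mem' := fun v _ => rfl
  smul_mem' := by
    intro c f hf v hv
    simp [hf v hv]

/-- The forms supported in the rows of `R`. -/
def onRows (R : Finset (Fin M)) : Submodule (ZMod 2) (Vec M b) := onSet (R ×ˢ univ)

/-- Row `i` of `x`. -/
def rowOf (x : Vec M b) (i : Fin M) : Fin b → ZMod 2 := fun β => x (i, β)

/-- The affine space through `x₀` on which the forms in `W` are constant. -/
def space (W : Submodule (ZMod 2) (Vec M b)) (x₀ : Vec M b) : Set (Vec M b) :=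
  {x | ∀ f ∈ W, f ⬝ᵥ x = f ⬝ᵥ x₀}

/-- The hash functions `G i` are jointly rich: if the affine map `u ↦ A u + c` does not change the
coordinates in `Q`, and `Q` has `q` coordinates in each row of `R`, then some value of it is
mapped by `G` to any prescribed holes in the rows of `R`. -/
def JointlyRich (q : ℕ) (G : Fin M → (Fin b → ZMod 2) → Fin n) : Prop :=
  ∀ (R : Finset (Fin M)) (Q : Finset (Fin M × Fin b)),
    (∀ i ∈ R, (Q.filter (fun v => v.1 = i)).card = q) →
    ∀ (A : Matrix (Fin M × Fin b) (Fin M × Fin b) (ZMod 2)) (c : Vec M b),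
      (∀ u : Vec M b, ∀ v ∈ Q, (A *ᵥ u + c) v = u v) →
      ∀ π : Fin M → Fin n, ∃ u : Vec M b, ∀ i ∈ R, G i (rowOf (A *ᵥ u + c) i) = π i

/-! ### Basic facts -/

theorem mem_onSet {X : Finset (Fin M × Fin b)} {f : Vec M b} :
    f ∈ onSet X ↔ ∀ v, v ∉ X → f v = 0 := Iff.rfl

theorem mem_onRows {R : Finset (Fin M)} {f : Vec M b} :
    f ∈ (onRows R : Submodule (ZMod 2) (Vec M b)) ↔ ∀ i β, i ∉ R → f (i, β) = 0 := by
  unfold onRows
  rw [mem_onSet]
  constructor
  · intro h i β hi
    exact h (i, β) (by simp [hi])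
  · rintro h ⟨i, β⟩ hv
    exact h i β (by simpa using hv)

theorem onSet_mono {X Y : Finset (Fin M × Fin b)} (h : X ⊆ Y) : onSet X ≤ onSet Y :=
  fun _ hf v hv => hf v (fun hx => hv (h hx))

theorem onRows_mono {R R' : Finset (Fin M)} (h : R ⊆ R') :
    (onRows R : Submodule (ZMod 2) (Vec M b)) ≤ onRows R' := by
  intro f hf
  rw [mem_onRows] at hf ⊢
  exact fun i β hi => hf i β (fun hx => hi (h hx))

theorem onSet_inf (X Y : Finset (Fin M × Fin b)) : onSet X ⊓ onSet Y = onSet (X ∩ Y) := by
  ext f
  rw [Submodule.mem_inf, mem_onSet, mem_onSet, mem_onSet]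
  constructor
  · rintro ⟨h1, h2⟩ v hv
    by_cases hX : v ∈ X
    · exact h2 v (fun hY => hv (mem_inter.mpr ⟨hX, hY⟩))
    · exact h1 v hX
  · intro h
    exact ⟨fun v hv => h v (fun hx => hv (mem_inter.mp hx).1),
      fun v hv => h v (fun hx => hv (mem_inter.mp hx).2)⟩

theorem onSet_sup (X Y : Finset (Fin M × Fin b)) : onSet X ⊔ onSet Y = onSet (X ∪ Y) := by
  apply le_antisymm
  · exact sup_le (onSet_mono subset_union_left) (onSet_mono subset_union_right)
  · intro f hf
    rw [Submodule.mem_sup]
    refine ⟨fun v => if v ∈ X then f v else 0, ?_, fun v => if v ∈ X then 0 else f v, ?_, ?_⟩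
    · intro v hv
      simp [hv]
    · intro v hv
      by_cases hX : v ∈ X
      · simp [hX]
      · simp only [hX, if_false]
        exact hf v (by simp [hX, hv])
    · funext v
      by_cases hX : v ∈ X <;> simp [hX]

theorem finrank_onSet (X : Finset (Fin M × Fin b)) :
    Module.finrank (ZMod 2) (onSet X) = X.card := by
  classical
  let e : (onSet X) ≃ₗ[ZMod 2] ({v // v ∈ X} → ZMod 2) :=
    { toFun := fun f v => f.1 v.1
      map_add' := fun f g => rfl
      map_smul' := fun c f => rfl
      invFun := fun g => ⟨fun v => if h : v ∈ X then g ⟨v, h⟩ else 0, by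
        intro v hv
        simp [hv]⟩
      left_inv := by
        intro f
        apply Subtype.ext
        funext v
        by_cases h : v ∈ X
        · simp [h]
        · simp only [h, dif_neg, not_false_iff]
          exact (f.2 v h).symm
      right_inv := by
        intro g
        funext v
        simp }
  rw [e.finrank_eq]
  simp

theorem finrank_onRows (R : Finset (Fin M)) :
    Module.finrank (ZMod 2) (onRows R : Submodule (ZMod 2) (Vec M b)) = b * R.card := by
  unfold onRows
  rw [finrank_onSet, card_product]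
  simp [mul_comm]

theorem mem_space_self (W : Submodule (ZMod 2) (Vec M b)) (x₀ : Vec M b) : x₀ ∈ space W x₀ :=
  fun _ _ => rfl

theorem space_eq {W : Submodule (ZMod 2) (Vec M b)} {x₀ x : Vec M b} (h : x ∈ space W x₀) :
    space W x = space W x₀ := by
  ext y
  unfold space
  simp only [Set.mem_setOf_eq]
  constructor
  · intro hy f hf
    rw [hy f hf, h f hf]
  · intro hy f hf
    rw [hy f hf, h f hf]

theorem space_anti {W W' : Submodule (ZMod 2) (Vec M b)} (h : W ≤ W') (x₀ : Vec M b) :
    space W' x₀ ⊆ space W x₀ := fun _ hx f hf => hx f (h hf)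

theorem rowOf_eq {W : Submodule (ZMod 2) (Vec M b)} {x₀ x : Vec M b} {S : Finset (Fin M)}
    (hS : onRows S ≤ W) (hx : x ∈ space W x₀) {i : Fin M} (hi : i ∈ S) :
    rowOf x i = rowOf x₀ i := by
  classical
  funext β
  have h1 : (Pi.single (i, β) (1 : ZMod 2) : Vec M b) ∈ W := by
    apply hS
    rw [mem_onRows]
    intro j γ hj
    rw [Pi.single_apply, if_neg]
    intro h
    apply hj
    rw [Prod.mk.injEq] at h
    rw [h.1]
    exact hi
  have h2 := hx _ h1
  rw [single_dotProduct, single_dotProduct, one_mul, one_mul] at h2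
  exact h2

theorem finrank_sup_inf_le (W P Z : Submodule (ZMod 2) (Vec M b)) :
    Module.finrank (ZMod 2) ((W ⊔ P) ⊓ Z : Submodule (ZMod 2) (Vec M b)) ≤
      Module.finrank (ZMod 2) (W ⊓ Z : Submodule (ZMod 2) (Vec M b)) +
        Module.finrank (ZMod 2) P := by
  have h1 := Submodule.finrank_sup_add_finrank_inf_eq W ((W ⊔ P) ⊓ Z)
  have h2 := Submodule.finrank_sup_add_finrank_inf_eq W P
  have h3 : W ⊓ ((W ⊔ P) ⊓ Z) = W ⊓ Z := by
    rw [← inf_assoc, inf_of_le_left (le_sup_left : W ≤ W ⊔ P)]
  rw [h3] at h1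
  have h4 : Module.finrank (ZMod 2) (W ⊔ ((W ⊔ P) ⊓ Z) : Submodule (ZMod 2) (Vec M b)) ≤
      Module.finrank (ZMod 2) (W ⊔ P : Submodule (ZMod 2) (Vec M b)) :=
    Submodule.finrank_mono (sup_le le_sup_left inf_le_left)
  omega

/-- Contraction: the forms known on `R₁` once the rows of `R₂` are known. -/
theorem finrank_sup_onRows_inf (W : Submodule (ZMod 2) (Vec M b)) {R₁ R₂ : Finset (Fin M)}
    (hd : Disjoint R₁ R₂) :
    Module.finrank (ZMod 2) ((W ⊔ onRows R₂) ⊓ onRows R₁ : Submodule (ZMod 2) (Vec M b)) +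
      Module.finrank (ZMod 2) (W ⊓ onRows R₂ : Submodule (ZMod 2) (Vec M b)) ≤
      Module.finrank (ZMod 2) (W ⊓ onRows (R₁ ∪ R₂) : Submodule (ZMod 2) (Vec M b)) := by
  classical
  -- restriction to the rows of `R₁`
  let r : Vec M b →ₗ[ZMod 2] Vec M b :=
    { toFun := fun f v => if v.1 ∈ R₁ then f v else 0
      map_add' := by
        intro f g
        funext v
        by_cases h : v.1 ∈ R₁ <;> simp [h]
      map_smul' := by
        intro c f
        funext v
        by_cases h : v.1 ∈ R₁ <;> simp [h] }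
  let U : Submodule (ZMod 2) (Vec M b) := W ⊓ onRows (R₁ ∪ R₂)
  have hr : (((W ⊔ onRows R₂) ⊓ onRows R₁ : Submodule (ZMod 2) (Vec M b))) ≤ U.map r := by
    intro f hf
    obtain ⟨hf1, hf2⟩ := Submodule.mem_inf.mp hf
    obtain ⟨w, hw, g, hg, rfl⟩ := Submodule.mem_sup.mp hf1
    rw [mem_onRows] at hf2 hg
    refine ⟨w, Submodule.mem_inf.mpr ⟨hw, ?_⟩, ?_⟩
    · rw [mem_onRows]
      intro i β hi
      rw [mem_union, not_or] at hi
      have h1 := hf2 i β hi.1
      have h2 := hg i β hi.2
      simp only [Pi.add_apply, h2, add_zero] at h1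
      exact h1
    · funext v
      obtain ⟨i, β⟩ := v
      change (if i ∈ R₁ then w (i, β) else 0) = w (i, β) + g (i, β)
      by_cases hi : i ∈ R₁
      · rw [if_pos hi, hg i β (disjoint_left.mp hd hi), add_zero]
      · rw [if_neg hi]
        exact (hf2 i β hi).symm
  have h1 := Submodule.finrank_mono hr
  have h2 := LinearMap.finrank_range_add_finrank_ker (r.domRestrict U)
  have h3 : Module.finrank (ZMod 2) (LinearMap.range (r.domRestrict U)) =
      Module.finrank (ZMod 2) (U.map r) := by
    rw [LinearMap.range_domRestrict]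
  have h4 : Module.finrank (ZMod 2) (W ⊓ onRows R₂ : Submodule (ZMod 2) (Vec M b)) ≤
      Module.finrank (ZMod 2) (LinearMap.ker (r.domRestrict U)) := by
    have hle : (W ⊓ onRows R₂ : Submodule (ZMod 2) (Vec M b)) ≤ U :=
      inf_le_inf_left W (onRows_mono subset_union_right)
    have hfin := Submodule.finrank_mono (R := ZMod 2) (s := Submodule.comap U.subtype
      (W ⊓ onRows R₂ : Submodule (ZMod 2) (Vec M b))) (t := LinearMap.ker (r.domRestrict U)) (by
      intro f hf
      rw [Submodule.mem_comap] at hf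
      rw [LinearMap.mem_ker]
      funext v
      obtain ⟨i, β⟩ := v
      change (if i ∈ R₁ then f.1 (i, β) else 0) = 0
      by_cases hi : i ∈ R₁
      · rw [if_pos hi]
        exact mem_onRows.mp (Submodule.mem_inf.mp hf).2 i β (disjoint_left.mp hd hi)
      · rw [if_neg hi])
    rw [(Submodule.comapSubtypeEquivOfLe hle).finrank_eq] at hfin
    exact hfin
  rw [h3] at h2
  change _ ≤ Module.finrank (ZMod 2) U
  omega

end Pool.Agent.MP_e81270_lc.Aff
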