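import Pool.Agent.Lib.MP_e81270_lc_Aff.Base

/-!
# States and certificates
-/

set_option autoImplicit false

namespace Pool.Agent.MP_e81270_lc.Aff

open Finset Matrix

variable {M b n N k : ℕ}

/-- The rows in `S` are known and mapped to different holes; every set of other rows has enough
freedom; at most `a + (q + s) |S|` forms are known. -/
structure State (G : Fin M → (Fin b → ZMod 2) → Fin n) (q s : ℕ)
    (W : Submodule (ZMod 2) (Vec M b)) (x₀ : Vec M b) (S : Finset (Fin M)) (a : ℕ) : Prop where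
  dead : onRows S ≤ W
  inj : ∀ i ∈ S, ∀ j ∈ S, i ≠ j → G i (rowOf x₀ i) ≠ G j (rowOf x₀ j)
  alive : ∀ R : Finset (Fin M), Disjoint R S →
    Module.finrank (ZMod 2) (W ⊓ onRows R : Submodule (ZMod 2) (Vec M b)) + (q + s) * R.card ≤
      b * R.card
  dim : Module.finrank (ZMod 2) W ≤ a + (q + s) * S.card

/-- A bit as an element of the field with two elements. -/
def toZ (c : Bool) : ZMod 2 := if c then 1 else 0

/-- On `A`, `g` is an affine function. -/
def IsAff (A : Set (Vec M b)) (g : Vec M b → Bool) : Prop :=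
  ∃ (f : Vec M b) (c : ZMod 2), ∀ x ∈ A, toZ (g x) = f ⬝ᵥ x + c

/-- On `A`, `g` is a function of two forms. -/
def IsLoc (A : Set (Vec M b)) (g : Vec M b → Bool) : Prop :=
  ∃ (f₁ f₂ : Vec M b) (φ : ZMod 2 → ZMod 2 → Bool), ∀ x ∈ A, g x = φ (f₁ ⬝ᵥ x) (f₂ ⬝ᵥ x)

/-- A constant or a signed symbol. -/
abbrev Atom (U : Type) : Type := Bool × Option U

/-- The value of an atom. -/
def ev {U : Type} (val : U → Vec M b → Bool) (α : Atom U) (x : Vec M b) : Bool :=
  xor α.1 (α.2.elim false (fun u => val u x))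

/-- Substitute the atom `α` for the symbol `u`. -/
def sub {U : Type} [DecidableEq U] (u : U) (α β : Atom U) : Atom U :=
  if β.2 = some u then (xor β.1 α.1, α.2) else β

/-- The remaining gates are the extension variables in `B`; the value of `i ∈ B` is
`fn i (p i) (q i)` on `A`, and `p i`, `q i` are constants, symbols in `T` or earlier remaining
gates.  The symbols in `T` are affine on `A`.  Every extension variable in `K` is a function of
two forms on `A`, or a remaining gate up to sign. -/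
structure Cert (A : Set (Vec M b)) (val : Fin N ⊕ Fin k → Vec M b → Bool) (K : Finset (Fin k))
    (T : Finset (Fin N ⊕ Fin k)) (B : Finset (Fin k)) (fn : Fin k → Bool → Bool → Bool)
    (p q : Fin k → Atom (Fin N ⊕ Fin k)) : Prop where
  aff : ∀ u ∈ T, IsAff A (val u)
  disj : ∀ i ∈ B, Sum.inr i ∉ T
  gate : ∀ i ∈ B, ∀ x ∈ A, val (Sum.inr i) x = fn i (ev val (p i) x) (ev val (q i) x)
  pin : ∀ i ∈ B, ∀ u, (p i).2 = some u → u ∈ T ∨ ∃ j ∈ B, j < i ∧ u = Sum.inr j
  qin : ∀ i ∈ B, ∀ u, (q i).2 = some u → u ∈ T ∨ ∃ j ∈ B, j < i ∧ u = Sum.inr j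
  rep : ∀ i ∈ K, IsLoc A (val (Sum.inr i)) ∨
    ∃ j ∈ B, ∃ σ : Bool, ∀ x ∈ A, val (Sum.inr i) x = xor σ (val (Sum.inr j) x)

end Pool.Agent.MP_e81270_lc.Aff
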