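import Pool.Agent.Lib.MP_e81270_lc_Aff.Point

/-!
# Restrictions of states
-/

set_option autoImplicit false

namespace Pool.Agent.MP_e81270_lc.Aff

open Finset Matrix

variable {M b n N k q s a : ℕ}

theorem finrank_inf_onRows_empty (W : Submodule (ZMod 2) (Vec M b)) :
    Module.finrank (ZMod 2) (W ⊓ onRows (∅ : Finset (Fin M)) :
      Submodule (ZMod 2) (Vec M b)) = 0 := by
  have h1 := Submodule.finrank_mono (R := ZMod 2)
    (inf_le_right : W ⊓ onRows (∅ : Finset (Fin M)) ≤ onRows ∅)
  rw [finrank_onRows] at h1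
  simpa using h1

theorem onRows_union (R₁ R₂ : Finset (Fin M)) :
    (onRows (R₁ ∪ R₂) : Submodule (ZMod 2) (Vec M b)) = onRows R₁ ⊔ onRows R₂ := by
  unfold onRows
  rw [onSet_sup, union_product]

/-- Holes for the rows of `R` that are not yet used. -/
theorem exists_holes {G : Fin M → (Fin b → ZMod 2) → Fin n} {x₀ : Vec M b}
    {S R : Finset (Fin M)} (hd : Disjoint R S)
    (hinj : ∀ i ∈ S, ∀ j ∈ S, i ≠ j → G i (rowOf x₀ i) ≠ G j (rowOf x₀ j))
    (hcard : (S ∪ R).card ≤ n) :
    ∃ π : Fin M → Fin n, (∀ i ∈ S, π i = G i (rowOf x₀ i)) ∧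
      ∀ i ∈ S ∪ R, ∀ j ∈ S ∪ R, i ≠ j → π i ≠ π j := by
  classical
  set used : Finset (Fin n) := S.image (fun i => G i (rowOf x₀ i)) with hused
  have h1 : used.card = S.card := by
    rw [hused, card_image_of_injOn]
    intro i hi j hj hij
    by_contra hne
    exact hinj i hi j hj hne hij
  have h2 : R.card ≤ (univ \ used).card := by
    rw [card_sdiff_of_subset (subset_univ _), card_univ, Fintype.card_fin, h1]
    rw [card_union_of_disjoint hd.symm] at hcard
    omega
  obtain ⟨f⟩ : Nonempty ({i // i ∈ R} ↪ {h // h ∈ univ \ used}) := by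
    apply Function.Embedding.nonempty_of_card_le
    rw [Fintype.card_coe, Fintype.card_coe]
    exact h2
  refine ⟨fun i => if h : i ∈ R then (f ⟨i, h⟩).1 else G i (rowOf x₀ i), ?_, ?_⟩
  · intro i hi
    have : i ∉ R := fun h => disjoint_left.mp hd h hi
    simp [this]
  · have hmem : ∀ i (h : i ∈ R), (f ⟨i, h⟩).1 ∉ used := fun i h =>
      (mem_sdiff.mp (f ⟨i, h⟩).2).2
    intro i hi j hj hij
    simp only []
    by_cases h1 : i ∈ R
    · by_cases h2 : j ∈ R
      · rw [dif_pos h1, dif_pos h2]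
        intro he
        have := f.injective (Subtype.ext he)
        exact hij (congrArg Subtype.val this)
      · rw [dif_pos h1, dif_neg h2]
        intro he
        apply hmem i h1
        rw [he, hused, mem_image]
        exact ⟨j, by rcases mem_union.mp hj with h | h <;> [exact h; exact absurd h h2], rfl⟩
    · by_cases h2 : j ∈ R
      · rw [dif_neg h1, dif_pos h2]
        intro he
        apply hmem j h2
        rw [← he, hused, mem_image]
        exact ⟨i, by rcases mem_union.mp hi with h | h <;> [exact h; exact absurd h h1], rfl⟩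
      · rw [dif_neg h1, dif_neg h2]
        refine hinj i ?_ j ?_ hij
        · rcases mem_union.mp hi with h | h <;> [exact h; exact absurd h h1]
        · rcases mem_union.mp hj with h | h <;> [exact h; exact absurd h h2]

theorem State.card_le {G : Fin M → (Fin b → ZMod 2) → Fin n}
    {W : Submodule (ZMod 2) (Vec M b)} {x₀ : Vec M b} {S : Finset (Fin M)}
    (h : State G q s W x₀ S a) : b * S.card ≤ a + (q + s) * S.card := by
  have h1 := Submodule.finrank_mono h.dead
  rw [finrank_onRows] at h1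
  exact h1.trans h.dim

theorem State.restrict {G : Fin M → (Fin b → ZMod 2) → Fin n} (hG : JointlyRich q G)
    {W : Submodule (ZMod 2) (Vec M b)} {x₀ : Vec M b} {S : Finset (Fin M)}
    (h : State G q s W x₀ S a) (hM : M = n + 1) {x' : Vec M b} (hx' : x' ∈ space W x₀)
    (P : Submodule (ZMod 2) (Vec M b)) {r : ℕ} (hP : Module.finrank (ZMod 2) P ≤ r) (hr : r ≤ s)
    (ha : a + r + (q + s) * M < b * M) :
    ∃ (W₁ : Submodule (ZMod 2) (Vec M b)) (x₁ : Vec M b) (S₁ : Finset (Fin M)),
      State G q s W₁ x₁ S₁ (a + r) ∧ W ⊔ P ≤ W₁ ∧ x₁ ∈ space (W ⊔ P) x' := by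
  classical
  set W' : Submodule (ZMod 2) (Vec M b) := W ⊔ P with hW'
  let g : Finset (Fin M) → ℕ := fun R =>
    Module.finrank (ZMod 2) (W' ⊓ onRows R : Submodule (ZMod 2) (Vec M b))
  let e : Finset (Fin M) → ℤ := fun R => (g R : ℤ) + (q + s) * R.card - b * R.card
  have hg0 : g ∅ = 0 := finrank_inf_onRows_empty W'
  obtain ⟨R₂, hR₂, hmax⟩ := exists_max_image (univ \ S).powerset e ⟨∅, by simp⟩
  rw [mem_powerset] at hR₂
  have hdis : ∀ R ⊆ univ \ S, Disjoint R S := by
    intro R hR
    rw [disjoint_left]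
    intro i hi
    exact (mem_sdiff.mp (hR hi)).2
  have hR₂S := hdis R₂ hR₂
  -- (1)
  have h1 : 0 ≤ e R₂ := by
    have := hmax ∅ (by simp)
    have h0 : e ∅ = 0 := by simp [e, hg0]
    rw [h0] at this
    exact this
  -- (2)
  have h2 : ∀ R ⊆ univ \ S, g R + (q + s) * R.card ≤ b * R.card + r := by
    intro R hR
    have e1 := finrank_sup_inf_le W P (onRows R)
    have e2 := h.alive R (hdis R hR)
    change g R ≤ _ at e1
    omega
  -- (3)
  have h3 : ∀ R' ⊆ R₂, Module.finrank (ZMod 2)
      (W' ⊓ onRows R' : Submodule (ZMod 2) (Vec M b)) + q * R'.card ≤ b * R'.card := by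
    intro R' hR'
    rcases R'.eq_empty_or_nonempty with rfl | hne
    · rw [finrank_inf_onRows_empty]; simp
    · have e1 := h2 R' (hR'.trans hR₂)
      have e2 : 1 ≤ R'.card := hne.card_pos
      have e3 : s ≤ s * R'.card := Nat.le_mul_of_pos_right s e2
      change g R' + q * R'.card ≤ b * R'.card
      rw [add_mul] at e1
      omega
  set W₁ : Submodule (ZMod 2) (Vec M b) := W' ⊔ onRows R₂ with hW₁
  have hcardU : (S ∪ R₂).card = S.card + R₂.card := card_union_of_disjoint hR₂S.symm
  -- dimension of W₁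
  have hdim : Module.finrank (ZMod 2) W₁ ≤ a + r + (q + s) * (S ∪ R₂).card := by
    have e1 := Submodule.finrank_sup_add_finrank_inf_eq W' (onRows R₂)
    rw [finrank_onRows] at e1
    have e2 := Submodule.finrank_sup_add_finrank_inf_eq W P
    have e3 := h.dim
    have e4 : (b : ℤ) * R₂.card ≤ g R₂ + (q + s) * R₂.card := by
      have := h1
      simp only [e] at this
      linarith
    have e5 : b * R₂.card ≤ g R₂ + (q + s) * R₂.card := by exact_mod_cast e4
    rw [hcardU, mul_add]
    change Module.finrank (ZMod 2) W₁ + g R₂ = _ at e1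
    rw [← hW'] at e2
    omega
  have hdead : onRows (S ∪ R₂) ≤ W₁ := by
    rw [onRows_union]
    exact sup_le (h.dead.trans (le_sup_left.trans le_sup_left)) le_sup_right
  have hn : (S ∪ R₂).card ≤ n := by
    have e1 := Submodule.finrank_mono hdead
    rw [finrank_onRows] at e1
    have e2 : (S ∪ R₂).card ≤ M := by
      simpa using card_le_univ (S ∪ R₂)
    by_contra hcon
    have e3 : (S ∪ R₂).card = M := by omega
    rw [e3] at e1 hdim
    omega
  obtain ⟨π, hπS, hπ⟩ := exists_holes (G := G) (x₀ := x₀) hR₂S h.inj hn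
  obtain ⟨x₁, hx₁, hπ₁⟩ := exists_point hG x' h3 π
  have hx₁W : x₁ ∈ space W x₀ := by
    rw [← space_eq hx']
    exact space_anti le_sup_left x' hx₁
  have hall : ∀ i ∈ S ∪ R₂, G i (rowOf x₁ i) = π i := by
    intro i hi
    rcases mem_union.mp hi with hi | hi
    · rw [rowOf_eq h.dead hx₁W hi, hπS i hi]
    · exact hπ₁ i hi
  refine ⟨W₁, x₁, S ∪ R₂, ⟨hdead, ?_, ?_, hdim⟩, le_sup_left, hx₁⟩
  · intro i hi j hj hij
    rw [hall i hi, hall j hj]
    exact hπ i hi j hj hij
  · intro R hR
    have hRS : Disjoint R S := disjoint_of_subset_right subset_union_left hR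
    have hRR : Disjoint R R₂ := disjoint_of_subset_right subset_union_right hR
    have e1 := finrank_sup_onRows_inf W' hRR
    have e2 : e (R ∪ R₂) ≤ e R₂ := by
      apply hmax
      rw [mem_powerset]
      intro i hi
      rcases mem_union.mp hi with hi | hi
      · exact mem_sdiff.mpr ⟨mem_univ _, disjoint_left.mp hRS hi⟩
      · exact hR₂ hi
    simp only [e] at e2
    rw [card_union_of_disjoint hRR] at e2
    push_cast at e2
    change Module.finrank (ZMod 2) (W₁ ⊓ onRows R : Submodule (ZMod 2) (Vec M b)) + g R₂ ≤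
      g (R ∪ R₂) at e1
    have e3 : ((Module.finrank (ZMod 2) (W₁ ⊓ onRows R : Submodule (ZMod 2) (Vec M b)) : ℤ)) +
        (q + s) * R.card ≤ b * R.card := by
      have e4 : ((Module.finrank (ZMod 2)
        (W₁ ⊓ onRows R : Submodule (ZMod 2) (Vec M b)) : ℤ)) + g R₂ ≤ g (R ∪ R₂) := by
        exact_mod_cast e1
      nlinarith
    exact_mod_cast e3

end Pool.Agent.MP_e81270_lc.Aff
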