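import Pool.Agent.Lib.MP_e81270_lc_Aff.Ops

/-!
# One step, exclusive or is free
-/

set_option autoImplicit false

namespace Pool.Agent.MP_e81270_lc.Aff

open Finset Matrix

variable {M b n N k : ℕ}

private theorem toZ_xor (c d : Bool) : toZ (xor c d) = toZ c + toZ d := by
  cases c <;> cases d <;> decide

private theorem toZ_inj {c d : Bool} (h : toZ c = toZ d) : c = d := by
  revert h
  cases c <;> cases d <;> decide

private theorem bool_fn2 (g : Bool → Bool) : ∃ c d : Bool, ∀ y, g y = xor c (d && y) := by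
  refine ⟨g false, xor (g false) (g true), fun y => ?_⟩
  cases y <;> cases g false <;> cases g true <;> rfl

private theorem xor_fn {g : Bool → Bool → Bool} (hg : IsXor g) :
    ∀ y z, g y z = xor (g false false) (xor y z) := by
  have h1 := hg false false
  have h2 := hg false true
  simp only [Bool.not_false] at h1 h2
  intro y z
  cases y <;> cases z
  · cases g false false <;> rfl
  · rw [h1.2]
    cases g false false <;> rfl
  · rw [h1.1]
    cases g false false <;> rfl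
  · rw [h2.1, h1.2]
    cases g false false <;> rfl

private theorem isAff_ev {A : Set (Vec M b)} {U : Type} {val : U → Vec M b → Bool} {α : Atom U}
    (h : ∀ u, α.2 = some u → IsAff A (val u)) : IsAff A (ev val α) := by
  obtain ⟨c, o⟩ := α
  cases o with
  | none =>
    refine ⟨0, toZ c, fun x _ => ?_⟩
    simp [ev]
  | some u =>
    obtain ⟨f, d, hf⟩ := h u rfl
    refine ⟨f, d + toZ c, fun x hx => ?_⟩
    have h1 : ev val ((c, some u) : Atom U) x = xor c (val u x) := rfl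
    rw [h1, toZ_xor, hf x hx]
    ring

private theorem isAff_xor {A : Set (Vec M b)} {g₁ g₂ g : Vec M b → Bool} (h₁ : IsAff A g₁)
    (h₂ : IsAff A g₂) (c : Bool) (h : ∀ x ∈ A, g x = xor c (xor (g₁ x) (g₂ x))) : IsAff A g := by
  obtain ⟨f₁, c₁, h₁⟩ := h₁
  obtain ⟨f₂, c₂, h₂⟩ := h₂
  refine ⟨f₁ + f₂, toZ c + c₁ + c₂, fun x hx => ?_⟩
  rw [h x hx, toZ_xor, toZ_xor, h₁ x hx, h₂ x hx, add_dotProduct]
  ring

private theorem isAff_fn {A : Set (Vec M b)} {g₁ g : Vec M b → Bool} (h₁ : IsAff A g₁)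
    (φ : Bool → Bool) (h : ∀ x ∈ A, g x = φ (g₁ x)) : IsAff A g := by
  obtain ⟨c, d, hφ⟩ := bool_fn2 φ
  cases d with
  | false =>
    refine ⟨0, toZ c, fun x hx => ?_⟩
    rw [h x hx, hφ]
    simp
  | true =>
    obtain ⟨f₁, c₁, h₁⟩ := h₁
    refine ⟨f₁, toZ c + c₁, fun x hx => ?_⟩
    rw [h x hx, hφ, Bool.true_and, toZ_xor, h₁ x hx]
    ring

section

variable {val : Fin N ⊕ Fin k → Vec M b → Bool} {K : Finset (Fin k)}
  {T : Finset (Fin N ⊕ Fin k)} {B : Finset (Fin k)} {fn : Fin k → Bool → Bool → Bool}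
  {p q : Fin k → Atom (Fin N ⊕ Fin k)}

theorem Cert.stepX {W : Submodule (ZMod 2) (Vec M b)} {x₀ : Vec M b}
    (h : Cert (space W x₀) val K T B fn p q) (hB : B.Nonempty) :
    (∃ T' B' p' q', Cert (space W x₀) val K T' B' fn p' q' ∧ B'.card < B.card ∧ B' ⊆ B) ∨
    ∃ (f : Vec M b) (x' : Vec M b), x' ∈ space W x₀ ∧ ∃ T' B' p' q',
      Cert {x | x ∈ space W x₀ ∧ f ⬝ᵥ x = f ⬝ᵥ x'} val K T' B' fn p' q' ∧ B' ⊆ B ∧
      (B'.filter (fun i => ¬ IsXor (fn i))).card + 1 ≤
        (B.filter (fun i => ¬ IsXor (fn i))).card := by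
  obtain ⟨i, hi, hmin⟩ : ∃ i ∈ B, ∀ j ∈ B, i ≤ j :=
    ⟨B.min' hB, B.min'_mem hB, fun j hj => B.min'_le j hj⟩
  have hp : IsAff (space W x₀) (ev val (p i)) := by
    refine isAff_ev fun u hu => ?_
    rcases h.pin i hi u hu with h1 | ⟨j, hj, hji, -⟩
    · exact h.aff u h1
    · exact absurd hji (not_lt.2 (hmin j hj))
  have hq : IsAff (space W x₀) (ev val (q i)) := by
    refine isAff_ev fun u hu => ?_
    rcases h.qin i hi u hu with h1 | ⟨j, hj, hji, -⟩
    · exact h.aff u h1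
    · exact absurd hji (not_lt.2 (hmin j hj))
  by_cases hx : IsXor (fn i)
  · left
    have hα : IsAff (space W x₀) (val (Sum.inr i)) :=
      isAff_xor hp hq (fn i false false) fun x hx' => by
        rw [h.gate i hi x hx', xor_fn hx]
    exact ⟨_, _, _, _, h.toSymbol hi hα, card_erase_lt_of_mem hi, erase_subset i B⟩
  · right
    obtain ⟨f, c, hf⟩ := id hp
    have hA : {x | x ∈ space W x₀ ∧ f ⬝ᵥ x = f ⬝ᵥ x₀} ⊆ space W x₀ := fun x hx' => hx'.1
    have hα : IsAff {x | x ∈ space W x₀ ∧ f ⬝ᵥ x = f ⬝ᵥ x₀} (val (Sum.inr i)) := by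
      have hq' : IsAff {x | x ∈ space W x₀ ∧ f ⬝ᵥ x = f ⬝ᵥ x₀} (ev val (q i)) := by
        obtain ⟨f₂, c₂, h₂⟩ := hq
        exact ⟨f₂, c₂, fun x hx' => h₂ x hx'.1⟩
      refine isAff_fn hq' (fn i (ev val (p i) x₀)) fun x hx' => ?_
      rw [h.gate i hi x hx'.1]
      have h1 : ev val (p i) x = ev val (p i) x₀ := by
        apply toZ_inj
        rw [hf x hx'.1, hf x₀ (mem_space_self W x₀), hx'.2]
      rw [h1]
    refine ⟨f, x₀, mem_space_self W x₀, _, _, _, _, (h.mono hA).toSymbol hi hα,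
      erase_subset i B, ?_⟩
    have h2 : (B.erase i).filter (fun i => ¬ IsXor (fn i)) =
        (B.filter (fun i => ¬ IsXor (fn i))).erase i := by
      ext j
      simp only [mem_filter, mem_erase]
      tauto
    rw [h2]
    have h3 : i ∈ B.filter (fun i => ¬ IsXor (fn i)) := mem_filter.2 ⟨hi, hx⟩
    have h4 := card_erase_lt_of_mem h3
    omega

end

end Pool.Agent.MP_e81270_lc.Aff
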