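import Pool.Agent.Lib.MP_e81270_lc_Aff.Step
import Pool.Agent.Lib.MP_e81270_lc_Aff.StepX
import Pool.Agent.Lib.MP_e81270_lc_Aff.State

/-!
# Gate elimination: the loops
-/

set_option autoImplicit false

namespace Pool.Agent.MP_e81270_lc.Aff

open Finset Matrix

variable {M b n N k q s a : ℕ}

/-- A restriction by one form: the new state and the new space. -/
private theorem restrict_one {G : Fin M → (Fin b → ZMod 2) → Fin n} (hG : JointlyRich q G)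
    {W : Submodule (ZMod 2) (Vec M b)} {x₀ : Vec M b} {S : Finset (Fin M)}
    (h : State G q s W x₀ S a) (hM : M = n + 1) (hs : 1 ≤ s) (f : Vec M b) {x' : Vec M b}
    (hx' : x' ∈ space W x₀) (ha : a + 1 + (q + s) * M < b * M) :
    ∃ (W₁ : Submodule (ZMod 2) (Vec M b)) (x₁ : Vec M b) (S₁ : Finset (Fin M)),
      State G q s W₁ x₁ S₁ (a + 1) ∧ W ≤ W₁ ∧ x₁ ∈ space W x₀ ∧
      space W₁ x₁ ⊆ {x | x ∈ space W x₀ ∧ f ⬝ᵥ x = f ⬝ᵥ x'} := by
  have hP : Module.finrank (ZMod 2) (Submodule.span (ZMod 2) {f}) ≤ 1 := by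
    have := finrank_span_le_card (R := ZMod 2) ({f} : Set (Vec M b))
    simpa using this
  obtain ⟨W₁, x₁, S₁, h₁, hle, hx₁⟩ := h.restrict hG hM hx' (Submodule.span (ZMod 2) {f}) hP hs ha
  have hf : f ∈ W ⊔ Submodule.span (ZMod 2) {f} :=
    (le_sup_right : Submodule.span (ZMod 2) {f} ≤ W ⊔ Submodule.span (ZMod 2) {f})
      (Submodule.mem_span_singleton_self f)
  have hx₁W : x₁ ∈ space W x₀ := by
    intro g hg
    rw [hx₁ g ((le_sup_left : W ≤ W ⊔ Submodule.span (ZMod 2) {f}) hg), hx' g hg]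
  refine ⟨W₁, x₁, S₁, h₁, le_sup_left.trans hle, hx₁W, ?_⟩
  intro x hx
  refine ⟨fun g hg => ?_, ?_⟩
  · rw [hx g (hle (le_sup_left (a := W) hg)), hx₁W g hg]
  · rw [hx f (hle hf), hx₁ f hf]

private theorem elim_aux {G : Fin M → (Fin b → ZMod 2) → Fin n} (hG : JointlyRich q G)
    (hM : M = n + 1) (hs : 1 ≤ s) {val : Fin N ⊕ Fin k → Vec M b → Bool} {K : Finset (Fin k)}
    (m : ℕ) : ∀ (m' : ℕ) {a : ℕ} {W : Submodule (ZMod 2) (Vec M b)} {x₀ : Vec M b}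
    {S : Finset (Fin M)} (_ : State G q s W x₀ S a)
    {T : Finset (Fin N ⊕ Fin k)} {B : Finset (Fin k)} {fn : Fin k → Bool → Bool → Bool}
    {p' q' : Fin k → Atom (Fin N ⊕ Fin k)} (_ : Cert (space W x₀) val K T B fn p' q')
    (_ : B.card + T.card ≤ m) (_ : 2 * B.card + T.card ≤ m')
    (_ : 4 * a + B.card + T.card + 4 * ((q + s) * M) < 4 * (b * M)),
    ∃ W₁ x₁ S₁ a₁, State G q s W₁ x₁ S₁ a₁ ∧ W ≤ W₁ ∧ x₁ ∈ space W x₀ ∧
      4 * a₁ ≤ 4 * a + B.card + T.card ∧ ∀ i ∈ K, IsLoc (space W₁ x₁) (val (Sum.inr i)) := by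
  induction m using Nat.strong_induction_on with
  | _ m IHm =>
  intro m'
  induction m' using Nat.strong_induction_on with
  | _ m' IHm' =>
  intro a W x₀ S h T B fn p' q' hc hm hm' ha
  rcases B.eq_empty_or_nonempty with rfl | hB
  · refine ⟨W, x₀, S, a, h, le_rfl, mem_space_self W x₀, by omega, fun i hi => ?_⟩
    rcases hc.rep i hi with h1 | ⟨j, hj, _⟩
    · exact h1
    · exact absurd hj (notMem_empty j)
  · rcases hc.step hB with ⟨T', B', fn', p'', q'', hc', hle, hlt⟩ |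
      ⟨f, x', hx', T', B', fn', p'', q'', hc', hle⟩
    · obtain ⟨W₁, x₁, S₁, a₁, h₁, h2, h3, h4, h5⟩ :=
        IHm' (2 * B'.card + T'.card) (by omega) h hc' (by omega) le_rfl (by omega)
      exact ⟨W₁, x₁, S₁, a₁, h₁, h2, h3, by omega, h5⟩
    · obtain ⟨W₁, x₁, S₁, h₁, hW, hx₁, hsub⟩ := restrict_one hG h hM hs f hx' (by omega)
      obtain ⟨W₂, x₂, S₂, a₂, h2, hW₂, hx₂, h4, h5⟩ :=
        IHm (B'.card + T'.card) (by omega) (2 * B'.card + T'.card) h₁ (hc'.mono hsub) le_rfl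
          le_rfl (by omega)
      refine ⟨W₂, x₂, S₂, a₂, h2, hW.trans hW₂, ?_, by omega, h5⟩
      exact (hsub hx₂).1

theorem State.elim {G : Fin M → (Fin b → ZMod 2) → Fin n} (hG : JointlyRich q G)
    {W : Submodule (ZMod 2) (Vec M b)} {x₀ : Vec M b} {S : Finset (Fin M)}
    (h : State G q s W x₀ S a) (hM : M = n + 1) (hs : 1 ≤ s)
    {val : Fin N ⊕ Fin k → Vec M b → Bool} {K : Finset (Fin k)}
    {T : Finset (Fin N ⊕ Fin k)} {B : Finset (Fin k)} {fn : Fin k → Bool → Bool → Bool}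
    {p' q' : Fin k → Atom (Fin N ⊕ Fin k)} (hc : Cert (space W x₀) val K T B fn p' q')
    (ha : 4 * a + B.card + T.card + 4 * ((q + s) * M) < 4 * (b * M)) :
    ∃ W₁ x₁ S₁ a₁, State G q s W₁ x₁ S₁ a₁ ∧ W ≤ W₁ ∧ x₁ ∈ space W x₀ ∧
      4 * a₁ ≤ 4 * a + B.card + T.card ∧ ∀ i ∈ K, IsLoc (space W₁ x₁) (val (Sum.inr i)) :=
  elim_aux hG hM hs _ _ h hc le_rfl le_rfl ha

private theorem elimX_aux {G : Fin M → (Fin b → ZMod 2) → Fin n} (hG : JointlyRich q G)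
    (hM : M = n + 1) (hs : 1 ≤ s) {val : Fin N ⊕ Fin k → Vec M b → Bool} {K : Finset (Fin k)}
    {fn : Fin k → Bool → Bool → Bool}
    (m : ℕ) : ∀ {a : ℕ} {W : Submodule (ZMod 2) (Vec M b)} {x₀ : Vec M b}
    {S : Finset (Fin M)} (_ : State G q s W x₀ S a)
    {T : Finset (Fin N ⊕ Fin k)} {B : Finset (Fin k)}
    {p' q' : Fin k → Atom (Fin N ⊕ Fin k)} (_ : Cert (space W x₀) val K T B fn p' q')
    (_ : B.card ≤ m)
    (_ : a + (B.filter (fun i => ¬ IsXor (fn i))).card + (q + s) * M < b * M),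
    ∃ W₁ x₁ S₁ a₁, State G q s W₁ x₁ S₁ a₁ ∧ W ≤ W₁ ∧ x₁ ∈ space W x₀ ∧
      a₁ ≤ a + (B.filter (fun i => ¬ IsXor (fn i))).card ∧
      ∀ i ∈ K, IsLoc (space W₁ x₁) (val (Sum.inr i)) := by
  induction m using Nat.strong_induction_on with
  | _ m IHm =>
  intro a W x₀ S h T B p' q' hc hm ha
  rcases B.eq_empty_or_nonempty with rfl | hB
  · refine ⟨W, x₀, S, a, h, le_rfl, mem_space_self W x₀, by omega, fun i hi => ?_⟩
    rcases hc.rep i hi with h1 | ⟨j, hj, _⟩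
    · exact h1
    · exact absurd hj (notMem_empty j)
  · rcases hc.stepX hB with ⟨T', B', p'', q'', hc', hlt, hsubB⟩ |
      ⟨f, x', hx', T', B', p'', q'', hc', hsubB, hle⟩
    · have hfil : (B'.filter (fun i => ¬ IsXor (fn i))).card ≤
          (B.filter (fun i => ¬ IsXor (fn i))).card :=
        card_le_card (filter_subset_filter _ hsubB)
      obtain ⟨W₁, x₁, S₁, a₁, h₁, h2, h3, h4, h5⟩ :=
        IHm B'.card (by omega) h hc' le_rfl (by omega)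
      exact ⟨W₁, x₁, S₁, a₁, h₁, h2, h3, by omega, h5⟩
    · have hlt : B'.card < B.card := by
        refine card_lt_card (hsubB.ssubset_of_ne ?_)
        rintro rfl
        omega
      obtain ⟨W₁, x₁, S₁, h₁, hW, hx₁, hsub⟩ := restrict_one hG h hM hs f hx' (by omega)
      obtain ⟨W₂, x₂, S₂, a₂, h2, hW₂, hx₂, h4, h5⟩ :=
        IHm B'.card (by omega) h₁ (hc'.mono hsub) le_rfl (by omega)
      refine ⟨W₂, x₂, S₂, a₂, h2, hW.trans hW₂, ?_, by omega, h5⟩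
      exact (hsub hx₂).1

theorem State.elimX {G : Fin M → (Fin b → ZMod 2) → Fin n} (hG : JointlyRich q G)
    {W : Submodule (ZMod 2) (Vec M b)} {x₀ : Vec M b} {S : Finset (Fin M)}
    (h : State G q s W x₀ S a) (hM : M = n + 1) (hs : 1 ≤ s)
    {val : Fin N ⊕ Fin k → Vec M b → Bool} {K : Finset (Fin k)}
    {T : Finset (Fin N ⊕ Fin k)} {B : Finset (Fin k)} {fn : Fin k → Bool → Bool → Bool}
    {p' q' : Fin k → Atom (Fin N ⊕ Fin k)} (hc : Cert (space W x₀) val K T B fn p' q')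
    (ha : a + (B.filter (fun i => ¬ IsXor (fn i))).card + (q + s) * M < b * M) :
    ∃ W₁ x₁ S₁ a₁, State G q s W₁ x₁ S₁ a₁ ∧ W ≤ W₁ ∧ x₁ ∈ space W x₀ ∧
      a₁ ≤ a + (B.filter (fun i => ¬ IsXor (fn i))).card ∧
      ∀ i ∈ K, IsLoc (space W₁ x₁) (val (Sum.inr i)) :=
  elimX_aux hG hM hs _ h hc le_rfl ha

end Pool.Agent.MP_e81270_lc.Aff
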