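import Pool.Agent.Lib.MP_e81270_lc_Aff.Circ

/-!
# Functions of few forms
-/

set_option autoImplicit false

namespace Pool.Agent.MP_e81270_lc.Aff

open Finset Matrix

variable {M b : ℕ}

/-- On `A`, the value of `g` is determined by at most `t` forms. -/
def IsDep (A : Set (Vec M b)) (t : ℕ) (g : Vec M b → Bool) : Prop :=
  ∃ P : Submodule (ZMod 2) (Vec M b), Module.finrank (ZMod 2) P ≤ t ∧
    ∀ x ∈ A, ∀ y ∈ A, (∀ f ∈ P, f ⬝ᵥ x = f ⬝ᵥ y) → g x = g y

theorem IsDep.mono {A A' : Set (Vec M b)} {t t' : ℕ} {g : Vec M b → Bool} (h : IsDep A t g)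
    (hA : A' ⊆ A) (ht : t ≤ t') : IsDep A' t' g := by
  obtain ⟨P, h1, h2⟩ := h
  exact ⟨P, h1.trans ht, fun x hx y hy => h2 x (hA hx) y (hA hy)⟩

theorem isDep_const {A : Set (Vec M b)} {t : ℕ} {g : Vec M b → Bool}
    (h : ∀ x ∈ A, ∀ y ∈ A, g x = g y) : IsDep A t g :=
  ⟨⊥, by simp, fun x hx y hy _ => h x hx y hy⟩

theorem IsLoc.isDep {A : Set (Vec M b)} {g : Vec M b → Bool} (h : IsLoc A g) :
    IsDep A 2 g := by
  classical
  obtain ⟨f₁, f₂, φ, h⟩ := h
  refine ⟨Submodule.span (ZMod 2) {f₁, f₂}, ?_, ?_⟩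
  · have h1 := finrank_span_le_card (R := ZMod 2) ({f₁, f₂} : Set (Vec M b))
    refine h1.trans ?_
    rw [Set.toFinset_insert, Set.toFinset_singleton]
    exact Finset.card_le_two
  · intro x hx y hy hf
    rw [h x hx, h y hy, hf f₁ (Submodule.subset_span (by simp)),
      hf f₂ (Submodule.subset_span (by simp))]

theorem IsAff.isDep {A : Set (Vec M b)} {g : Vec M b → Bool} (h : IsAff A g) :
    IsDep A 1 g := by
  classical
  obtain ⟨f, c, h⟩ := h
  refine ⟨Submodule.span (ZMod 2) {f}, ?_, ?_⟩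
  · have h1 := finrank_span_le_card (R := ZMod 2) ({f} : Set (Vec M b))
    refine h1.trans ?_
    rw [Set.toFinset_singleton]
    simp
  · intro x hx y hy hf
    have h1 : toZ (g x) = toZ (g y) := by
      rw [h x hx, h y hy, hf f (Submodule.subset_span (by simp))]
    revert h1
    unfold toZ
    cases g x <;> cases g y <;> simp

/-- A function of functions of few forms. -/
theorem isDep_of_determined {A : Set (Vec M b)} {U : Type} {val : U → Vec M b → Bool} {r t : ℕ}
    (E : Finset U) (hE : E.card ≤ t) (hloc : ∀ u ∈ E, IsDep A r (val u)) {g : Vec M b → Bool}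
    (hg : ∀ x ∈ A, ∀ y ∈ A, (∀ u ∈ E, val u x = val u y) → g x = g y) :
    IsDep A (r * t) g := by
  classical
  choose! P hP1 hP2 using hloc
  refine ⟨E.sup P, ?_, ?_⟩
  · refine le_trans ?_ (Nat.mul_le_mul_left r hE)
    clear hg hP2 hE
    induction E using Finset.induction_on with
    | empty => simp
    | insert u E hu ih =>
      rw [Finset.sup_insert, Finset.card_insert_of_notMem hu]
      have h1 := Submodule.finrank_add_le_finrank_add_finrank (P u) (E.sup P)
      have h2 := ih (fun v hv => hP1 v (Finset.mem_insert_of_mem hv))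
      have h3 := hP1 u (Finset.mem_insert_self u E)
      rw [Nat.mul_add, Nat.mul_one]
      omega
  · intro x hx y hy hf
    apply hg x hx y hy
    intro u hu
    exact hP2 u hu x hx y hy (fun f hfu => hf f ((Finset.le_sup hu : P u ≤ E.sup P) hfu))

end Pool.Agent.MP_e81270_lc.Aff
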