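import Pool.Agent.Lib.MP_e81270_lc_Aff.Width
import Pool.Agent.Lib.MP_e81270_lc_Aff.Outer

/-!
# Killing the wide lines
-/

set_option autoImplicit false

namespace Pool.Agent.MP_e81270_lc.Aff

open Finset Matrix

variable {M b n N k q s a L : ℕ}

theorem finrank_finset_sup_le {α : Type} (E : Finset α) (P : α → Submodule (ZMod 2) (Vec M b))
    {t : ℕ} (hP : ∀ u ∈ E, Module.finrank (ZMod 2) (P u) ≤ t) :
    Module.finrank (ZMod 2) (E.sup P : Submodule (ZMod 2) (Vec M b)) ≤ t * E.card := by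
  classical
  induction E using Finset.induction_on with
  | empty => simp
  | @insert u E hu ih =>
    rw [sup_insert, card_insert_of_notMem hu, mul_add, mul_one]
    have h1 := Submodule.finrank_add_le_finrank_add_finrank (P u) (E.sup P)
    have h2 := ih (fun v hv => hP v (mem_insert_of_mem hv))
    have h3 := hP u (mem_insert_self u E)
    omega

section

variable {α : Type} [Fintype α]

open scoped Classical in
/-- The atoms of the line `t` that are not constant on `A`. -/
private noncomputable def moving (A : Set (Vec M b)) (val : α → Vec M b → Bool)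
    (Λ : Fin L → Set (α × Bool)) (t : Fin L) : Finset α :=
  univ.filter (fun u => (∃ σ, (u, σ) ∈ Λ t) ∧ ∃ x ∈ A, ∃ y ∈ A, val u x ≠ val u y)

open scoped Classical in
/-- The lines that are not identically true on `A` and have at least `w` moving atoms. -/
private noncomputable def wide (A : Set (Vec M b)) (H : Fin L → Vec M b → Prop)
    (val : α → Vec M b → Bool) (Λ : Fin L → Set (α × Bool)) (w : ℕ) : Finset (Fin L) :=
  univ.filter (fun t => (∃ x ∈ A, ¬ H t x) ∧ w ≤ (moving A val Λ t).card)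

private theorem mem_moving {A : Set (Vec M b)} {val : α → Vec M b → Bool}
    {Λ : Fin L → Set (α × Bool)} {t : Fin L} {u : α} :
    u ∈ moving A val Λ t ↔ (∃ σ, (u, σ) ∈ Λ t) ∧ ∃ x ∈ A, ∃ y ∈ A, val u x ≠ val u y := by
  classical
  unfold moving
  simp

private theorem mem_wide {A : Set (Vec M b)} {H : Fin L → Vec M b → Prop}
    {val : α → Vec M b → Bool} {Λ : Fin L → Set (α × Bool)} {w : ℕ} {t : Fin L} :
    t ∈ wide A H val Λ w ↔ (∃ x ∈ A, ¬ H t x) ∧ w ≤ (moving A val Λ t).card := by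
  classical
  unfold wide
  simp

private theorem moving_mono {A A' : Set (Vec M b)} (hA : A' ⊆ A) {val : α → Vec M b → Bool}
    {Λ : Fin L → Set (α × Bool)} (t : Fin L) : moving A' val Λ t ⊆ moving A val Λ t := by
  intro u hu
  rw [mem_moving] at hu ⊢
  obtain ⟨h1, x, hx, y, hy, h2⟩ := hu
  exact ⟨h1, x, hA hx, y, hA hy, h2⟩

private theorem wide_mono {A A' : Set (Vec M b)} (hA : A' ⊆ A) {H : Fin L → Vec M b → Prop}
    {val : α → Vec M b → Bool} {Λ : Fin L → Set (α × Bool)} {w : ℕ} :
    wide A' H val Λ w ⊆ wide A H val Λ w := by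
  intro t ht
  rw [mem_wide] at ht ⊢
  obtain ⟨⟨x, hx, h1⟩, h2⟩ := ht
  exact ⟨⟨x, hA hx, h1⟩, h2.trans (card_le_card (moving_mono hA t))⟩

/-- A state with many live rows has a wide line. -/
private theorem State.wide_nonempty {G : Fin M → (Fin b → ZMod 2) → Fin n}
    (hG : JointlyRich q G) {W : Submodule (ZMod 2) (Vec M b)} {x₀ : Vec M b}
    {S : Finset (Fin M)} (h : State G q s W x₀ S a) (hM : M = n + 1)
    (H : Fin L → Vec M b → Prop) (val : α → Vec M b → Bool) {d : ℕ} (hd : 1 ≤ d)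
    (hloc : ∀ u, IsDep (space W x₀) d (val u)) (c : Fin L → Prop) (Λ : Fin L → Set (α × Bool))
    (hrep : ∀ t, ∀ x ∈ space W x₀, (H t x ↔ c t ∨ ∃ l ∈ Λ t, val l.1 x = l.2))
    (hsound : ∀ t, (∃ i j, i ≠ j ∧ ∀ x, G i (rowOf x i) ≠ G j (rowOf x j) → H t x) ∨
      ∃ P : Finset (Fin L), P.card ≤ 2 ∧ (∀ r ∈ P, r < t) ∧ ∀ x, (∀ r ∈ P, H r x) → H t x)
    (hlast : ∃ t, ∀ x, ¬ H t x) {w m₀ : ℕ} (hm₀ : 6 ≤ m₀) (hw : 3 * (d * w) ≤ s * m₀)
    (hS : S.card + m₀ ≤ M) : (wide (space W x₀) H val Λ w).Nonempty := by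
  classical
  choose P hP hval using hloc
  let Φ : Fin L → Submodule (ZMod 2) (Vec M b) := fun t =>
    (moving (space W x₀) val Λ t).sup P
  have hΦ : ∀ t, Module.finrank (ZMod 2) (Φ t) ≤
      d * (moving (space W x₀) val Λ t).card := fun t =>
    finrank_finset_sup_le _ P (fun u _ => hP u)
  obtain ⟨t, ht1, ht2⟩ := h.width hG hM H Φ (by
    intro t x hx y hy hxy hHx
    by_contra hcon
    have hc := mt (hrep t y hy).mpr hcon
    rw [not_or] at hc
    rcases (hrep t x hx).mp hHx with h1 | ⟨l, hl, h1⟩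
    · exact hc.1 h1
    · apply hc.2
      refine ⟨l, hl, ?_⟩
      by_cases hne : val l.1 x = val l.1 y
      · rw [← hne]; exact h1
      · have hmem : l.1 ∈ moving (space W x₀) val Λ t := by
          rw [mem_moving]
          exact ⟨⟨l.2, hl⟩, x, hx, y, hy, hne⟩
        exfalso
        apply hne
        apply hval l.1 x hx y hy
        intro f hf
        exact hxy f ((le_sup (f := P) hmem : P l.1 ≤ _) hf)) hsound hlast (by omega)
  refine ⟨t, ?_⟩
  rw [mem_wide]
  refine ⟨ht1, ?_⟩
  have h1 := Submodule.finrank_sup_add_finrank_inf_eq W (Φ t)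
  have h2 := hΦ t
  have h3 : s * m₀ ≤ s * (M - S.card) := Nat.mul_le_mul_left s (by omega)
  have h4 : 3 * (d * w) ≤ 3 * (d * (moving (space W x₀) val Λ t).card) := by omega
  have h5 : d * w ≤ d * (moving (space W x₀) val Λ t).card := by omega
  exact Nat.le_of_mul_le_mul_left h5 hd

/-- One step: a good part of the wide lines is satisfied. -/
private theorem State.kill {G : Fin M → (Fin b → ZMod 2) → Fin n} (hG : JointlyRich q G)
    {W : Submodule (ZMod 2) (Vec M b)} {x₀ : Vec M b} {S : Finset (Fin M)}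
    (h : State G q s W x₀ S a) (hM : M = n + 1) {d : ℕ} (hs : d ≤ s)
    (H : Fin L → Vec M b → Prop)
    (val : α → Vec M b → Bool) (hloc : ∀ u, IsDep (space W x₀) d (val u)) (c : Fin L → Prop)
    (Λ : Fin L → Set (α × Bool))
    (hrep : ∀ t, ∀ x ∈ space W x₀, (H t x ↔ c t ∨ ∃ l ∈ Λ t, val l.1 x = l.2)) {w : ℕ}
    (hw : 1 ≤ w) (ha : a + d + (q + s) * M < b * M)
    (hne : (wide (space W x₀) H val Λ w).Nonempty) :
    ∃ (W₁ : Submodule (ZMod 2) (Vec M b)) (x₁ : Vec M b) (S₁ : Finset (Fin M)),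
      State G q s W₁ x₁ S₁ (a + d) ∧ space W₁ x₁ ⊆ space W x₀ ∧
      (wide (space W₁ x₁) H val Λ w).card * (2 * Fintype.card α) +
        (wide (space W x₀) H val Λ w).card * w ≤
        (wide (space W x₀) H val Λ w).card * (2 * Fintype.card α) := by
  classical
  set Wd := wide (space W x₀) H val Λ w with hWd
  -- a popular literal
  let hit : α × Bool → Finset (Fin L) := fun l =>
    Wd.filter (fun t => l.1 ∈ moving (space W x₀) val Λ t ∧ l ∈ Λ t)
  have hsum : Wd.card * w ≤ ∑ l : α × Bool, (hit l).card := by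
    have e1 : ∀ t ∈ Wd, w ≤ (univ.filter (fun l : α × Bool =>
        l.1 ∈ moving (space W x₀) val Λ t ∧ l ∈ Λ t)).card := by
      intro t ht
      rw [hWd, mem_wide] at ht
      refine ht.2.trans ?_
      have e2 : ∀ u ∈ moving (space W x₀) val Λ t, ∃ σ, (u, σ) ∈ Λ t :=
        fun u hu => (mem_moving.mp hu).1
      choose! σ hσ using e2
      apply card_le_card_of_injOn (fun u => (u, σ u))
      · intro u hu
        rw [mem_coe, mem_filter]
        exact ⟨mem_univ _, hu, hσ u hu⟩
      · intro u _ v _ huv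
        exact congrArg Prod.fst huv
    calc Wd.card * w = ∑ _t ∈ Wd, w := by rw [sum_const, smul_eq_mul]
      _ ≤ ∑ t ∈ Wd, (univ.filter (fun l : α × Bool =>
        l.1 ∈ moving (space W x₀) val Λ t ∧ l ∈ Λ t)).card := sum_le_sum e1
      _ = ∑ t ∈ Wd, ∑ l : α × Bool,
          if l.1 ∈ moving (space W x₀) val Λ t ∧ l ∈ Λ t then 1 else 0 := by
        apply sum_congr rfl
        intro t _
        rw [card_filter]
      _ = ∑ l : α × Bool, ∑ t ∈ Wd,
          if l.1 ∈ moving (space W x₀) val Λ t ∧ l ∈ Λ t then 1 else 0 := sum_comm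
      _ = ∑ l : α × Bool, (hit l).card := by
        apply sum_congr rfl
        intro l _
        rw [card_filter]
  obtain ⟨l, hl⟩ : ∃ l : α × Bool, Wd.card * w ≤ (hit l).card * (2 * Fintype.card α) := by
    by_contra hcon
    push Not at hcon
    have hcard : Fintype.card (α × Bool) = 2 * Fintype.card α := by
      rw [Fintype.card_prod, Fintype.card_bool, mul_comm]
    have e1 : (∑ l : α × Bool, (hit l).card) * (2 * Fintype.card α) ≤
        ∑ _l : α × Bool, (Wd.card * w - 1) := by
      rw [sum_mul]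
      apply sum_le_sum
      intro l _
      have := hcon l
      omega
    rw [sum_const, card_univ, hcard, smul_eq_mul] at e1
    have e2 := Nat.mul_le_mul_right (2 * Fintype.card α) hsum
    have hpos : 0 < Wd.card * w := Nat.mul_pos hne.card_pos hw
    have hT : 0 < 2 * Fintype.card α := by
      by_contra h0
      have h0' : Fintype.card α = 0 := by omega
      have : IsEmpty α := Fintype.card_eq_zero_iff.mp h0'
      rw [Fintype.sum_empty] at hsum
      omega
    have e3 : Wd.card * w * (2 * Fintype.card α) ≤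
        (2 * Fintype.card α) * (Wd.card * w - 1) := e2.trans e1
    have e4 : (2 * Fintype.card α) * (Wd.card * w - 1) <
        (2 * Fintype.card α) * (Wd.card * w) := Nat.mul_lt_mul_of_pos_left (by omega) hT
    rw [mul_comm (2 * Fintype.card α) (Wd.card * w)] at e4
    omega
  -- the atom moves
  have hne' : (hit l).Nonempty := by
    rw [← card_pos]
    by_contra h0
    have h0' : (hit l).card = 0 := by omega
    rw [h0', zero_mul] at hl
    have hpos : 0 < Wd.card * w := Nat.mul_pos hne.card_pos hw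
    omega
  obtain ⟨t₀, ht₀⟩ := hne'
  obtain ⟨-, x, hx, y, hy, hxy⟩ := mem_moving.mp (mem_filter.mp ht₀).2.1
  obtain ⟨x', hx', hval⟩ : ∃ x' ∈ space W x₀, val l.1 x' = l.2 := by
    by_cases h1 : val l.1 x = l.2
    · exact ⟨x, hx, h1⟩
    · refine ⟨y, hy, ?_⟩
      cases hvx : val l.1 x <;> cases hvy : val l.1 y <;> cases hl2 : l.2 <;>
        simp_all
  obtain ⟨P, hP, hdet⟩ := hloc l.1
  obtain ⟨W₁, x₁, S₁, h1, h2, h3⟩ := h.restrict hG hM hx' P hP hs ha
  have hsub : space W₁ x₁ ⊆ space W x₀ := by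
    intro z hz
    have e1 : z ∈ space W x₁ := space_anti (le_sup_left.trans h2) x₁ hz
    have e2 : x₁ ∈ space W x' := space_anti le_sup_left x' h3
    rw [space_eq e2, space_eq hx'] at e1
    exact e1
  have htrue : ∀ z ∈ space W₁ x₁, val l.1 z = l.2 := by
    intro z hz
    rw [← hval]
    apply hdet z (hsub hz) x' hx'
    intro f hf
    have e0 : f ∈ W ⊔ P := Submodule.mem_sup_right hf
    rw [hz f (h2 e0), h3 f e0]
  refine ⟨W₁, x₁, S₁, h1, hsub, ?_⟩
  have e1 : wide (space W₁ x₁) H val Λ w ⊆ Wd \ hit l := by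
    intro t ht
    rw [mem_sdiff]
    refine ⟨wide_mono hsub ht, ?_⟩
    intro hit'
    obtain ⟨⟨z, hz, hHz⟩, -⟩ := mem_wide.mp ht
    apply hHz
    rw [hrep t z (hsub hz)]
    right
    exact ⟨l, (mem_filter.mp hit').2.2, htrue z hz⟩
  have e2 : (wide (space W₁ x₁) H val Λ w).card ≤ Wd.card - (hit l).card :=
    (card_le_card e1).trans (le_of_eq (card_sdiff_of_subset (filter_subset _ _)))
  have e3 : (hit l).card ≤ Wd.card := card_le_card (filter_subset _ _)
  have e4 : (wide (space W₁ x₁) H val Λ w).card + (hit l).card ≤ Wd.card := by omega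
  calc (wide (space W₁ x₁) H val Λ w).card * (2 * Fintype.card α) + Wd.card * w
      ≤ (wide (space W₁ x₁) H val Λ w).card * (2 * Fintype.card α) +
        (hit l).card * (2 * Fintype.card α) := Nat.add_le_add_left hl _
    _ = ((wide (space W₁ x₁) H val Λ w).card + (hit l).card) * (2 * Fintype.card α) := by
        rw [add_mul]
    _ ≤ Wd.card * (2 * Fintype.card α) := Nat.mul_le_mul_right _ e4

end

theorem State.lower {G : Fin M → (Fin b → ZMod 2) → Fin n} (hG : JointlyRich q G)
    {W : Submodule (ZMod 2) (Vec M b)} {x₀ : Vec M b} {S : Finset (Fin M)}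
    (h : State G q s W x₀ S a) (hM : M = n + 1) {d : ℕ} (hd : 1 ≤ d) (hs : d ≤ s) {L : ℕ}
    (H : Fin L → Vec M b → Prop) {α : Type} [Fintype α] (val : α → Vec M b → Bool)
    (hloc : ∀ u, IsDep (space W x₀) d (val u)) (c : Fin L → Prop) (Λ : Fin L → Set (α × Bool))
    (hrep : ∀ t, ∀ x ∈ space W x₀, (H t x ↔ c t ∨ ∃ l ∈ Λ t, val l.1 x = l.2))
    (hsound : ∀ t, (∃ i j, i ≠ j ∧ ∀ x, G i (rowOf x i) ≠ G j (rowOf x j) → H t x) ∨
      ∃ P : Finset (Fin L), P.card ≤ 2 ∧ (∀ r ∈ P, r < t) ∧ ∀ x, (∀ r ∈ P, H r x) → H t x)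
    (hlast : ∃ t, ∀ x, ¬ H t x) {j w m₀ : ℕ} (hm₀ : 6 ≤ m₀) (hw : 3 * (d * w) ≤ s * m₀)
    (ha : a + d * j + (q + s) * M + b * m₀ < b * M) :
    Real.exp (j * w / (2 * (Fintype.card α : ℝ))) ≤ L := by
  classical
  have hL : 1 ≤ L := by
    obtain ⟨t, -⟩ := hlast
    have := t.2
    omega
  have hL' : (1 : ℝ) ≤ L := by exact_mod_cast hL
  rcases Nat.eq_zero_or_pos w with hw0 | hw0
  · rw [hw0]
    simpa using hL'
  rcases Nat.eq_zero_or_pos (Fintype.card α) with hT | hT
  · rw [hT]
    simpa using hL'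
  have hT' : (0 : ℝ) < Fintype.card α := by exact_mod_cast hT
  -- the number of live rows
  have hlive : ∀ {W' : Submodule (ZMod 2) (Vec M b)} {x' : Vec M b} {S' : Finset (Fin M)}
      {a' : ℕ}, State G q s W' x' S' a' → a' ≤ a + d * j → S'.card + m₀ ≤ M := by
    intro W' x' S' a' h' ha'
    have e1 := h'.card_le
    have e2 : S'.card ≤ M := by simpa using card_le_univ S'
    have e3 : (q + s) * S'.card ≤ (q + s) * M := Nat.mul_le_mul_left _ e2
    have e4 : b * (S'.card + m₀) < b * M := by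
      rw [mul_add]
      omega
    exact (Nat.lt_of_mul_lt_mul_left e4).le
  have key : ∀ i ≤ j, ∃ (W₁ : Submodule (ZMod 2) (Vec M b)) (x₁ : Vec M b)
      (S₁ : Finset (Fin M)), State G q s W₁ x₁ S₁ (a + d * i) ∧
      space W₁ x₁ ⊆ space W x₀ ∧
      ((wide (space W₁ x₁) H val Λ w).card : ℝ) ≤
        L * (1 - w / (2 * (Fintype.card α : ℝ))) ^ i := by
    intro i
    induction i with
    | zero =>
      intro _
      refine ⟨W, x₀, S, by simpa using h, subset_rfl, ?_⟩
      simp only [pow_zero, mul_one, Nat.cast_le]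
      simpa using card_le_univ (wide (space W x₀) H val Λ w)
    | succ i ih =>
      intro hi
      obtain ⟨W₁, x₁, S₁, h1, h2, h3⟩ := ih (by omega)
      have hloc₁ : ∀ u, IsDep (space W₁ x₁) d (val u) := fun u => (hloc u).mono h2 le_rfl
      have hdi : d * i + d ≤ d * j := by
        rw [← Nat.mul_succ]
        exact Nat.mul_le_mul_left d hi
      have hrep₁ : ∀ t, ∀ x ∈ space W₁ x₁, (H t x ↔ c t ∨ ∃ l ∈ Λ t, val l.1 x = l.2) :=
        fun t x hx => hrep t x (h2 hx)
      have hne := h1.wide_nonempty hG hM H val hd hloc₁ c Λ hrep₁ hsound hlast hm₀ hw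
        (hlive h1 (by omega))
      obtain ⟨W₂, x₂, S₂, e1, e2, e3⟩ := h1.kill hG hM hs H val hloc₁ c Λ hrep₁ hw0
        (by omega) hne
      refine ⟨W₂, x₂, S₂, ?_, e2.trans h2, ?_⟩
      · rw [show a + d * (i + 1) = a + d * i + d by ring]
        exact e1
      · have e4 : ((wide (space W₂ x₂) H val Λ w).card : ℝ) * (2 * (Fintype.card α : ℝ)) +
            ((wide (space W₁ x₁) H val Λ w).card : ℝ) * w ≤
            ((wide (space W₁ x₁) H val Λ w).card : ℝ) * (2 * (Fintype.card α : ℝ)) := by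
          exact_mod_cast e3
        have e5 : ((wide (space W₂ x₂) H val Λ w).card : ℝ) ≤
            ((wide (space W₁ x₁) H val Λ w).card : ℝ) *
              (1 - w / (2 * (Fintype.card α : ℝ))) := by
          have e6 : (0 : ℝ) < 2 * (Fintype.card α : ℝ) := by linarith
          rw [← mul_le_mul_iff_left₀ e6]
          have e7 : ((wide (space W₁ x₁) H val Λ w).card : ℝ) *
              (1 - w / (2 * (Fintype.card α : ℝ))) * (2 * (Fintype.card α : ℝ)) =
              ((wide (space W₁ x₁) H val Λ w).card : ℝ) * (2 * (Fintype.card α : ℝ)) -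
              ((wide (space W₁ x₁) H val Λ w).card : ℝ) * w := by
            field_simp
          rw [e7]
          linarith
        have e8 : (0 : ℝ) ≤ 1 - w / (2 * (Fintype.card α : ℝ)) := by
          obtain ⟨t, ht⟩ := hne
          have e9 := (mem_wide.mp ht).2
          have e10 : (moving (space W₁ x₁) val Λ t).card ≤ Fintype.card α := card_le_univ _
          have e11 : (w : ℝ) ≤ 2 * (Fintype.card α : ℝ) := by
            have : w ≤ 2 * Fintype.card α := by omega
            exact_mod_cast this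
          rw [sub_nonneg]
          exact div_le_one_of_le₀ e11 (by positivity)
        calc ((wide (space W₂ x₂) H val Λ w).card : ℝ) ≤
            ((wide (space W₁ x₁) H val Λ w).card : ℝ) *
              (1 - w / (2 * (Fintype.card α : ℝ))) := e5
          _ ≤ (L * (1 - w / (2 * (Fintype.card α : ℝ))) ^ i) *
              (1 - w / (2 * (Fintype.card α : ℝ))) := mul_le_mul_of_nonneg_right h3 e8
          _ = L * (1 - w / (2 * (Fintype.card α : ℝ))) ^ (i + 1) := by
              rw [pow_succ, mul_assoc]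
  obtain ⟨W₁, x₁, S₁, h1, h2, h3⟩ := key j le_rfl
  have hne := h1.wide_nonempty hG hM H val hd (fun u => (hloc u).mono h2 le_rfl) c Λ
    (fun t x hx => hrep t x (h2 hx)) hsound hlast hm₀ hw (hlive h1 le_rfl)
  have e1 : (1 : ℝ) ≤ ((wide (space W₁ x₁) H val Λ w).card : ℝ) := by
    exact_mod_cast hne.card_pos
  have e2 : (0 : ℝ) ≤ 1 - w / (2 * (Fintype.card α : ℝ)) := by
    obtain ⟨t, ht⟩ := hne
    have e9 := (mem_wide.mp ht).2
    have e10 : (moving (space W₁ x₁) val Λ t).card ≤ Fintype.card α := card_le_univ _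
    have e11 : (w : ℝ) ≤ 2 * (Fintype.card α : ℝ) := by
      have : w ≤ 2 * Fintype.card α := by omega
      exact_mod_cast this
    rw [sub_nonneg]
    exact div_le_one_of_le₀ e11 (by positivity)
  have e3 : (1 - w / (2 * (Fintype.card α : ℝ))) ^ j ≤
      Real.exp (-(j * w / (2 * (Fintype.card α : ℝ)))) := by
    have e4 : (1 - w / (2 * (Fintype.card α : ℝ))) ≤
        Real.exp (-(w / (2 * (Fintype.card α : ℝ)))) := by
      have := Real.add_one_le_exp (-((w : ℝ) / (2 * (Fintype.card α : ℝ))))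
      linarith
    calc (1 - w / (2 * (Fintype.card α : ℝ))) ^ j ≤
        (Real.exp (-(w / (2 * (Fintype.card α : ℝ))))) ^ j := pow_le_pow_left₀ e2 e4 j
      _ = Real.exp (-(j * w / (2 * (Fintype.card α : ℝ)))) := by
          rw [← Real.exp_nat_mul]
          congr 1
          ring
  have e5 : (1 : ℝ) ≤ L * Real.exp (-(j * w / (2 * (Fintype.card α : ℝ)))) :=
    e1.trans (h3.trans (mul_le_mul_of_nonneg_left e3 (by positivity)))
  rw [Real.exp_neg] at e5
  have e6 : (0 : ℝ) < Real.exp (j * w / (2 * (Fintype.card α : ℝ))) := Real.exp_pos _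
  have e7 := mul_le_mul_of_nonneg_right e5 e6.le
  rw [one_mul, mul_assoc, inv_mul_cancel₀ e6.ne', mul_one] at e7
  exact e7

end Pool.Agent.MP_e81270_lc.Aff
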