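import Pool.Agent.Lib.MP_e81270_lc_Aff.State

/-!
# Fixing the variables in `J`, and the first certificate
-/

set_option autoImplicit false

namespace Pool.Agent.MP_e81270_lc.Aff

open Finset Matrix

variable {M b n N k q s a : ℕ}

private theorem h_toZ_inj {c d : Bool} (h : toZ c = toZ d) : c = d := by
  cases c <;> cases d <;> simp_all [toZ]

theorem State.fixMany {G : Fin M → (Fin b → ZMod 2) → Fin n} (hG : JointlyRich q G)
    {W : Submodule (ZMod 2) (Vec M b)} {x₀ : Vec M b} {S : Finset (Fin M)}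
    (h : State G q s W x₀ S a) (hM : M = n + 1) (hs : 1 ≤ s)
    {U : Type} (val : U → Vec M b → Bool) (J : Finset U)
    (haff : ∀ u ∈ J, IsAff (space W x₀) (val u))
    (ha : a + J.card + (q + s) * M < b * M) :
    ∃ W₁ x₁ S₁, State G q s W₁ x₁ S₁ (a + J.card) ∧ W ≤ W₁ ∧ x₁ ∈ space W x₀ ∧
      ∀ u ∈ J, ∀ x ∈ space W₁ x₁, val u x = val u x₁ := by
  classical
  induction J using Finset.induction_on with
  | empty =>
    refine ⟨W, x₀, S, ?_, le_rfl, mem_space_self W x₀, ?_⟩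
    · rw [card_empty, add_zero]
      exact h
    · intro u hu
      exact absurd hu (notMem_empty u)
  | insert u J hu ih =>
    rw [card_insert_of_notMem hu] at ha ⊢
    obtain ⟨W₁, x₁, S₁, h₁, hW₁, hx₁, hJ₁⟩ :=
      ih (fun u' hu' => haff u' (mem_insert_of_mem hu')) (by omega)
    obtain ⟨f, c, hf⟩ := haff u (mem_insert_self u J)
    have hP : Module.finrank (ZMod 2) (Submodule.span (ZMod 2) ({f} : Set (Vec M b))) ≤ 1 := by
      have h1 := finrank_span_le_card (R := ZMod 2) ({f} : Set (Vec M b))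
      simpa using h1
    obtain ⟨W₂, x₂, S₂, h₂, hW₂, hx₂⟩ := h₁.restrict hG hM (mem_space_self W₁ x₁)
      (Submodule.span (ZMod 2) ({f} : Set (Vec M b))) hP hs (by omega)
    have hx₂' : x₂ ∈ space W₁ x₁ := space_anti le_sup_left x₁ hx₂
    have hsub : space W₂ x₂ ⊆ space W₁ x₁ := by
      intro x hx
      have h1 : x ∈ space W₁ x₂ := space_anti (le_sup_left.trans hW₂) x₂ hx
      rwa [space_eq hx₂'] at h1
    have hsub₁ : space W₁ x₁ ⊆ space W x₀ := by
      intro x hx
      have h1 : x ∈ space W x₁ := space_anti hW₁ x₁ hx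
      rwa [space_eq hx₁] at h1
    refine ⟨W₂, x₂, S₂, by rw [← add_assoc]; exact h₂, hW₁.trans (le_sup_left.trans hW₂),
      hsub₁ hx₂', ?_⟩
    intro u' hu' x hx
    rw [mem_insert] at hu'
    rcases hu' with rfl | hu'
    · apply h_toZ_inj
      rw [hf x (hsub₁ (hsub hx)), hf x₂ (hsub₁ hx₂')]
      have hfW : f ∈ W₂ := hW₂ (le_sup_right (a := W₁)
        (Submodule.subset_span (Set.mem_singleton f)))
      rw [hx f hfW]
    · rw [hJ₁ u' hu' x (hsub hx), hJ₁ u' hu' x₂ hx₂']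

open Classical in
/-- The input `y` as an atom: a constant if `y` is in `C`. -/
private noncomputable def h_atom (val : Fin N ⊕ Fin k → Vec M b → Bool) (x₁ : Vec M b)
    (C : Set (Fin N ⊕ Fin k)) (y : Fin N ⊕ Fin k) : Atom (Fin N ⊕ Fin k) :=
  if y ∈ C then (val y x₁, none) else (false, some y)

private theorem h_ev_atom {A : Set (Vec M b)} {val : Fin N ⊕ Fin k → Vec M b → Bool}
    {x₁ : Vec M b} {C : Set (Fin N ⊕ Fin k)} (hC : ∀ y ∈ C, ∀ x ∈ A, val y x = val y x₁)
    (y : Fin N ⊕ Fin k) {x : Vec M b} (hx : x ∈ A) : ev val (h_atom val x₁ C y) x = val y x := by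
  classical
  unfold h_atom ev
  by_cases hy : y ∈ C
  · rw [if_pos hy, hC y hy x hx]
    simp
  · rw [if_neg hy]
    simp

private theorem h_atom_some {val : Fin N ⊕ Fin k → Vec M b → Bool}
    {x₁ : Vec M b} {C : Set (Fin N ⊕ Fin k)} {y u : Fin N ⊕ Fin k}
    (h : (h_atom val x₁ C y).2 = some u) : y ∉ C ∧ u = y := by
  classical
  unfold h_atom at h
  by_cases hy : y ∈ C
  · rw [if_pos hy] at h
    exact absurd h (by simp)
  · rw [if_neg hy] at h
    exact ⟨hy, (Option.some.inj h).symm⟩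

/-- The first certificate: the variables outside `J` are symbols, the variables in `J` are
constant, the extension variables in `I` are defined from `J`. -/
theorem exists_cert {A : Set (Vec M b)} (D : ExtDefs (Fin N) k)
    {val : Fin N ⊕ Fin k → Vec M b → Bool}
    (hval : ∀ j x, val (Sum.inr j) x = D.fn j (val (D.arg₁ j) x) (val (D.arg₂ j) x))
    {J : Finset (Fin N)} {I : Finset (Fin k)} (hI : D.DefinedFrom J I) {Z : Finset (Fin N)}
    (haff : ∀ v, IsAff A (val (Sum.inl v))) {x₁ : Vec M b}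
    (hJ : ∀ v ∈ J ∪ Z, ∀ x ∈ A, val (Sum.inl v) x = val (Sum.inl v) x₁) (hx₁ : x₁ ∈ A) :
    (∀ i ∈ I, ∀ x ∈ A, val (Sum.inr i) x = val (Sum.inr i) x₁) ∧
    ∃ p q, Cert A val (univ \ I) ((univ \ (J ∪ Z)).image Sum.inl) (univ \ I) D.fn p q := by
  classical
  have hconst : ∀ i ∈ I, ∀ x ∈ A, val (Sum.inr i) x = val (Sum.inr i) x₁ := by
    intro i
    induction i using WellFoundedLT.induction with
    | ind i ih =>
      intro hi x hx
      have hd := hI i hi
      have h1 : val (D.arg₁ i) x = val (D.arg₁ i) x₁ := by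
        rcases hy : D.arg₁ i with v | j
        · exact hJ v (mem_union_left _ (hd.1 v (Or.inl hy))) x hx
        · exact ih j (D.earlier₁ i j hy) (hd.2 j (Or.inl hy)) x hx
      have h2 : val (D.arg₂ i) x = val (D.arg₂ i) x₁ := by
        rcases hy : D.arg₂ i with v | j
        · exact hJ v (mem_union_left _ (hd.1 v (Or.inr hy))) x hx
        · exact ih j (D.earlier₂ i j hy) (hd.2 j (Or.inr hy)) x hx
      rw [hval, hval, h1, h2]
  refine ⟨hconst, ?_⟩
  set C : Set (Fin N ⊕ Fin k) :=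
    {y | (∃ v ∈ J ∪ Z, y = Sum.inl v) ∨ ∃ i ∈ I, y = Sum.inr i} with hCdef
  have hC : ∀ y ∈ C, ∀ x ∈ A, val y x = val y x₁ := by
    rintro y (⟨v, hv, rfl⟩ | ⟨i, hi, rfl⟩) x hx
    · exact hJ v hv x hx
    · exact hconst i hi x hx
  have hin : ∀ (i : Fin k) (y : Fin N ⊕ Fin k), (∀ j, y = Sum.inr j → j < i) →
      ∀ u, (h_atom val x₁ C y).2 = some u →
        u ∈ (univ \ (J ∪ Z)).image Sum.inl ∨ ∃ j ∈ univ \ I, j < i ∧ u = Sum.inr j := by
    intro i y hy u hu
    obtain ⟨h1, rfl⟩ := h_atom_some hu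
    rcases u with v | j
    · left
      rw [mem_image]
      refine ⟨v, ?_, rfl⟩
      rw [mem_sdiff]
      exact ⟨mem_univ _, fun hv => h1 (Or.inl ⟨v, hv, rfl⟩)⟩
    · right
      refine ⟨j, ?_, hy j rfl, rfl⟩
      rw [mem_sdiff]
      exact ⟨mem_univ _, fun hj => h1 (Or.inr ⟨j, hj, rfl⟩)⟩
  refine ⟨fun i => h_atom val x₁ C (D.arg₁ i), fun i => h_atom val x₁ C (D.arg₂ i), ?_⟩
  refine ⟨?_, ?_, ?_, ?_, ?_, ?_⟩
  · intro u hu
    rw [mem_image] at hu
    obtain ⟨v, _, rfl⟩ := hu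
    exact haff v
  · intro i _ hi
    rw [mem_image] at hi
    obtain ⟨v, _, hv⟩ := hi
    exact absurd hv (by simp)
  · intro i _ x hx
    rw [h_ev_atom hC _ hx, h_ev_atom hC _ hx]
    exact hval i x
  · intro i _ u hu
    exact hin i _ (fun j hj => D.earlier₁ i j hj) u hu
  · intro i _ u hu
    exact hin i _ (fun j hj => D.earlier₂ i j hj) u hu
  · intro i hi
    right
    exact ⟨i, hi, false, fun x _ => by simp⟩

end Pool.Agent.MP_e81270_lc.Aff
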