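import Pool.Agent.Lib.MP_e81270_lc_Aff.System
import Pool.Agent.Lib.MP_e81270_lc_Aff.Circ

/-!
# The first certificate for general definitions
-/

set_option autoImplicit false

namespace Pool.Agent.MP_e81270_lc.Aff

open Finset Matrix

variable {M b N k : ℕ}

/-- Every assignment of the formula variables extends to one that obeys the definitions. -/
theorem exists_obeyed {V : Type} {k : ℕ} (D : Definitions V k) (x : V → Bool) :
    ∃ a : V ⊕ Fin k → Bool, D.Obeyed a ∧ ∀ v, a (Sum.inl v) = x v := by
  classical
  have key : ∀ m : ℕ, m ≤ k → ∃ a : V ⊕ Fin k → Bool, (∀ j : Fin k, (j : ℕ) < m →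
      a (Sum.inr j) = D.fn j a) ∧ ∀ v, a (Sum.inl v) = x v := by
    intro m
    induction m with
    | zero =>
      intro _
      exact ⟨fun u => Sum.elim x (fun _ => false) u, by simp, by simp⟩
    | succ m ih =>
      intro hm
      obtain ⟨a, ha1, ha2⟩ := ih (by omega)
      let j₀ : Fin k := ⟨m, by omega⟩
      have hdep : ∀ j : Fin k, (j : ℕ) < m + 1 →
          D.fn j (Function.update a (Sum.inr j₀) (D.fn j₀ a)) = D.fn j a := by
        intro j hj
        apply D.depends
        intro u hu
        rw [Function.update_of_ne]
        rintro rfl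
        have h2 : (j₀ : ℕ) < (j : ℕ) := D.earlier j j₀ hu
        simp only [j₀] at h2
        omega
      refine ⟨Function.update a (Sum.inr j₀) (D.fn j₀ a), ?_, ?_⟩
      · intro j hj
        rw [hdep j hj]
        by_cases hjm : j = j₀
        · subst hjm
          rw [Function.update_self]
        · rw [Function.update_of_ne (by simpa using hjm)]
          apply ha1
          have : (j : ℕ) ≠ m := by
            intro h
            apply hjm
            ext
            exact h
          omega
      · intro v
        rw [Function.update_of_ne (by simp)]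
        exact ha2 v
  obtain ⟨a, ha1, ha2⟩ := key k le_rfl
  exact ⟨a, fun j => ha1 j j.isLt, ha2⟩

/-- An extension variable with at most two arguments is a binary gate. -/
private theorem exists_binary {V : Type} [DecidableEq V] (D : Definitions V k) (j : Fin k)
    (hcard : (D.args j).card ≤ 2) : ∃ (α β : Option (V ⊕ Fin k)) (h : Bool → Bool → Bool),
      (∀ u, α = some u → u ∈ D.args j) ∧ (∀ u, β = some u → u ∈ D.args j) ∧
      (∀ a, D.fn j a = h (α.elim false a) (β.elim false a)) ∧ (D.IsXor j → IsXor h) := by
  classical
  rcases Nat.lt_or_ge 1 (D.args j).card with h2 | h2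
  · obtain ⟨u, v, huv, hargs⟩ := card_eq_two.mp (by omega : (D.args j).card = 2)
    let a₀ : V ⊕ Fin k → Bool := fun _ => false
    refine ⟨some u, some v, fun x y => D.fn j (Function.update (Function.update a₀ u x) v y),
      by rintro _ ⟨⟩; simp [hargs], by rintro _ ⟨⟩; simp [hargs], ?_, ?_⟩
    · intro a
      apply D.depends
      intro w hw
      rw [hargs, mem_insert, mem_singleton] at hw
      rcases hw with rfl | rfl
      · simp [Function.update_of_ne huv]
      · simp
    · intro hx x y
      constructor
      · have e1 := hx (Function.update (Function.update a₀ u (!x)) v y)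
          (Function.update (Function.update a₀ u x) v y) u (by simp [hargs])
          (by simp [Function.update_of_ne huv]) (by
            intro w hw hne
            rw [hargs, mem_insert, mem_singleton] at hw
            rcases hw with rfl | rfl
            · exact absurd rfl hne
            · simp)
        exact Bool.eq_not_of_ne e1
      · have e1 := hx (Function.update (Function.update a₀ u x) v (!y))
          (Function.update (Function.update a₀ u x) v y) v (by simp [hargs])
          (by simp) (by
            intro w hw hne
            rw [hargs, mem_insert, mem_singleton] at hw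
            rcases hw with rfl | rfl
            · simp [Function.update_of_ne huv]
            · exact absurd rfl hne)
        exact Bool.eq_not_of_ne e1
  · rcases Nat.lt_or_ge 0 (D.args j).card with h1 | h1
    · obtain ⟨u, hargs⟩ := card_eq_one.mp (by omega : (D.args j).card = 1)
      let a₀ : V ⊕ Fin k → Bool := fun _ => false
      refine ⟨some u, none, fun x y => xor (D.fn j (Function.update a₀ u x)) y,
        by rintro _ ⟨⟩; simp [hargs], by simp, ?_, ?_⟩
      · intro a
        simp only [Option.elim, Bool.xor_false]
        apply D.depends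
        intro w hw
        rw [hargs, mem_singleton] at hw
        subst hw
        simp
      · intro hx x y
        have e1 := hx (Function.update a₀ u (!x)) (Function.update a₀ u x) u (by simp [hargs])
          (by simp) (by
            intro w hw hne
            rw [hargs, mem_singleton] at hw
            exact absurd hw hne)
        have e2 : D.fn j (Function.update a₀ u (!x)) = !(D.fn j (Function.update a₀ u x)) :=
          Bool.eq_not_of_ne e1
        constructor
        · simp only [e2]
          cases D.fn j (Function.update a₀ u x) <;> cases y <;> rfl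
        · change xor (D.fn j (Function.update a₀ u x)) (!y) =
            !(xor (D.fn j (Function.update a₀ u x)) y)
          cases D.fn j (Function.update a₀ u x) <;> cases y <;> rfl
    · have hargs : D.args j = ∅ := by
        rw [← card_eq_zero]
        omega
      refine ⟨none, none, fun x y => xor (xor x y) (D.fn j (fun _ => false)), by simp,
        by simp, ?_, ?_⟩
      · intro a
        simp only [Option.elim, Bool.xor_false, Bool.false_xor]
        apply D.depends
        intro w hw
        rw [hargs] at hw
        simp at hw
      · intro _ x y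
        cases D.fn j (fun _ => false) <;> cases x <;> cases y <;> decide

/-- The first certificate for the inner extension variables. -/
theorem exists_cert₂ {A : Set (Vec M b)} (D : Definitions (Fin N) k)
    {val : Fin N ⊕ Fin k → Vec M b → Bool}
    (hval : ∀ j x, val (Sum.inr j) x = D.fn j (fun u => val u x))
    {J Z : Finset (Fin N)} {I B : Finset (Fin k)} {t : ℕ} (hsp : D.Split J I B t)
    (haff : ∀ v, IsAff A (val (Sum.inl v))) {x₁ : Vec M b}
    (hJ : ∀ v ∈ J ∪ Z, ∀ x ∈ A, val (Sum.inl v) x = val (Sum.inl v) x₁) :
    (∀ i ∈ I, ∀ x ∈ A, val (Sum.inr i) x = val (Sum.inr i) x₁) ∧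
    ∃ g p q, Cert A val (B \ I) ((univ \ (J ∪ Z)).image Sum.inl) (B \ I) g p q ∧
      ∀ i ∈ B \ I, D.IsXor i → IsXor (g i) := by
  classical
  obtain ⟨hI, hB, hO⟩ := hsp
  have hconst : ∀ m : ℕ, ∀ i : Fin k, i.val = m → i ∈ I → ∀ x ∈ A,
      val (Sum.inr i) x = val (Sum.inr i) x₁ := by
    intro m
    induction m using Nat.strong_induction_on with
    | _ m ih =>
      intro i him hi x hx
      rw [hval, hval]
      apply D.depends
      intro u hu
      rcases hI i hi u hu with ⟨v, hv, rfl⟩ | ⟨j, hj, rfl⟩
      · exact hJ v (mem_union_left _ hv) x hx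
      · have hlt := D.earlier i j hu
        exact ih j.val (by rw [← him]; exact hlt) j rfl hj x hx
  have hconst' : ∀ i ∈ I, ∀ x ∈ A, val (Sum.inr i) x = val (Sum.inr i) x₁ :=
    fun i hi => hconst _ i rfl hi
  refine ⟨hconst', ?_⟩
  have hbin : ∀ j : Fin k, ∃ (α β : Option (Fin N ⊕ Fin k)) (h : Bool → Bool → Bool),
      j ∈ B → (∀ u, α = some u → u ∈ D.args j) ∧ (∀ u, β = some u → u ∈ D.args j) ∧
      (∀ a, D.fn j a = h (α.elim false a) (β.elim false a)) ∧ (D.IsXor j → IsXor h) := by
    intro j
    by_cases hj : j ∈ B
    · obtain ⟨α, β, h, h1⟩ := exists_binary D j (hB j hj)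
      exact ⟨α, β, h, fun _ => h1⟩
    · exact ⟨none, none, fun _ _ => false, fun h => absurd h hj⟩
  choose α β h hh using hbin
  -- constants among the symbols
  let fixd : Finset (Fin N ⊕ Fin k) := (J ∪ Z).image Sum.inl ∪ I.image Sum.inr
  have hfix : ∀ u ∈ fixd, ∀ x ∈ A, val u x = val u x₁ := by
    intro u hu x hx
    rcases mem_union.mp hu with hu | hu
    · obtain ⟨v, hv, rfl⟩ := mem_image.mp hu
      exact hJ v hv x hx
    · obtain ⟨i, hi, rfl⟩ := mem_image.mp hu
      exact hconst' i hi x hx
  let at' : Option (Fin N ⊕ Fin k) → Atom (Fin N ⊕ Fin k) := fun o =>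
    o.elim (false, none) (fun u => if u ∈ fixd then (val u x₁, none) else (false, some u))
  have hev : ∀ o, ∀ x ∈ A, ev val (at' o) x = o.elim false (fun u => val u x) := by
    intro o x hx
    rcases o with _ | u
    · simp [at', ev]
    · by_cases hu : u ∈ fixd
      · simp [at', ev, hu, hfix u hu x hx]
      · simp [at', ev, hu]
  have hin : ∀ j ∈ B \ I, ∀ o, (∀ u, o = some u → u ∈ D.args j) → ∀ u, (at' o).2 = some u →
      u ∈ (univ \ (J ∪ Z)).image (Sum.inl : Fin N → Fin N ⊕ Fin k) ∨
        ∃ i ∈ B \ I, i < j ∧ u = Sum.inr i := by
    intro j hj o ho u hu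
    rcases o with _ | w
    · simp [at'] at hu
    · by_cases hw : w ∈ fixd
      · simp [at', hw] at hu
      · have hwu : w = u := by simpa [at', hw] using hu
        subst hwu
        have hmem := ho w rfl
        rcases w with v | i
        · left
          rw [mem_image]
          refine ⟨v, ?_, rfl⟩
          rw [mem_sdiff]
          refine ⟨mem_univ _, fun hv => hw ?_⟩
          exact mem_union_left _ (mem_image_of_mem _ hv)
        · right
          have hiI : i ∉ I := fun hi => hw (mem_union_right _ (mem_image_of_mem _ hi))
          have hiB := (hO j (mem_sdiff.mp hj).2).2 i hmem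
          refine ⟨i, ?_, D.earlier j i hmem, rfl⟩
          rw [mem_sdiff]
          rcases hiB with h1 | h1
          · exact absurd h1 hiI
          · exact ⟨h1, hiI⟩
  refine ⟨h, fun j => at' (α j), fun j => at' (β j), ?_, ?_⟩
  · constructor
    · intro u hu
      obtain ⟨v, -, rfl⟩ := mem_image.mp hu
      exact haff v
    · intro i _ hi
      obtain ⟨v, -, hv⟩ := mem_image.mp hi
      simp at hv
    · intro i hi x hx
      obtain ⟨-, -, h3, -⟩ := hh i (mem_sdiff.mp hi).1
      rw [hval, h3, hev _ x hx, hev _ x hx]
    · intro i hi u hu
      exact hin i hi (α i) (hh i (mem_sdiff.mp hi).1).1 u hu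
    · intro i hi u hu
      exact hin i hi (β i) (hh i (mem_sdiff.mp hi).1).2.1 u hu
    · intro i hi
      right
      exact ⟨i, hi, false, fun x _ => by simp⟩
  · intro i hi
    exact (hh i (mem_sdiff.mp hi).1).2.2.2

end Pool.Agent.MP_e81270_lc.Aff
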