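import Pool.Agent.Lib.MP_e81270_lc_Aff.Elim
import Pool.Agent.Lib.MP_e81270_lc_Aff.Start
import Pool.Agent.Lib.MP_e81270_lc_Aff.Start2
import Pool.Agent.Lib.MP_e81270_lc_Aff.Kill

/-!
# The formula, and the lower bound in terms of its parameters
-/

set_option autoImplicit false

namespace Pool.Agent.MP_e81270_lc.Aff

open Finset Matrix

variable {M n b k L q s N : ℕ}

/-- The clause saying that row `i` differs from `y` or row `j` differs from `y'`; the bits of the
rows are placed among the `N` variables by `e`. -/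
def clauseOf (e : (Fin M × Fin b) ↪ Fin N) (i j : Fin M) (y y' : Fin b → Bool) :
    Clause (Fin N) :=
  (List.finRange b).map (fun β => (e (i, β), !(y β))) ++
    (List.finRange b).map (fun β => (e (j, β), !(y' β)))

theorem sat_clauseOf {e : (Fin M × Fin b) ↪ Fin N} {i j : Fin M} {y y' : Fin b → Bool}
    {x : Fin N → Bool} : Sat x (clauseOf e i j y y') ↔
      ¬ ((fun β => x (e (i, β))) = y ∧ (fun β => x (e (j, β))) = y') := by
  unfold Sat clauseOf
  constructor
  · rintro ⟨l, hl, hx⟩ ⟨h1, h2⟩
    rw [List.mem_append, List.mem_map, List.mem_map] at hl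
    rcases hl with ⟨β, _, rfl⟩ | ⟨β, _, rfl⟩
    · have := congrFun h1 β
      simp only at this hx
      rw [this] at hx
      cases hy : y β <;> simp [hy] at hx
    · have := congrFun h2 β
      simp only at this hx
      rw [this] at hx
      cases hy : y' β <;> simp [hy] at hx
  · intro h
    rw [not_and_or] at h
    rcases h with h | h
    · obtain ⟨β, hβ⟩ := Function.ne_iff.mp h
      refine ⟨(e (i, β), !(y β)), ?_, ?_⟩
      · rw [List.mem_append, List.mem_map]
        exact Or.inl ⟨β, List.mem_finRange _, rfl⟩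
      · simp only at hβ ⊢
        cases hx : x (e (i, β)) <;> cases hy : y β <;> simp_all
    · obtain ⟨β, hβ⟩ := Function.ne_iff.mp h
      refine ⟨(e (j, β), !(y' β)), ?_, ?_⟩
      · rw [List.mem_append, List.mem_map, List.mem_map]
        exact Or.inr ⟨β, List.mem_finRange _, rfl⟩
      · simp only at hβ ⊢
        cases hx : x (e (j, β)) <;> cases hy : y' β <;> simp_all

/-- The pigeonhole principle for the map that sends row `i` to the hole `G i (row i)`. -/
noncomputable def formula (e : (Fin M × Fin b) ↪ Fin N)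
    (G : Fin M → (Fin b → ZMod 2) → Fin n) : CNF (Fin N) :=
  ((Finset.univ : Finset (Fin M × Fin M × (Fin b → Bool) × (Fin b → Bool))).filter
    (fun a => a.1 ≠ a.2.1 ∧ G a.1 (toZ ∘ a.2.2.1) = G a.2.1 (toZ ∘ a.2.2.2))).toList.map
    (fun a => clauseOf e a.1 a.2.1 a.2.2.1 a.2.2.2)

theorem mem_formula {e : (Fin M × Fin b) ↪ Fin N} {G : Fin M → (Fin b → ZMod 2) → Fin n}
    {C : Clause (Fin N)} : C ∈ formula e G ↔ ∃ i j y y', i ≠ j ∧
      G i (toZ ∘ y) = G j (toZ ∘ y') ∧ C = clauseOf e i j y y' := by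
  unfold formula
  rw [List.mem_map]
  constructor
  · rintro ⟨⟨i, j, y, y'⟩, ha, rfl⟩
    rw [Finset.mem_toList, Finset.mem_filter] at ha
    exact ⟨i, j, y, y', ha.2.1, ha.2.2, rfl⟩
  · rintro ⟨i, j, y, y', h1, h2, rfl⟩
    refine ⟨(i, j, y, y'), ?_, rfl⟩
    rw [Finset.mem_toList, Finset.mem_filter]
    exact ⟨Finset.mem_univ _, h1, h2⟩

theorem formula_unsat (hM : M = n + 1) (e : (Fin M × Fin b) ↪ Fin N)
    (G : Fin M → (Fin b → ZMod 2) → Fin n) : Unsat (formula e G) := by
  intro a
  obtain ⟨i, j, hij, h⟩ := Fintype.exists_ne_map_eq_of_card_lt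
    (fun i : Fin M => G i (toZ ∘ fun β => a (e (i, β)))) (by simp [hM])
  refine ⟨clauseOf e i j (fun β => a (e (i, β))) (fun β => a (e (j, β))),
    mem_formula.mpr ⟨i, j, _, _, hij, h, rfl⟩, ?_⟩
  rw [sat_clauseOf]
  simp

theorem formula_length (e : (Fin M × Fin b) ↪ Fin N) (G : Fin M → (Fin b → ZMod 2) → Fin n) :
    (formula e G).length ≤ (M * 2 ^ b) ^ 2 := by
  unfold formula
  rw [List.length_map, Finset.length_toList]
  refine (Finset.card_le_univ _).trans ?_
  simp only [Fintype.card_prod, Fintype.card_fin, Fintype.card_fun, Fintype.card_bool]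
  apply le_of_eq
  ring

theorem formula_width {e : (Fin M × Fin b) ↪ Fin N} {G : Fin M → (Fin b → ZMod 2) → Fin n}
    {C : Clause (Fin N)} (hC : C ∈ formula e G) : C.length = 2 * b := by
  obtain ⟨i, j, y, y', _, _, rfl⟩ := mem_formula.mp hC
  unfold clauseOf
  simp
  ring

/-- An element of the field with two elements as a bit. -/
def fromZ (c : ZMod 2) : Bool := decide (c = 1)

theorem toZ_fromZ (c : ZMod 2) : toZ (fromZ c) = c := by
  revert c; decide

open scoped Classical in
/-- The assignment of the `N` variables given by the point `x`. -/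
noncomputable def assign (e : (Fin M × Fin b) ↪ Fin N) (x : Vec M b) : Fin N → Bool :=
  fun v => if h : ∃ u, e u = v then fromZ (x h.choose) else false

theorem assign_apply (e : (Fin M × Fin b) ↪ Fin N) (x : Vec M b) (u : Fin M × Fin b) :
    assign e x (e u) = fromZ (x u) := by
  unfold assign
  have h : ∃ u', e u' = e u := ⟨u, rfl⟩
  rw [dif_pos h]
  rw [e.injective h.choose_spec]

theorem assign_none (e : (Fin M × Fin b) ↪ Fin N) (x : Vec M b) {v : Fin N}
    (hv : ¬ ∃ u, e u = v) : assign e x v = false := by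
  unfold assign
  rw [dif_neg hv]

theorem assign_aff (e : (Fin M × Fin b) ↪ Fin N) (A : Set (Vec M b)) (v : Fin N) :
    IsAff A (fun x => assign e x v) := by
  classical
  by_cases hv : ∃ u, e u = v
  · obtain ⟨u, rfl⟩ := hv
    refine ⟨Pi.single u 1, 0, ?_⟩
    intro x _
    change toZ (assign e x (e u)) = _
    rw [assign_apply, toZ_fromZ, single_dotProduct, one_mul, add_zero]
  · refine ⟨0, 0, ?_⟩
    intro x _
    change toZ (assign e x v) = _
    rw [assign_none e x hv]
    simp [toZ]

/-- The first state: nothing is known. -/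
theorem state_zero {G : Fin M → (Fin b → ZMod 2) → Fin n} (hb : q + s ≤ b) :
    State G q s (⊥ : Submodule (ZMod 2) (Vec M b)) 0 ∅ 0 where
  dead := by
    intro f hf
    rw [Submodule.mem_bot]
    funext v
    exact mem_onRows.mp hf v.1 v.2 (by simp)
  inj := by simp
  alive := by
    intro R _
    rw [bot_inf_eq, finrank_bot, zero_add]
    exact Nat.mul_le_mul_right _ hb
  dim := by simp

/-- The lower bound in terms of the parameters. -/
theorem formula_lower {G : Fin M → (Fin b → ZMod 2) → Fin n} (hG : JointlyRich q G)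
    (hM : M = n + 1) {t : ℕ} (ht : 1 ≤ t) (hs : 4 * t ≤ s) (e : (Fin M × Fin b) ↪ Fin N)
    (R : Refutation (formula e G) k L) {J : Finset (Fin N)} {I B X : Finset (Fin k)}
    (hI : R.defs.Split J I B t) (hX : ∀ i ∈ B, i ∉ X → R.defs.IsXor i) {a j w m₀ : ℕ}
    (hcase : 3 * J.card + B.card + N ≤ 4 * a ∨ J.card + X.card ≤ a)
    (hm₀ : 6 ≤ m₀) (hw : 3 * (4 * t * w) ≤ s * m₀)
    (ha : a + 4 * t * j + (q + s) * M + b * m₀ < b * M) :
    Real.exp (j * w / (2 * ((N + (univ \ I).card : ℕ) : ℝ))) ≤ L := by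
  classical
  choose E hE1 hE2 using exists_obeyed R.defs
  let val : Fin N ⊕ Fin k → Vec M b → Bool := fun u x => E (assign e x) u
  have hval : ∀ i x, val (Sum.inr i) x = R.defs.fn i (fun u => val u x) :=
    fun i x => hE1 (assign e x) i
  have hvar : ∀ v x, val (Sum.inl v) x = assign e x v := fun v x => hE2 _ v
  have haff : ∀ (A : Set (Vec M b)) (v : Fin N), IsAff A (val (Sum.inl v)) := by
    intro A v
    have h1 : val (Sum.inl v) = fun x => assign e x v := by
      funext x
      exact hvar v x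
    rw [h1]
    exact assign_aff e A v
  have hMpos : 0 < M := by omega
  have hqb : q + s ≤ b := by
    by_contra hcon
    have : b * M ≤ (q + s) * M := Nat.mul_le_mul_right _ (by omega)
    omega
  have hJa : J.card ≤ a := by
    rcases hcase with h | h
    · have h1 : J.card ≤ N := by simpa using card_le_univ J
      omega
    · omega
  have hBI : (B \ I).card ≤ B.card := card_le_card sdiff_subset
  -- fix the variables in J
  obtain ⟨W₁, x₁, S₁, h1, h2, h3, h4⟩ := (state_zero (G := G) hqb).fixMany hG hM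
    (by omega : 1 ≤ s) (fun v x => val (Sum.inl v) x) J (fun v _ => haff _ v) (by omega)
  rw [zero_add] at h1
  -- the first certificate
  obtain ⟨h5, g', p', q', h6, h7⟩ := exists_cert₂ (A := space W₁ x₁) R.defs hval
    (Z := univ.filter (fun v => ¬ ∃ u, e u = v)) hI (haff _) (x₁ := x₁) (by
      intro v hv x hx
      rcases mem_union.mp hv with hv | hv
      · exact h4 v hv x hx
      · rw [hvar, hvar, assign_none e x (mem_filter.mp hv).2,
          assign_none e x₁ (mem_filter.mp hv).2])
  have hT : ((univ \ (J ∪ univ.filter (fun v => ¬ ∃ u, e u = v))).image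
      (Sum.inl : Fin N → Fin N ⊕ Fin k)).card + J.card ≤ N := by
    have e1 := card_image_le (s := univ \ (J ∪ univ.filter (fun v => ¬ ∃ u, e u = v)))
      (f := (Sum.inl : Fin N → Fin N ⊕ Fin k))
    have e2 : (univ \ (J ∪ univ.filter (fun v => ¬ ∃ u, e u = v))).card ≤ N - J.card := by
      have e3 : univ \ (J ∪ univ.filter (fun v => ¬ ∃ u, e u = v)) ⊆ univ \ J :=
        sdiff_subset_sdiff subset_rfl subset_union_left
      have e4 := card_le_card e3
      rw [card_sdiff_of_subset (subset_univ J), card_univ, Fintype.card_fin] at e4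
      exact e4
    have e5 : J.card ≤ N := by simpa using card_le_univ J
    omega
  -- elimination
  obtain ⟨W₂, x₂, S₂, a₂, g1, g2, g3, g4, g5⟩ : ∃ W₂ x₂ S₂ a₂, State G q s W₂ x₂ S₂ a₂ ∧
      W₁ ≤ W₂ ∧ x₂ ∈ space W₁ x₁ ∧ a₂ ≤ a ∧
      ∀ i ∈ B \ I, IsLoc (space W₂ x₂) (val (Sum.inr i)) := by
    rcases hcase with hc | hc
    · obtain ⟨W₂, x₂, S₂, a₂, g1, g2, g3, g4, g5⟩ := h1.elim hG hM (by omega) h6 (by omega)
      exact ⟨W₂, x₂, S₂, a₂, g1, g2, g3, by omega, g5⟩
    · have hx : ((B \ I).filter (fun i => ¬ IsXor (g' i))).card ≤ X.card := by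
        apply card_le_card
        intro i hi
        rw [mem_filter] at hi
        by_contra hiX
        exact hi.2 (h7 i hi.1 (hX i (mem_sdiff.mp hi.1).1 hiX))
      obtain ⟨W₂, x₂, S₂, a₂, g1, g2, g3, g4, g5⟩ := h1.elimX hG hM (by omega) h6 (by omega)
      exact ⟨W₂, x₂, S₂, a₂, g1, g2, g3, by omega, g5⟩
  have hsub : space W₂ x₂ ⊆ space W₁ x₁ := by
    rw [← space_eq g3]
    exact space_anti g2 x₂
  have hIc : ∀ i ∈ I, ∀ x ∈ space W₂ x₂, ∀ y ∈ space W₂ x₂,
      val (Sum.inr i) x = val (Sum.inr i) y := by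
    intro i hi x hx y hy
    rw [h5 i hi x (hsub hx), h5 i hi y (hsub hy)]
  -- the atoms
  let At : Finset (Fin N ⊕ Fin k) := univ \ I.image Sum.inr
  have hAt : Fintype.card {u // u ∈ At} = N + (univ \ I).card := by
    rw [Fintype.card_coe]
    change (univ \ I.image Sum.inr : Finset (Fin N ⊕ Fin k)).card = _
    rw [card_sdiff_of_subset (subset_univ _), card_univ, Fintype.card_sum, Fintype.card_fin,
      Fintype.card_fin, card_image_of_injective _ Sum.inr_injective,
      card_sdiff_of_subset (subset_univ _), card_univ, Fintype.card_fin]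
    have : I.card ≤ k := by simpa using card_le_univ I
    omega
  have hinner : ∀ u : Fin N ⊕ Fin k, (∀ i, u = Sum.inr i → i ∈ I ∨ i ∈ B) →
      IsDep (space W₂ x₂) 2 (val u) := by
    intro u hu
    rcases u with v | i
    · exact (haff _ v).isDep.mono subset_rfl (by norm_num)
    · by_cases hi : i ∈ I
      · exact isDep_const (hIc i hi)
      · have hiB : i ∈ B := (hu i rfl).resolve_left hi
        exact (g5 i (mem_sdiff.mpr ⟨hiB, hi⟩)).isDep
  have hloc : ∀ u : {u // u ∈ At}, IsDep (space W₂ x₂) (4 * t) (val u.1) := by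
    rintro ⟨u, hu⟩
    rcases u with v | i
    · exact (haff _ v).isDep.mono subset_rfl (by omega)
    · have hi : i ∉ I := fun hi => (mem_sdiff.mp hu).2 (mem_image_of_mem _ hi)
      obtain ⟨hcard, hargs⟩ := hI.2.2 i hi
      have h8 : IsDep (space W₂ x₂) (2 * (max 2 t)) (val (Sum.inr i)) := by
        refine isDep_of_determined (val := val) (R.defs.args i) hcard ?_ ?_
        · intro u' hu'
          apply hinner u'
          rintro i' rfl
          exact hargs i' hu'
        · intro x _ y _ hxy
          rw [hval, hval]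
          exact R.defs.depends i _ _ hxy
      exact h8.mono subset_rfl (by
        rcases le_total 2 t with h9 | h9
        · rw [max_eq_right h9]; omega
        · rw [max_eq_left h9]; omega)
  have hlow := g1.lower hG hM (by omega : 1 ≤ 4 * t) hs
    (H := fun t x => Sat (E (assign e x)) (R.line t))
    (α := {u // u ∈ At}) (fun u => val u.1) hloc
    (fun t => ∃ l ∈ R.line t, ∃ i ∈ I, l.1 = Sum.inr i ∧ val (Sum.inr i) x₂ = l.2)
    (fun t => {m | (m.1.1, m.2) ∈ R.line t}) ?_ ?_ ?_ (j := j) (w := w) (m₀ := m₀) hm₀ hw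
    (by omega)
  · rw [hAt] at hlow
    exact hlow
  · intro t x hx
    constructor
    · rintro ⟨⟨u, σ⟩, hl, hu⟩
      by_cases hA : u ∈ At
      · right
        exact ⟨(⟨u, hA⟩, σ), hl, hu⟩
      · left
        have hA' : u ∈ I.image (Sum.inr : Fin k → Fin N ⊕ Fin k) := by
          by_contra hcon
          exact hA (mem_sdiff.mpr ⟨mem_univ _, hcon⟩)
        obtain ⟨i, hi, rfl⟩ := mem_image.mp hA'
        refine ⟨_, hl, i, hi, rfl, ?_⟩
        rw [hIc i hi x₂ (mem_space_self _ _) x hx]
        exact hu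
    · rintro (⟨l, hl, i, hi, hli, hv⟩ | ⟨⟨⟨u, hu⟩, σ⟩, hm, hv⟩)
      · refine ⟨l, hl, ?_⟩
        rw [hli, ← hv]
        exact hIc i hi x hx x₂ (mem_space_self _ _)
      · exact ⟨(u, σ), hm, hv⟩
  · intro t
    rcases R.sound t with ⟨C, hC, hline⟩ | ⟨P, hP1, hP2, hP3⟩
    · left
      obtain ⟨i, j', y, y', hij, hGy, rfl⟩ := mem_formula.mp hC
      refine ⟨i, j', hij, ?_⟩
      intro x hx
      have hsat : Sat (assign e x) (clauseOf e i j' y y') := by
        rw [sat_clauseOf]
        rintro ⟨h7, h8⟩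
        apply hx
        have e1 : rowOf x i = toZ ∘ y := by
          funext β
          have := congrFun h7 β
          simp only [assign_apply] at this
          simp only [Function.comp, rowOf]
          rw [← this, toZ_fromZ]
        have e2 : rowOf x j' = toZ ∘ y' := by
          funext β
          have := congrFun h8 β
          simp only [assign_apply] at this
          simp only [Function.comp, rowOf]
          rw [← this, toZ_fromZ]
        rw [e1, e2, hGy]
      obtain ⟨l, hl, hl2⟩ := hsat
      refine ⟨(Sum.inl l.1, l.2), ?_, ?_⟩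
      · rw [hline, List.mem_map]
        exact ⟨l, hl, rfl⟩
      · simp only
        rw [hE2, hl2]
    · right
      exact ⟨P, hP1, hP2, fun x hx => hP3 (E (assign e x)) (hE1 _) hx⟩
  · obtain ⟨t, ht⟩ := R.last
    refine ⟨t, fun x hx => ?_⟩
    rw [ht] at hx
    obtain ⟨l, hl, _⟩ := hx
    simp at hl

end Pool.Agent.MP_e81270_lc.Aff
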