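import Pool.Agent.Lib.MP_e81270_lc_Aff.RichOne

/-!
# Jointly rich hash functions exist
-/

set_option autoImplicit false

namespace Pool.Agent.MP_e81270_lc.Aff

open Finset Matrix

namespace A2

variable {M b n q : ℕ}

/-- the number of the points with the prescribed holes in the rows `< i` and the prescribed bits -/
noncomputable def cnt (G : Fin M → (Fin b → ZMod 2) → Fin n) (i : ℕ) (R : Finset (Fin M))
    (Q : Finset (Fin M × Fin b)) (A : Matrix (Fin M × Fin b) (Fin M × Fin b) (ZMod 2))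
    (c : Vec M b) (π : Fin M → Fin n) (T : Finset (Fin M)) (y : Vec M b) : ℕ := by
  classical
  exact (univ.filter fun u : Vec M b =>
    (∀ j ∈ R, j.val < i → G j (rowOf (A *ᵥ u + c) j) = π j) ∧
      ∀ v ∈ Q, v.1 ∈ T → u v = y v).card

/-- the structures -/
def Valid (q : ℕ) (R : Finset (Fin M)) (Q : Finset (Fin M × Fin b))
    (A : Matrix (Fin M × Fin b) (Fin M × Fin b) (ZMod 2)) (c : Vec M b) : Prop :=
  (∀ i ∈ R, (Q.filter (fun v => v.1 = i)).card = q) ∧
    ∀ u : Vec M b, ∀ v ∈ Q, (A *ᵥ u + c) v = u v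

/-- the main term -/
noncomputable def main (M b n q t r : ℕ) : ℝ := (2 : ℝ) ^ (M * b) / 2 ^ (q * t) / (n : ℝ) ^ r

/-- the invariant -/
def Inv (q : ℕ) (G : Fin M → (Fin b → ZMod 2) → Fin n) (i : ℕ) : Prop :=
  ∀ (R : Finset (Fin M)) (Q : Finset (Fin M × Fin b))
    (A : Matrix (Fin M × Fin b) (Fin M × Fin b) (ZMod 2)) (c : Vec M b), Valid q R Q A c →
    ∀ (π : Fin M → Fin n) (T : Finset (Fin M)), T ⊆ R → (∀ j ∈ T, i ≤ j.val) → ∀ y : Vec M b,
      main M b n q T.card (R.filter (fun j => j.val < i)).card *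
          (1 - 1 / (n : ℝ)) ^ (R.filter (fun j => j.val < i)).card ≤ cnt G i R Q A c π T y ∧
      (cnt G i R Q A c π T y : ℝ) ≤
        main M b n q T.card (R.filter (fun j => j.val < i)).card *
          (1 + 1 / (n : ℝ)) ^ (R.filter (fun j => j.val < i)).card

theorem card_QT {R T : Finset (Fin M)} {Q : Finset (Fin M × Fin b)}
    (h : ∀ i ∈ R, (Q.filter (fun v => v.1 = i)).card = q) (hT : T ⊆ R) :
    (Q.filter (fun v => v.1 ∈ T)).card = q * T.card := by
  classical
  rw [Finset.card_eq_sum_card_fiberwise (s := Q.filter (fun v => v.1 ∈ T))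
    (f := fun v : Fin M × Fin b => v.1) (t := T)
    (fun v hv => (mem_filter.mp (mem_coe.mp hv)).2)]
  have h1 : ∀ i ∈ T, ((Q.filter (fun v => v.1 ∈ T)).filter (fun v => v.1 = i)).card = q := by
    intro i hi
    rw [← h i (hT hi)]
    congr 1
    ext v
    simp only [mem_filter]
    constructor
    · rintro ⟨⟨h1, -⟩, h3⟩
      exact ⟨h1, h3⟩
    · rintro ⟨h1, h3⟩
      exact ⟨⟨h1, h3 ▸ hi⟩, h3⟩
  rw [sum_congr rfl h1, sum_const, smul_eq_mul, mul_comm]

theorem base (G : Fin M → (Fin b → ZMod 2) → Fin n) : Inv q G 0 := by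
  classical
  intro R Q A c hV π T hT _ y
  have hQT := card_QT hV.1 hT
  have h0 : (R.filter (fun j => j.val < 0)).card = 0 := by
    rw [card_eq_zero]
    apply filter_eq_empty_iff.mpr
    intro j _ hj
    exact absurd hj (Nat.not_lt_zero _)
  have hcnt : cnt G 0 R Q A c π T y * 2 ^ (q * T.card) = 2 ^ (M * b) := by
    unfold cnt
    have h1 : (univ.filter fun u : Vec M b =>
        (∀ j ∈ R, j.val < 0 → G j (rowOf (A *ᵥ u + c) j) = π j) ∧
          ∀ v ∈ Q, v.1 ∈ T → u v = y v) =
        Fintype.piFinset (fun v : Fin M × Fin b =>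
          if v ∈ Q.filter (fun v => v.1 ∈ T) then ({y v} : Finset (ZMod 2)) else univ) := by
      ext u
      simp only [mem_filter, mem_univ, true_and, Fintype.mem_piFinset]
      constructor
      · rintro ⟨-, h2⟩ v
        by_cases hv : v ∈ Q ∧ v.1 ∈ T
        · rw [if_pos hv, mem_singleton]
          exact h2 v hv.1 hv.2
        · rw [if_neg hv]
          exact mem_univ _
      · intro h2
        refine ⟨fun j _ hj => absurd hj (Nat.not_lt_zero _), fun v hv hvT => ?_⟩
        have h3 := h2 v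
        rw [if_pos ⟨hv, hvT⟩, mem_singleton] at h3
        exact h3
    rw [h1, Fintype.card_piFinset, ← hQT]
    have h2 : (2 : ℕ) ^ (Q.filter (fun v => v.1 ∈ T)).card =
        ∏ v : Fin M × Fin b, (if v ∈ Q.filter (fun v => v.1 ∈ T) then 2 else 1) := by
      rw [prod_ite_mem, univ_inter, prod_const]
    rw [h2, ← prod_mul_distrib]
    have h3 : ∀ v : Fin M × Fin b,
        (if v ∈ Q.filter (fun v => v.1 ∈ T) then ({y v} : Finset (ZMod 2)) else univ).card *
          (if v ∈ Q.filter (fun v => v.1 ∈ T) then 2 else 1) = 2 := by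
      intro v
      split_ifs
      · rw [card_singleton, one_mul]
      · rw [card_univ, ZMod.card, mul_one]
    rw [prod_congr rfl fun v _ => h3 v, prod_const, card_univ, Fintype.card_prod,
      Fintype.card_fin, Fintype.card_fin]
  have hreal : (cnt G 0 R Q A c π T y : ℝ) = main M b n q T.card 0 := by
    unfold main
    rw [pow_zero, div_one, eq_div_iff (by positivity)]
    exact_mod_cast hcnt
  rw [h0, pow_zero, pow_zero, mul_one, hreal]
  exact ⟨le_refl _, le_refl _⟩

theorem quarter (hn : 2 ≤ n) {r : ℕ} (hr : r ≤ n) :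
    (1 + 1 / (n : ℝ)) ^ r ≤ 11 * (1 - 1 / (n : ℝ)) ^ r := by
  have hn0 : (0 : ℝ) < n := by
    have : 0 < n := by omega
    exact_mod_cast this
  have hn2 : (2 : ℝ) ≤ n := by exact_mod_cast hn
  have hinv : 1 / (n : ℝ) ≤ 1 / 2 := one_div_le_one_div_of_le (by norm_num) hn2
  have hinv0 : 0 < 1 / (n : ℝ) := by positivity
  have h1 : (1 + 1 / (n : ℝ)) ^ r ≤ 2.72 := by
    calc (1 + 1 / (n : ℝ)) ^ r ≤ (1 + 1 / (n : ℝ)) ^ n :=
          pow_le_pow_right₀ (by linarith) hr
      _ ≤ (Real.exp (1 / (n : ℝ))) ^ n := by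
          apply pow_le_pow_left₀ (by linarith)
          linarith [Real.add_one_le_exp (1 / (n : ℝ))]
      _ = Real.exp 1 := by
          rw [← Real.exp_nat_mul]
          congr 1
          field_simp
      _ ≤ 2.72 := by
          have := Real.exp_one_lt_d9
          linarith
  have h2 : (1 / 4 : ℝ) ≤ (1 - 1 / (n : ℝ)) ^ r := by
    have h3 : (1 - 1 / (n : ℝ)) ^ n ≤ (1 - 1 / (n : ℝ)) ^ r :=
      pow_le_pow_of_le_one (by linarith) (by linarith) hr
    refine le_trans ?_ h3
    have h4 := one_add_mul_self_le_rpow_one_add (s := -(1 / (n : ℝ))) (by linarith)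
      (p := (n : ℝ) / 2) (by linarith)
    have h5 : 1 + (n : ℝ) / 2 * -(1 / (n : ℝ)) = 1 / 2 := by
      field_simp
      ring
    rw [h5] at h4
    have h6 : (1 + -(1 / (n : ℝ))) = 1 - 1 / (n : ℝ) := by ring
    rw [h6] at h4
    have h7 : (1 - 1 / (n : ℝ)) ^ n = ((1 - 1 / (n : ℝ)) ^ ((n : ℝ) / 2)) ^ 2 := by
      rw [← Real.rpow_natCast, ← Real.rpow_natCast, ← Real.rpow_mul (by linarith)]
      congr 1
      push_cast
      ring
    rw [h7]
    nlinarith
  linarith

/-- the type of the structures -/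
abbrev Idx (M b n : ℕ) : Type :=
  Finset (Fin M) × Finset (Fin M × Fin b) × Matrix (Fin M × Fin b) (Fin M × Fin b) (ZMod 2) ×
    Vec M b × (Fin M → Fin n) × Finset (Fin M) × Vec M b

theorem card_idx : Fintype.card (Idx M b n) =
    2 ^ M * (2 ^ (M * b) * (2 ^ ((M * b) * (M * b)) * (2 ^ (M * b) *
      (n ^ M * (2 ^ M * 2 ^ (M * b)))))) := by
  have h1 : Fintype.card (Matrix (Fin M × Fin b) (Fin M × Fin b) (ZMod 2)) =
      2 ^ ((M * b) * (M * b)) := by
    rw [← Fintype.card_congr (Matrix.of : (Fin M × Fin b → Fin M × Fin b → ZMod 2) ≃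
        Matrix (Fin M × Fin b) (Fin M × Fin b) (ZMod 2)),
      Fintype.card_fun, Fintype.card_fun, ZMod.card, Fintype.card_prod, Fintype.card_fin,
      Fintype.card_fin, ← pow_mul]
  have h2 : Fintype.card (Vec M b) = 2 ^ (M * b) := by
    rw [Fintype.card_fun, ZMod.card, Fintype.card_prod, Fintype.card_fin, Fintype.card_fin]
  rw [Fintype.card_prod, Fintype.card_prod, Fintype.card_prod, Fintype.card_prod,
    Fintype.card_prod, Fintype.card_prod, h1, h2, Fintype.card_finset, Fintype.card_finset,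
    Fintype.card_fun, Fintype.card_fin, Fintype.card_fin, Fintype.card_prod, Fintype.card_fin,
    Fintype.card_fin]

theorem count {N : ℕ} (hN : 64 ≤ N) (hn : 2 ≤ n) (hM : M = n + 1)
    (hMb : M * b ≤ N) (hb : 1 ≤ b) (hq : N ^ 8 ≤ 2 ^ q) :
    2 * (Fintype.card (Idx M b n) : ℝ) * n *
      Real.exp (-(1 / (4 * (11 / 2 ^ q) * (n : ℝ) ^ 4))) < 1 := by
  have hMN : M ≤ N := le_trans (Nat.le_mul_of_pos_right M hb) hMb
  have hnN : n ≤ N := by omega
  have h1 : 2 * Fintype.card (Idx M b n) * n ≤ 2 ^ (3 * N ^ 2) := by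
    rw [card_idx]
    have h2 : n ^ M ≤ 2 ^ (n * M) := by
      rw [pow_mul]
      exact Nat.pow_le_pow_left (Nat.lt_two_pow_self).le M
    have h3 : n ≤ 2 ^ n := (Nat.lt_two_pow_self).le
    calc 2 * (2 ^ M * (2 ^ (M * b) * (2 ^ ((M * b) * (M * b)) * (2 ^ (M * b) *
          (n ^ M * (2 ^ M * 2 ^ (M * b))))))) * n
        ≤ 2 * (2 ^ M * (2 ^ (M * b) * (2 ^ ((M * b) * (M * b)) * (2 ^ (M * b) *
          (2 ^ (n * M) * (2 ^ M * 2 ^ (M * b))))))) * 2 ^ n := by gcongr
      _ = 2 ^ (1 + M + M * b + (M * b) * (M * b) + M * b + n * M + M + M * b + n) := by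
          rw [pow_add, pow_add, pow_add, pow_add, pow_add, pow_add, pow_add, pow_add, pow_one]
          ring
      _ ≤ 2 ^ (3 * N ^ 2) := by
          apply Nat.pow_le_pow_right (by norm_num)
          have h4 : (M * b) * (M * b) ≤ N * N := Nat.mul_le_mul hMb hMb
          have h5 : n * M ≤ N * N := Nat.mul_le_mul hnN hMN
          have h6 : 64 * N ≤ N * N := Nat.mul_le_mul_right N hN
          nlinarith
  have h2 : (2 * (Fintype.card (Idx M b n) : ℝ) * n) ≤ Real.exp (3 * (N : ℝ) ^ 2) := by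
    have h3 : (2 * (Fintype.card (Idx M b n) : ℝ) * n) ≤ 2 ^ (3 * N ^ 2) := by exact_mod_cast h1
    have h4 : (2 : ℝ) ≤ Real.exp 1 := by
      have := Real.add_one_le_exp (1 : ℝ)
      linarith
    have h5 : (2 : ℝ) ^ (3 * N ^ 2) ≤ (Real.exp 1) ^ (3 * N ^ 2) :=
      pow_le_pow_left₀ (by norm_num) h4 _
    have h6 : (Real.exp 1) ^ (3 * N ^ 2) = Real.exp (3 * (N : ℝ) ^ 2) := by
      rw [← Real.exp_nat_mul]
      congr 1
      push_cast
      ring
    linarith
  have hn0 : (0 : ℝ) < n := by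
    have : 0 < n := by omega
    exact_mod_cast this
  have hN0 : (0 : ℝ) < N := by
    have : 0 < N := by omega
    exact_mod_cast this
  have hN64 : (64 : ℝ) ≤ N := by exact_mod_cast hN
  have hnN' : (n : ℝ) ≤ N := by exact_mod_cast hnN
  have hq' : (N : ℝ) ^ 8 ≤ 2 ^ q := by exact_mod_cast hq
  have h3 : 3 * (N : ℝ) ^ 2 < 1 / (4 * (11 / 2 ^ q) * (n : ℝ) ^ 4) := by
    have e : 1 / (4 * (11 / 2 ^ q) * (n : ℝ) ^ 4) = 2 ^ q / (44 * (n : ℝ) ^ 4) := by
      field_simp
      norm_num
    rw [e, lt_div_iff₀ (by positivity)]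
    have h4 : (n : ℝ) ^ 4 ≤ (N : ℝ) ^ 4 := pow_le_pow_left₀ hn0.le hnN' 4
    have h5 : 3 * (N : ℝ) ^ 2 * (44 * (n : ℝ) ^ 4) ≤ 3 * (N : ℝ) ^ 2 * (44 * (N : ℝ) ^ 4) := by
      gcongr
    have h6 : 3 * (N : ℝ) ^ 2 * (44 * (N : ℝ) ^ 4) = 132 * (N : ℝ) ^ 6 := by ring
    have h7 : (132 : ℝ) < (N : ℝ) ^ 2 := by nlinarith
    have h8 : (132 : ℝ) * (N : ℝ) ^ 6 < (N : ℝ) ^ 2 * (N : ℝ) ^ 6 :=
      mul_lt_mul_of_pos_right h7 (by positivity)
    have h9 : (N : ℝ) ^ 2 * (N : ℝ) ^ 6 = (N : ℝ) ^ 8 := by ring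
    linarith
  have h4 : Real.exp (3 * (N : ℝ) ^ 2) * Real.exp (-(1 / (4 * (11 / 2 ^ q) * (n : ℝ) ^ 4))) < 1 := by
    rw [← Real.exp_add, Real.exp_lt_one_iff]
    linarith
  refine lt_of_le_of_lt ?_ h4
  exact mul_le_mul_of_nonneg_right h2 (Real.exp_pos _).le

/-- the weights of a structure -/
noncomputable def wt (q : ℕ) (G : Fin M → (Fin b → ZMod 2) → Fin n) (ii : Fin M)
    (k : Idx M b n) (z : Fin b → ZMod 2) : ℝ := by
  classical
  exact if Valid q k.1 k.2.1 k.2.2.1 k.2.2.2.1 ∧ ii ∈ k.1 ∧ k.2.2.2.2.2.1 ⊆ k.1 ∧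
      ∀ j ∈ k.2.2.2.2.2.1, ii.val < j.val then
    (((univ.filter fun u : Vec M b =>
      (∀ j ∈ k.1, j.val < ii.val → G j (rowOf (k.2.2.1 *ᵥ u + k.2.2.2.1) j) =
        k.2.2.2.2.1 j) ∧
      ∀ v ∈ k.2.1, v.1 ∈ k.2.2.2.2.2.1 → u v = k.2.2.2.2.2.2 v).filter
        fun u => rowOf (k.2.2.1 *ᵥ u + k.2.2.2.1) ii = z).card : ℝ)
  else 0

theorem step (hn : 2 ≤ n) (hM : M = n + 1)
    (hcard : 2 * (Fintype.card (Idx M b n) : ℝ) * n *
      Real.exp (-(1 / (4 * (11 / 2 ^ q) * (n : ℝ) ^ 4))) < 1)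
    {i : ℕ} (hi : i < M) {G : Fin M → (Fin b → ZMod 2) → Fin n} (hG : Inv q G i) :
    ∃ G' : Fin M → (Fin b → ZMod 2) → Fin n, Inv q G' (i + 1) := by
  classical
  have hn0 : (0 : ℝ) < n := by
    have : 0 < n := by omega
    exact_mod_cast this
  have hn2 : (2 : ℝ) ≤ n := by exact_mod_cast hn
  have hinv : 1 / (n : ℝ) ≤ 1 / 2 := one_div_le_one_div_of_le (by norm_num) hn2
  have hinv0 : 0 < 1 / (n : ℝ) := by positivity
  set ii : Fin M := ⟨i, hi⟩ with hii
  have htot : ∀ k : Idx M b n, (Valid q k.1 k.2.1 k.2.2.1 k.2.2.2.1 ∧ ii ∈ k.1 ∧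
      k.2.2.2.2.2.1 ⊆ k.1 ∧ ∀ j ∈ k.2.2.2.2.2.1, ii.val < j.val) →
      ∑ z, wt q G ii k z = cnt G i k.1 k.2.1 k.2.2.1 k.2.2.2.1 k.2.2.2.2.1 k.2.2.2.2.2.1
        k.2.2.2.2.2.2 := by
    intro k hk
    unfold wt cnt
    simp only [if_pos hk]
    rw [← Nat.cast_sum]
    congr 1
    exact (Finset.card_eq_sum_card_fiberwise
      (f := fun u => rowOf (k.2.2.1 *ᵥ u + k.2.2.2.1) ii) (t := univ)
      (fun u _ => mem_coe.mpr (mem_univ _))).symm
  have hmain0 : ∀ t r : ℕ, 0 < main M b n q t r := by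
    intro t r
    unfold main
    positivity
  have hmax : ∀ k z, wt q G ii k z ≤ (11 / 2 ^ q) * ∑ y, wt q G ii k y := by
    intro k z
    by_cases hk : Valid q k.1 k.2.1 k.2.2.1 k.2.2.2.1 ∧ ii ∈ k.1 ∧
      k.2.2.2.2.2.1 ⊆ k.1 ∧ ∀ j ∈ k.2.2.2.2.2.1, ii.val < j.val
    · rw [htot k hk]
      obtain ⟨R, Q, A, c, π, T, y⟩ := k
      obtain ⟨hV, hiR, hTR, hTi⟩ := hk
      simp only at hV hiR hTR hTi ⊢
      have hiT : ii ∉ T := fun h => absurd (hTi ii h) (lt_irrefl _)
      set y' : Vec M b := fun v => if v.1 = ii then z v.2 else y v with hy'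
      have h1 : wt q G ii (R, Q, A, c, π, T, y) z ≤ cnt G i R Q A c π (insert ii T) y' := by
        unfold wt cnt
        simp only
        rw [if_pos ⟨hV, hiR, hTR, hTi⟩]
        apply Nat.cast_le.mpr
        apply card_le_card
        intro u hu
        rw [mem_filter, mem_filter] at hu
        obtain ⟨⟨-, h2, h3⟩, h4⟩ := hu
        rw [mem_filter]
        refine ⟨mem_univ _, h2, ?_⟩
        intro v hv hvT
        simp only [hy']
        by_cases hvi : v.1 = ii
        · rw [if_pos hvi]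
          have h5 := hV.2 u v hv
          rw [← h5, ← h4]
          unfold rowOf
          rw [← hvi]
        · rw [if_neg hvi]
          exact h3 v hv (mem_of_mem_insert_of_ne hvT hvi)
      have h2 := (hG R Q A c hV π (insert ii T) (insert_subset hiR hTR) (by
        intro j hj
        rcases mem_insert.mp hj with rfl | hj
        · exact le_refl _
        · exact (hTi j hj).le) y').2
      have h3 := (hG R Q A c hV π T hTR (fun j hj => (hTi j hj).le) y).1
      rw [card_insert_of_notMem hiT] at h2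
      set r : ℕ := (R.filter (fun j => j.val < i)).card with hr
      have hrn : r ≤ n := by
        have h4 : R.filter (fun j => j.val < i) ⊆ (univ : Finset (Fin M)).erase ii := by
          intro j hj
          rw [mem_erase]
          refine ⟨?_, mem_univ _⟩
          rintro rfl
          exact absurd (mem_filter.mp hj).2 (lt_irrefl _)
        have h5 := card_le_card h4
        rw [card_erase_of_mem (mem_univ _), card_univ, Fintype.card_fin] at h5
        omega
      have h4 := quarter hn hrn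
      have h5 : main M b n q (T.card + 1) r = main M b n q T.card r / 2 ^ q := by
        unfold main
        rw [mul_add, mul_one, pow_add]
        field_simp
      rw [h5] at h2
      have h6 := hmain0 T.card r
      calc wt q G ii (R, Q, A, c, π, T, y) z ≤ _ := h1
        _ ≤ main M b n q T.card r / 2 ^ q * (1 + 1 / (n : ℝ)) ^ r := h2
        _ ≤ main M b n q T.card r / 2 ^ q * (11 * (1 - 1 / (n : ℝ)) ^ r) :=
            mul_le_mul_of_nonneg_left h4 (by positivity)
        _ = (11 / 2 ^ q) * (main M b n q T.card r * (1 - 1 / (n : ℝ)) ^ r) := by ring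
        _ ≤ (11 / 2 ^ q) * _ := mul_le_mul_of_nonneg_left h3 (by positivity)
    · have h1 : ∀ z, wt q G ii k z = 0 := fun z => by
        unfold wt
        rw [if_neg hk]
      simp [h1]
  obtain ⟨g, hg⟩ := exists_balanced (Z := Fin b → ZMod 2) (ι := Idx M b n)
    (show 1 ≤ n by omega) (wt q G ii) (fun k z => by
      unfold wt
      split_ifs
      · positivity
      · exact le_refl _) (μ := 11 / 2 ^ q) (by positivity) hmax hcard
  refine ⟨Function.update G ii g, ?_⟩
  intro R Q A c hV π T hTR hTi y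
  have hTi' : ∀ j ∈ T, i ≤ j.val := fun j hj => (Nat.le_succ i).trans (hTi j hj)
  have hold := hG R Q A c hV π T hTR hTi' y
  have hupd : ∀ j : Fin M, j ≠ ii → Function.update G ii g j = G j := fun j hj => by
    rw [Function.update_of_ne hj]
  by_cases hiR : ii ∈ R
  · have hk : Valid q R Q A c ∧ ii ∈ R ∧ T ⊆ R ∧ ∀ j ∈ T, ii.val < j.val :=
      ⟨hV, hiR, hTR, fun j hj => hTi j hj⟩
    have h1 := htot (R, Q, A, c, π, T, y) hk
    have h2 := hg (R, Q, A, c, π, T, y) (π ii)
    rw [h1] at h2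
    simp only at h2
    have h3 : ∑ z ∈ univ.filter (fun z => g z = π ii), wt q G ii (R, Q, A, c, π, T, y) z =
        cnt (Function.update G ii g) (i + 1) R Q A c π T y := by
      unfold wt cnt
      simp only [if_pos hk]
      rw [← Nat.cast_sum]
      congr 1
      have h4 : (univ.filter fun u : Vec M b =>
          (∀ j ∈ R, j.val < i + 1 →
            Function.update G ii g j (rowOf (A *ᵥ u + c) j) = π j) ∧
            ∀ v ∈ Q, v.1 ∈ T → u v = y v) =
          (univ.filter fun u : Vec M b =>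
            (∀ j ∈ R, j.val < ii.val → G j (rowOf (A *ᵥ u + c) j) = π j) ∧
            ∀ v ∈ Q, v.1 ∈ T → u v = y v).filter
              fun u => g (rowOf (A *ᵥ u + c) ii) = π ii := by
        ext u
        simp only [mem_filter, mem_univ, true_and]
        constructor
        · rintro ⟨h5, h6⟩
          refine ⟨⟨fun j hj hji => ?_, h6⟩, ?_⟩
          · have hne : j ≠ ii := by
              rintro rfl
              exact absurd hji (lt_irrefl _)
            have h7 := h5 j hj (Nat.lt_succ_of_lt hji)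
            rwa [hupd j hne] at h7
          · have h7 := h5 ii hiR (Nat.lt_succ_self i)
            rwa [Function.update_self] at h7
        · rintro ⟨⟨h5, h6⟩, h7⟩
          refine ⟨fun j hj hji => ?_, h6⟩
          by_cases hne : j = ii
          · rw [hne, Function.update_self]
            exact h7
          · rw [hupd j hne]
            refine h5 j hj ?_
            have h8 : j.val ≠ i := fun h8 => hne (Fin.ext h8)
            have h9 : j.val < i + 1 := hji
            show j.val < i
            omega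
      rw [h4]
      rw [Finset.card_eq_sum_card_fiberwise
        (f := fun u => rowOf (A *ᵥ u + c) ii) (t := univ.filter (fun z => g z = π ii))
        (fun u hu => by
          have := (mem_filter.mp hu).2
          exact mem_coe.mpr (mem_filter.mpr ⟨mem_univ _, this⟩))]
      refine sum_congr rfl fun z hz => ?_
      congr 1
      ext u
      simp only [mem_filter, mem_univ, true_and] at hz ⊢
      constructor
      · rintro ⟨h5, h6⟩
        exact ⟨⟨h5, by rw [h6]; exact hz⟩, h6⟩
      · rintro ⟨⟨h5, -⟩, h6⟩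
        exact ⟨h5, h6⟩
    rw [h3] at h2
    have hr : (R.filter (fun j => j.val < i + 1)).card =
        (R.filter (fun j => j.val < i)).card + 1 := by
      have h4 : R.filter (fun j => j.val < i + 1) = insert ii (R.filter (fun j => j.val < i)) := by
        ext j
        simp only [mem_filter, mem_insert]
        constructor
        · rintro ⟨h5, h6⟩
          by_cases hne : j = ii
          · exact Or.inl hne
          · right
            refine ⟨h5, ?_⟩
            have h8 : j.val ≠ i := fun h8 => hne (Fin.ext h8)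
            omega
        · rintro (rfl | ⟨h5, h6⟩)
          · exact ⟨hiR, Nat.lt_succ_self i⟩
          · exact ⟨h5, by omega⟩
      rw [h4, card_insert_of_notMem]
      intro h
      exact absurd (mem_filter.mp h).2 (lt_irrefl _)
    rw [hr]
    set r : ℕ := (R.filter (fun j => j.val < i)).card with hrd
    set C : ℝ := (cnt G i R Q A c π T y : ℝ) with hC
    obtain ⟨h5, h6⟩ := abs_le.mp h2
    have h7 : main M b n q T.card (r + 1) = main M b n q T.card r / n := by
      unfold main
      rw [pow_succ]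
      field_simp
    have e1 : C / (n : ℝ) ^ 2 = C / n * (1 / n) := by
      field_simp
    rw [e1] at h5 h6
    rw [h7, pow_succ, pow_succ]
    constructor
    · calc main M b n q T.card r / n * ((1 - 1 / (n : ℝ)) ^ r * (1 - 1 / (n : ℝ)))
          = (main M b n q T.card r * (1 - 1 / (n : ℝ)) ^ r) * ((1 - 1 / (n : ℝ)) / n) := by ring
        _ ≤ C * ((1 - 1 / (n : ℝ)) / n) := by
            apply mul_le_mul_of_nonneg_right hold.1
            apply div_nonneg (by linarith) hn0.le
        _ = C / n - C / n * (1 / n) := by ring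
        _ ≤ _ := by linarith
    · calc (cnt (Function.update G ii g) (i + 1) R Q A c π T y : ℝ)
          ≤ C / n + C / n * (1 / n) := by linarith
        _ = C * ((1 + 1 / (n : ℝ)) / n) := by ring
        _ ≤ (main M b n q T.card r * (1 + 1 / (n : ℝ)) ^ r) * ((1 + 1 / (n : ℝ)) / n) := by
            apply mul_le_mul_of_nonneg_right hold.2
            positivity
        _ = _ := by ring
  · have h1 : cnt (Function.update G ii g) (i + 1) R Q A c π T y = cnt G i R Q A c π T y := by
      unfold cnt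
      congr 1
      ext u
      simp only [mem_filter, mem_univ, true_and]
      have h2 : (∀ j ∈ R, j.val < i + 1 →
            Function.update G ii g j (rowOf (A *ᵥ u + c) j) = π j) ↔
          ∀ j ∈ R, j.val < i → G j (rowOf (A *ᵥ u + c) j) = π j := by
        constructor
        · intro h j hj hji
          have hne : j ≠ ii := fun h8 => hiR (h8 ▸ hj)
          have h7 := h j hj (Nat.lt_succ_of_lt hji)
          rwa [hupd j hne] at h7
        · intro h j hj hji
          have hne : j ≠ ii := fun h8 => hiR (h8 ▸ hj)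
          rw [hupd j hne]
          refine h j hj ?_
          have h8 : j.val ≠ i := fun h8 => hne (Fin.ext h8)
          omega
      rw [h2]
    have h2 : R.filter (fun j => j.val < i + 1) = R.filter (fun j => j.val < i) := by
      ext j
      simp only [mem_filter]
      constructor
      · rintro ⟨h5, h6⟩
        refine ⟨h5, ?_⟩
        have hne : j ≠ ii := fun h8 => hiR (h8 ▸ h5)
        have h8 : j.val ≠ i := fun h8 => hne (Fin.ext h8)
        omega
      · rintro ⟨h5, h6⟩
        exact ⟨h5, by omega⟩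
    rw [h1, h2]
    exact hold

end A2

theorem exists_jointlyRich {N M b n q : ℕ} (hN : 64 ≤ N) (hn : 2 ≤ n) (hM : M = n + 1)
    (hMb : M * b ≤ N) (hb : 1 ≤ b) (hq : N ^ 8 ≤ 2 ^ q) :
    ∃ G : Fin M → (Fin b → ZMod 2) → Fin n, JointlyRich q G := by
  classical
  have hcard := A2.count hN hn hM hMb hb hq
  have hall : ∀ i ≤ M, ∃ G : Fin M → (Fin b → ZMod 2) → Fin n, A2.Inv q G i := by
    intro i
    induction i with
    | zero => exact fun _ => ⟨fun _ _ => ⟨0, by omega⟩, A2.base _⟩
    | succ i ih =>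
      intro hi
      obtain ⟨G, hG⟩ := ih (by omega)
      exact A2.step hn hM hcard (by omega) hG
  obtain ⟨G, hG⟩ := hall M le_rfl
  refine ⟨G, ?_⟩
  intro R Q hQ A c hA π
  have h1 := (hG R Q A c ⟨hQ, hA⟩ π ∅ (empty_subset _) (by simp) 0).1
  have hn2 : (2 : ℝ) ≤ n := by exact_mod_cast hn
  have hinv : 1 / (n : ℝ) ≤ 1 / 2 := one_div_le_one_div_of_le (by norm_num) hn2
  have h2 : 0 < A2.cnt G M R Q A c π ∅ 0 := by
    have h3 : (0 : ℝ) < A2.main M b n q (∅ : Finset (Fin M)).card
        (R.filter (fun j => j.val < M)).card *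
          (1 - 1 / (n : ℝ)) ^ (R.filter (fun j => j.val < M)).card := by
      apply mul_pos
      · unfold A2.main
        have : (0 : ℝ) < n := by linarith
        positivity
      · apply pow_pos
        linarith
    have h4 := lt_of_lt_of_le h3 h1
    exact_mod_cast h4
  unfold A2.cnt at h2
  obtain ⟨u, hu⟩ := card_pos.mp h2
  exact ⟨u, fun j hj => (mem_filter.mp hu).2.1 j hj j.isLt⟩

end Pool.Agent.MP_e81270_lc.Aff
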