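import Pool.Agent.Lib.MP_e81270_lc_Aff.Formula
import Pool.Agent.Lib.MP_e81270_lc_Aff.Rich

/-!
# The main theorem
-/

set_option autoImplicit false

namespace Pool.Agent.MP_e81270_lc.Aff

open Finset

private theorem two_pow_clog {N : ℕ} (hN : 2 ≤ N) :
    N ≤ 2 ^ Nat.clog 2 N ∧ 2 ^ Nat.clog 2 N ≤ 2 * N := by
  refine ⟨Nat.le_pow_clog (by norm_num) N, ?_⟩
  have h1 : 0 < Nat.clog 2 N := Nat.clog_pos (by norm_num) hN
  have h2 : 2 ^ (Nat.clog 2 N).pred < N := Nat.pow_pred_clog_lt_self (by norm_num) hN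
  have h3 : 2 ^ Nat.clog 2 N = 2 * 2 ^ (Nat.clog 2 N).pred := by
    rw [← pow_succ']
    congr 1
    exact (Nat.succ_pred_eq_of_pos h1).symm
  omega

private theorem clog_bounds' {N : ℕ} (hN : 3 ≤ N) :
    Real.log N ≤ 0.7 * (Nat.clog 2 N : ℝ) ∧ (Nat.clog 2 N : ℝ) ≤ 3 * Real.log N ∧
      1 ≤ Real.log N := by
  obtain ⟨h1, h2⟩ := two_pow_clog (by omega : 2 ≤ N)
  have hN0 : (0 : ℝ) < N := by exact_mod_cast (by omega : 0 < N)
  have h4 : (0.6931471803 : ℝ) < Real.log 2 := Real.log_two_gt_d9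
  have h6 : Real.log 2 < 0.6931471808 := Real.log_two_lt_d9
  have h7 : (0 : ℝ) ≤ (Nat.clog 2 N : ℝ) := by positivity
  have h8 : 1 ≤ Real.log N := by
    rw [Real.le_log_iff_exp_le hN0]
    have e1 := Real.exp_one_lt_d9
    have e2 : (3 : ℝ) ≤ N := by exact_mod_cast hN
    linarith
  have h9 : Real.log N ≤ (Nat.clog 2 N : ℝ) * Real.log 2 := by
    rw [← Real.log_pow]
    apply Real.log_le_log hN0
    exact_mod_cast h1
  have h10 : (Nat.clog 2 N : ℝ) * Real.log 2 ≤ Real.log 2 + Real.log N := by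
    rw [← Real.log_pow, ← Real.log_mul (by norm_num) hN0.ne']
    apply Real.log_le_log (by positivity)
    exact_mod_cast h2
  refine ⟨by nlinarith, by nlinarith, h8⟩

theorem main (δ C : ℝ) (hδ : 0 < δ) : ∃ c : ℝ, 0 < c ∧ ∃ K N₀ : ℕ, ∀ N ≥ N₀,
    ∃ F : CNF (Fin N), Unsat F ∧ F.length ≤ N ^ K ∧
      (∀ D ∈ F, (D.length : ℝ) ≤ K * Real.log N) ∧
      ∀ (k L t : ℕ) (R : Refutation F k L) (J : Finset (Fin N)) (I B X : Finset (Fin k)),
        1 ≤ t → (t : ℝ) ≤ C * Real.log N → R.defs.Split J I B t →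
        (∀ i ∈ B, i ∉ X → R.defs.IsXor i) →
        ((3 * J.card + B.card : ℕ) : ℝ) ≤ (3 - δ) * N ∨
          ((J.card + X.card : ℕ) : ℝ) ≤ (1 - δ) * N →
        Real.exp (c * N ^ 2 / (t ^ 2 * (N + (univ \ I).card : ℝ))) ≤ L := by
  obtain ⟨δ', hδ', hδ1, hδδ⟩ : ∃ δ' : ℝ, 0 < δ' ∧ δ' ≤ 1 ∧ δ' ≤ δ :=
    ⟨min δ 1, lt_min hδ one_pos, min_le_right _ _, min_le_left _ _⟩
  obtain ⟨D, hD1, hD2⟩ : ∃ D : ℕ, 64 ≤ D ∧ 64 ≤ δ' * D := by
    refine ⟨⌈64 / δ'⌉₊ + 64, by omega, ?_⟩
    have h1 : 64 / δ' ≤ ⌈64 / δ'⌉₊ := Nat.le_ceil _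
    rw [div_le_iff₀ hδ'] at h1
    push_cast
    linarith
  obtain ⟨E, hE1, hE2⟩ : ∃ E : ℕ, 8 ≤ E ∧ 3 * C ≤ E := by
    refine ⟨⌈3 * C⌉₊ + 8, by omega, ?_⟩
    have h1 : 3 * C ≤ ⌈3 * C⌉₊ := Nat.le_ceil _
    push_cast
    linarith
  have hD0 : (0 : ℝ) < D := by exact_mod_cast (by omega : 0 < D)
  have hE0 : (0 : ℝ) < E := by exact_mod_cast (by omega : 0 < E)
  have ev2 : ∀ᶠ n : ℕ in Filter.atTop, Real.log n ≤ 1 / (300 * D ^ 3 * E) * n := by
    have h1 := Real.isLittleO_log_id_atTop.bound (c := 1 / (300 * (D : ℝ) ^ 3 * E))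
      (by positivity)
    have h2 := tendsto_natCast_atTop_atTop (R := ℝ) |>.eventually h1
    filter_upwards [h2] with n hn
    simp only [id, Real.norm_eq_abs] at hn
    have h3 : |(n : ℝ)| = n := abs_of_nonneg (by positivity)
    rw [h3] at hn
    exact (le_abs_self _).trans hn
  obtain ⟨N₀, hN₀⟩ := Filter.eventually_atTop.mp (ev2.and
    (Filter.eventually_ge_atTop 64))
  refine ⟨1 / (768 * D ^ 3), by positivity, 6 * D * E + 2, N₀, ?_⟩
  intro N hN
  obtain ⟨h2, h3⟩ := hN₀ N hN
  have hN0 : (0 : ℝ) < N := by exact_mod_cast (by omega : 0 < N)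
  obtain ⟨hl1, hl2, hl3⟩ := clog_bounds' (by omega : 3 ≤ N)
  obtain ⟨hp1, hp2⟩ := two_pow_clog (by omega : 2 ≤ N)
  set ℓ := Nat.clog 2 N with hℓ
  have hℓ1 : 1 ≤ ℓ := by
    by_contra h
    have : ℓ = 0 := by omega
    rw [this] at hl1
    norm_num at hl1
    linarith
  set q := 8 * ℓ with hq
  set s := E * ℓ with hs
  set b := D * s with hb
  have hs1 : 1 ≤ s := Nat.mul_pos (by omega) hℓ1
  have hb1 : 1 ≤ b := Nat.mul_pos (by omega) hs1
  have hbN : b * (100 * D ^ 2) ≤ N := by
    have e1 : ((b * (100 * D ^ 2) : ℕ) : ℝ) ≤ N := by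
      have e2 : ((b : ℕ) : ℝ) = D * (E * ℓ) := by rw [hb, hs]; push_cast; ring
      push_cast
      rw [e2]
      calc (D : ℝ) * (E * ℓ) * (100 * D ^ 2) = (100 * D ^ 3 * E) * ℓ := by ring
        _ ≤ (100 * D ^ 3 * E) * (3 * Real.log N) := by
            apply mul_le_mul_of_nonneg_left hl2 (by positivity)
        _ = (300 * D ^ 3 * E) * Real.log N := by ring
        _ ≤ (300 * D ^ 3 * E) * (1 / (300 * D ^ 3 * E) * N) := by
            apply mul_le_mul_of_nonneg_left h2 (by positivity)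
        _ = N := by field_simp
    exact_mod_cast e1
  have hD2' : 64 * 64 ≤ D ^ 2 := by nlinarith
  set M := N / b with hMdef
  have hMb : M * b ≤ N := Nat.div_mul_le_self _ _
  have hMb' : N < (M + 1) * b := by
    have e1 := Nat.div_add_mod N b
    have e2 := Nat.mod_lt N (by omega : 0 < b)
    rw [← hMdef] at e1
    calc N = b * M + N % b := e1.symm
      _ < b * M + b := by omega
      _ = (M + 1) * b := by ring
  have hM3 : 3 ≤ M := by
    rw [hMdef, Nat.le_div_iff_mul_le (by omega)]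
    calc 3 * b = b * 3 := by ring
      _ ≤ b * (100 * D ^ 2) := Nat.mul_le_mul_left b (by omega)
      _ ≤ N := hbN
  obtain ⟨n, hn⟩ : ∃ n, M = n + 1 := ⟨M - 1, by omega⟩
  -- the rich family
  have hqN : N ^ 8 ≤ 2 ^ q := by
    rw [hq, mul_comm, pow_mul]
    exact Nat.pow_le_pow_left hp1 8
  obtain ⟨G, hG⟩ := exists_jointlyRich (N := N) (M := M) (b := b) (n := n) (q := q) h3
    (by omega) hn hMb hb1 hqN
  obtain ⟨e⟩ : Nonempty ((Fin M × Fin b) ↪ Fin N) := by
    apply Function.Embedding.nonempty_of_card_le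
    simpa using hMb
  refine ⟨formula e G, formula_unsat hn e G, ?_, ?_, ?_⟩
  · refine (formula_length e G).trans ?_
    have e1 : 2 ^ b ≤ N ^ (2 * (D * E)) := by
      have e2 : b = ℓ * (D * E) := by rw [hb, hs]; ring
      rw [e2, pow_mul, pow_mul N 2 (D * E)]
      apply Nat.pow_le_pow_left
      refine hp2.trans ?_
      rw [pow_two]
      exact Nat.mul_le_mul_right N (by omega)
    have e3 : M ≤ N := by
      calc M ≤ M * b := Nat.le_mul_of_pos_right _ hb1
        _ ≤ N := hMb
    calc (M * 2 ^ b) ^ 2 ≤ (N * N ^ (2 * (D * E))) ^ 2 :=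
          Nat.pow_le_pow_left (Nat.mul_le_mul e3 e1) 2
      _ = N ^ (4 * (D * E) + 2) := by
          rw [← pow_succ', ← pow_mul]
          congr 1
          ring
      _ ≤ N ^ (6 * D * E + 2) := by
          apply Nat.pow_le_pow_right (by omega)
          rw [mul_assoc]
          omega
  · intro Cl hCl
    rw [formula_width hCl]
    have e2 : ((b : ℕ) : ℝ) = D * (E * ℓ) := by rw [hb, hs]; push_cast; ring
    push_cast
    rw [e2]
    calc (2 : ℝ) * (D * (E * ℓ)) = (2 * D * E) * ℓ := by ring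
      _ ≤ (2 * D * E) * (3 * Real.log N) := mul_le_mul_of_nonneg_left hl2 (by positivity)
      _ = (6 * D * E) * Real.log N := by ring
      _ ≤ (6 * D * E + 2) * Real.log N :=
          mul_le_mul_of_nonneg_right (by linarith) (by linarith)
  · intro k L t R J I B X ht1 htC hsp hX hcase
    have ht0 : (0 : ℝ) < t := by exact_mod_cast ht1
    have hts : 4 * t ≤ s := by
      have e1 : ((4 * t : ℕ) : ℝ) ≤ ((s : ℕ) : ℝ) := by
        rw [hs]
        push_cast
        have e3 : (0 : ℝ) ≤ ℓ := by positivity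
        have e4 : C * Real.log N ≤ E / 3 * Real.log N :=
          mul_le_mul_of_nonneg_right (by linarith) (by linarith)
        have e5 : (E : ℝ) / 3 * Real.log N ≤ E / 3 * (0.7 * ℓ) :=
          mul_le_mul_of_nonneg_left hl1 (by positivity)
        have e6 : (0 : ℝ) ≤ E * ℓ := mul_nonneg hE0.le e3
        linarith
      exact_mod_cast e1
    set a := ⌈(1 - δ' / 4) * N⌉₊ with ha
    have ha1 : (1 - δ' / 4) * N ≤ a := Nat.le_ceil _
    have ha2 : (a : ℝ) < (1 - δ' / 4) * N + 1 := by
      apply Nat.ceil_lt_add_one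
      apply mul_nonneg (by linarith) hN0.le
    set m₀ := N / (D * b) with hm₀
    set j := N / (4 * t * D) with hj
    set w := s * m₀ / (12 * t) with hw
    have hDb : 0 < D * b := Nat.mul_pos (by omega) hb1
    have htD : 0 < 4 * t * D := Nat.mul_pos (by omega) (by omega)
    have h12 : 0 < 12 * t := by omega
    -- bounds
    have b1 : D * b * m₀ ≤ N := Nat.mul_div_le _ _
    have b2 : N < D * b * (m₀ + 1) := Nat.lt_mul_div_succ N hDb
    have b3 : 4 * t * D * j ≤ N := Nat.mul_div_le _ _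
    have b4 : N < 4 * t * D * (j + 1) := Nat.lt_mul_div_succ N htD
    have b5 : 12 * t * w ≤ s * m₀ := Nat.mul_div_le _ _
    have b6 : s * m₀ < 12 * t * (w + 1) := Nat.lt_mul_div_succ _ h12
    have hqs : D * ((q + s) * M) ≤ 2 * N := by
      have e1 : D * (q + s) ≤ 2 * b := by
        rw [hb]
        have h9 : q ≤ s := by
          rw [hq, hs]
          exact Nat.mul_le_mul_right _ hE1
        calc D * (q + s) ≤ D * (s + s) := Nat.mul_le_mul_left D (by omega)
          _ = 2 * (D * s) := by ring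
      calc D * ((q + s) * M) = (D * (q + s)) * M := by ring
        _ ≤ (2 * b) * M := Nat.mul_le_mul_right _ e1
        _ = 2 * (M * b) := by ring
        _ ≤ 2 * N := by omega
    have rb : (100 * (D : ℝ) ^ 2) * b ≤ N := by
      have : ((b * (100 * D ^ 2) : ℕ) : ℝ) ≤ N := by exact_mod_cast hbN
      push_cast at this
      linarith
    have rD : (64 : ℝ) ≤ D := by exact_mod_cast hD1
    have rb1 : (1 : ℝ) ≤ b := by exact_mod_cast hb1
    have r6 : (D : ℝ) * b * 100 ≤ N := by
      have e0 : (D : ℝ) * b * 100 * 1 ≤ D * b * 100 * D :=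
        mul_le_mul_of_nonneg_left (by linarith) (by positivity)
      have e1 : (D : ℝ) * b * 100 * D = (100 * (D : ℝ) ^ 2) * b := by ring
      linarith
    have hm6 : 6 ≤ m₀ := by
      rw [hm₀, Nat.le_div_iff_mul_le hDb]
      calc 6 * (D * b) = b * (6 * D) := by ring
        _ ≤ b * (100 * D ^ 2) := by
            apply Nat.mul_le_mul_left
            calc 6 * D ≤ 100 * D := by omega
              _ ≤ 100 * (D * D) := Nat.mul_le_mul_left 100 (Nat.le_mul_of_pos_left D (by omega))
              _ = 100 * D ^ 2 := by ring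
        _ ≤ N := hbN
    have hδN : δ' * N ≤ δ * N := mul_le_mul_of_nonneg_right hδδ hN0.le
    have hδN' : 0 ≤ δ' * N := mul_nonneg hδ'.le hN0.le
    have hlow := formula_lower hG hn ht1 hts e R hsp hX (a := a) (j := j) (w := w)
      (m₀ := m₀) (by
        rcases hcase with hc | hc
        · left
          have e1 : ((3 * J.card + B.card + N : ℕ) : ℝ) ≤ ((4 * a : ℕ) : ℝ) := by
            push_cast at hc ⊢
            linarith
          exact_mod_cast e1
        · right
          have e1 : ((J.card + X.card : ℕ) : ℝ) ≤ ((a : ℕ) : ℝ) := by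
            push_cast at hc ⊢
            linarith
          exact_mod_cast e1) hm6 (by
        calc 3 * (4 * t * w) = 12 * t * w := by ring
          _ ≤ s * m₀ := b5) (by
        have e1 : ((a + 4 * t * j + (q + s) * M + b * m₀ : ℕ) : ℝ) < ((b * M : ℕ) : ℝ) := by
          have r1 : (D : ℝ) * (b * m₀) ≤ N := by
            have : ((D * b * m₀ : ℕ) : ℝ) ≤ N := by exact_mod_cast b1
            push_cast at this
            linarith
          have r2 : (D : ℝ) * (4 * t * j) ≤ N := by
            have : ((4 * t * D * j : ℕ) : ℝ) ≤ N := by exact_mod_cast b3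
            push_cast at this
            linarith
          have r3 : (D : ℝ) * ((q + s) * M) ≤ 2 * N := by
            have : ((D * ((q + s) * M) : ℕ) : ℝ) ≤ ((2 * N : ℕ) : ℝ) := by
              exact_mod_cast hqs
            push_cast at this
            linarith
          have r4 : (N : ℝ) < (M + 1) * b := by
            have : ((N : ℕ) : ℝ) < (((M + 1) * b : ℕ) : ℝ) := by exact_mod_cast hMb'
            push_cast at this
            linarith
          have r5 : (D : ℝ) * a < D * ((1 - δ' / 4) * N + 1) :=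
            mul_lt_mul_of_pos_left ha2 hD0
          have r4' : (D : ℝ) * N < D * ((M + 1) * b) := mul_lt_mul_of_pos_left r4 hD0
          have r7 : (D : ℝ) ≤ N / 100 := by
            have : (D : ℝ) * 1 ≤ D * b := mul_le_mul_of_nonneg_left rb1 hD0.le
            linarith
          have r8 : 64 * (N : ℝ) ≤ (δ' * D) * N := mul_le_mul_of_nonneg_right hD2 hN0.le
          push_cast
          have r9 : (D : ℝ) * (a + 4 * t * j + (q + s) * M + b * m₀) < D * (b * M) := by
            linarith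
          exact lt_of_mul_lt_mul_left r9 hD0.le
        exact_mod_cast e1)
    refine le_trans (Real.exp_le_exp.mpr ?_) hlow
    set T : ℝ := (N : ℝ) + (univ \ I).card with hT
    have hT0 : 0 < T := by
      have : (0 : ℝ) ≤ ((univ \ I).card : ℝ) := by positivity
      linarith
    have hTc : ((N + (univ \ I).card : ℕ) : ℝ) = T := by push_cast; rfl
    rw [hTc]
    -- lower bounds for j and w
    have rj : (N : ℝ) ≤ 8 * t * D * j := by
      have c1 : (N : ℝ) < 4 * t * D * (j + 1) := by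
        have : ((N : ℕ) : ℝ) < ((4 * t * D * (j + 1) : ℕ) : ℝ) := by exact_mod_cast b4
        push_cast at this
        linarith
      have c2 : (8 : ℝ) * t * D ≤ N := by
        have c3 : (4 : ℝ) * t ≤ b := by
          have : 4 * t ≤ b := by
            rw [hb]
            calc 4 * t ≤ s := hts
              _ ≤ D * s := Nat.le_mul_of_pos_left _ (by omega)
          exact_mod_cast this
        have c4 : (D : ℝ) * (4 * t) ≤ D * b := mul_le_mul_of_nonneg_left c3 hD0.le
        linarith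
      linarith
    have rs : (N : ℝ) ≤ 2 * D ^ 2 * (s * m₀) := by
      have c1 : (N : ℝ) < D * b * (m₀ + 1) := by
        have : ((N : ℕ) : ℝ) < ((D * b * (m₀ + 1) : ℕ) : ℝ) := by exact_mod_cast b2
        push_cast at this
        linarith
      have c2 : (b : ℝ) = D * s := by rw [hb]; push_cast; ring
      have c3 : (2 : ℝ) * (D * b) ≤ N := by linarith
      have c4 : (D : ℝ) * b * m₀ = D ^ 2 * (s * m₀) := by rw [c2]; ring
      linarith
    have rw' : (N : ℝ) ≤ 48 * D ^ 2 * t * w := by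
      have c1 : (s : ℝ) * m₀ < 12 * t * (w + 1) := by
        have : ((s * m₀ : ℕ) : ℝ) < ((12 * t * (w + 1) : ℕ) : ℝ) := by exact_mod_cast b6
        push_cast at this
        linarith
      have c2 : (48 : ℝ) * D ^ 2 * t ≤ N := by
        have c3 : (4 : ℝ) * t ≤ b := by
          have : 4 * t ≤ b := by
            rw [hb]
            calc 4 * t ≤ s := hts
              _ ≤ D * s := Nat.le_mul_of_pos_left _ (by omega)
          exact_mod_cast this
        have c4 : (D : ℝ) ^ 2 * (4 * t) ≤ D ^ 2 * b :=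
          mul_le_mul_of_nonneg_left c3 (by positivity)
        have c5 : (0 : ℝ) ≤ D ^ 2 * b := by positivity
        linarith
      have c5 : 2 * (D : ℝ) ^ 2 * (s * m₀) ≤ 2 * D ^ 2 * (12 * t * (w + 1)) :=
        mul_le_mul_of_nonneg_left c1.le (by positivity)
      linarith
    have hprod : (N : ℝ) * N ≤ (8 * t * D * j) * (48 * D ^ 2 * t * w) :=
      mul_le_mul rj rw' hN0.le (by positivity)
    rw [div_le_div_iff₀ (by positivity) (by positivity)]
    have hD3 : (0 : ℝ) < 768 * D ^ 3 := by positivity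
    have key : 1 / (768 * (D : ℝ) ^ 3) * N ^ 2 * 2 ≤ j * w * t ^ 2 := by
      rw [div_mul_eq_mul_div, div_mul_eq_mul_div, div_le_iff₀ hD3]
      linarith
    calc 1 / (768 * (D : ℝ) ^ 3) * (N : ℝ) ^ 2 * (2 * T)
        = (1 / (768 * (D : ℝ) ^ 3) * N ^ 2 * 2) * T := by ring
      _ ≤ (j * w * t ^ 2) * T := mul_le_mul_of_nonneg_right key hT0.le
      _ = j * w * (t ^ 2 * T) := by ring

end Pool.Agent.MP_e81270_lc.Aff
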