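import Pool.Agent.Lib.MP_e81270_lc_Aff.Circ

/-!
# Operations on certificates
-/

set_option autoImplicit false

namespace Pool.Agent.MP_e81270_lc.Aff

open Finset Matrix

variable {M b n N k : ℕ}

private theorem ev_sub {U : Type} [DecidableEq U] {val : U → Vec M b → Bool} {u : U}
    {α : Atom U} {x : Vec M b} (h : val u x = ev val α x) (β : Atom U) :
    ev val (sub u α β) x = ev val β x := by
  unfold sub
  by_cases hβ : β.2 = some u
  · rw [if_pos hβ]
    have h1 : ev val β x = xor β.1 (val u x) := by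
      unfold ev
      rw [hβ]
      rfl
    rw [h1, h]
    unfold ev
    rw [Bool.xor_assoc]
  · rw [if_neg hβ]

private theorem sub_snd {U : Type} [DecidableEq U] (u : U) (α β : Atom U) :
    (sub u α β).2 = if β.2 = some u then α.2 else β.2 := by
  unfold sub
  by_cases hβ : β.2 = some u
  · rw [if_pos hβ, if_pos hβ]
  · rw [if_neg hβ, if_neg hβ]

private theorem sub_some {U : Type} [DecidableEq U] {u w : U} {α β : Atom U}
    (h : (sub u α β).2 = some w) : (β.2 = some u ∧ α.2 = some w) ∨ (β.2 = some w ∧ w ≠ u) := by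
  rw [sub_snd] at h
  by_cases hβ : β.2 = some u
  · rw [if_pos hβ] at h
    exact Or.inl ⟨hβ, h⟩
  · rw [if_neg hβ] at h
    refine Or.inr ⟨h, ?_⟩
    rintro rfl
    exact hβ h

private theorem isLoc_of_isAff {A : Set (Vec M b)} {g : Vec M b → Bool} (h : IsAff A g) :
    IsLoc A g := by
  obtain ⟨f, c, hf⟩ := h
  refine ⟨f, 0, fun s _ => decide (s + c = 1), fun x hx => ?_⟩
  have h1 := hf x hx
  show g x = decide (f ⬝ᵥ x + c = 1)
  rw [← h1]
  unfold toZ
  cases g x <;> simp

private theorem isLoc_const {A : Set (Vec M b)} {g : Vec M b → Bool} (c : Bool)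
    (h : ∀ x ∈ A, g x = c) : IsLoc A g :=
  ⟨0, 0, fun _ _ => c, fun x hx => h x hx⟩

private theorem isLoc_xor {A : Set (Vec M b)} {g g' : Vec M b → Bool} (hg : IsLoc A g) (σ : Bool)
    (h : ∀ x ∈ A, g' x = xor σ (g x)) : IsLoc A g' := by
  obtain ⟨f₁, f₂, φ, hφ⟩ := hg
  refine ⟨f₁, f₂, fun s t => xor σ (φ s t), fun x hx => ?_⟩
  rw [h x hx, hφ x hx]

private theorem bool_fn (g : Bool → Bool) :
    (∃ c, ∀ y, g y = c) ∨ ∃ c, ∀ y, g y = xor c y := by
  by_cases h : g false = g true
  · exact Or.inl ⟨g false, fun y => by cases y <;> simp [h]⟩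
  · refine Or.inr ⟨g false, fun y => ?_⟩
    cases y
    · simp
    · cases h0 : g false <;> cases h1 : g true <;> simp_all

section

variable {A : Set (Vec M b)} {val : Fin N ⊕ Fin k → Vec M b → Bool} {K : Finset (Fin k)}
  {T : Finset (Fin N ⊕ Fin k)} {B : Finset (Fin k)} {fn : Fin k → Bool → Bool → Bool}
  {p q : Fin k → Atom (Fin N ⊕ Fin k)}

theorem Cert.mono (h : Cert A val K T B fn p q) {A' : Set (Vec M b)} (hA : A' ⊆ A) :
    Cert A' val K T B fn p q where
  aff := fun u hu => by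
    obtain ⟨f, c, hf⟩ := h.aff u hu
    exact ⟨f, c, fun x hx => hf x (hA hx)⟩
  disj := h.disj
  gate := fun i hi x hx => h.gate i hi x (hA hx)
  pin := h.pin
  qin := h.qin
  rep := fun i hi => by
    rcases h.rep i hi with ⟨f₁, f₂, φ, hφ⟩ | ⟨j, hj, σ, hσ⟩
    · exact Or.inl ⟨f₁, f₂, φ, fun x hx => hφ x (hA hx)⟩
    · exact Or.inr ⟨j, hj, σ, fun x hx => hσ x (hA hx)⟩

/-- A symbol that is constant is replaced by the constant. -/
theorem Cert.fix (h : Cert A val K T B fn p q) {u : Fin N ⊕ Fin k} (hu : u ∈ T) (c : Bool)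
    (hc : ∀ x ∈ A, val u x = c) :
    Cert A val K (T.erase u) B fn (fun i => sub u (c, none) (p i))
      (fun i => sub u (c, none) (q i)) where
  aff := fun w hw => h.aff w (mem_of_mem_erase hw)
  disj := fun i hi hT => h.disj i hi (mem_of_mem_erase hT)
  gate := fun i hi x hx => by
    have h1 : val u x = ev val ((c, none) : Atom (Fin N ⊕ Fin k)) x := by
      rw [hc x hx]
      unfold ev
      simp
    show _ = fn i (ev val (sub u (c, none) (p i)) x) (ev val (sub u (c, none) (q i)) x)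
    rw [ev_sub h1, ev_sub h1]
    exact h.gate i hi x hx
  pin := fun i hi w hw => by
    rcases sub_some hw with ⟨-, h1⟩ | ⟨h1, h2⟩
    · exact absurd h1 (by simp)
    · rcases h.pin i hi w h1 with h3 | h3
      · exact Or.inl (mem_erase.2 ⟨h2, h3⟩)
      · exact Or.inr h3
  qin := fun i hi w hw => by
    rcases sub_some hw with ⟨-, h1⟩ | ⟨h1, h2⟩
    · exact absurd h1 (by simp)
    · rcases h.qin i hi w h1 with h3 | h3
      · exact Or.inl (mem_erase.2 ⟨h2, h3⟩)
      · exact Or.inr h3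
  rep := h.rep

/-- A symbol that is not used is dropped. -/
theorem Cert.drop (h : Cert A val K T B fn p q) {u : Fin N ⊕ Fin k}
    (hp : ∀ i ∈ B, (p i).2 ≠ some u) (hq : ∀ i ∈ B, (q i).2 ≠ some u) :
    Cert A val K (T.erase u) B fn p q where
  aff := fun w hw => h.aff w (mem_of_mem_erase hw)
  disj := fun i hi hT => h.disj i hi (mem_of_mem_erase hT)
  gate := h.gate
  pin := fun i hi w hw => by
    rcases h.pin i hi w hw with h3 | h3
    · refine Or.inl (mem_erase.2 ⟨?_, h3⟩)
      rintro rfl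
      exact hp i hi hw
    · exact Or.inr h3
  qin := fun i hi w hw => by
    rcases h.qin i hi w hw with h3 | h3
    · refine Or.inl (mem_erase.2 ⟨?_, h3⟩)
      rintro rfl
      exact hq i hi hw
    · exact Or.inr h3
  rep := h.rep

private theorem Cert.remove_in (h : Cert A val K T B fn p q) {i : Fin k}
    {α : Atom (Fin N ⊕ Fin k)}
    (hαin : ∀ u, α.2 = some u → u ∈ T ∨ ∃ j ∈ B, j < i ∧ u = Sum.inr j) {j : Fin k}
    {β : Atom (Fin N ⊕ Fin k)}
    (hβ : ∀ u, β.2 = some u → u ∈ T ∨ ∃ j' ∈ B, j' < j ∧ u = Sum.inr j') (hi : i ∈ B)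
    {w : Fin N ⊕ Fin k} (hw : (sub (Sum.inr i) α β).2 = some w) :
    w ∈ T ∨ ∃ j' ∈ B.erase i, j' < j ∧ w = Sum.inr j' := by
  rcases sub_some hw with ⟨h1, h2⟩ | ⟨h1, h2⟩
  · rcases hαin w h2 with h3 | ⟨j', hj', hj'i, rfl⟩
    · exact Or.inl h3
    · right
      rcases hβ _ h1 with h4 | ⟨j'', hj'', hj''j, h5⟩
      · exact absurd h4 (h.disj i hi)
      · have h6 : i = j'' := Sum.inr.inj h5
        subst h6
        exact ⟨j', mem_erase.2 ⟨hj'i.ne, hj'⟩, hj'i.trans hj''j, rfl⟩
  · rcases hβ w h1 with h3 | ⟨j', hj', hj'j, rfl⟩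
    · exact Or.inl h3
    · refine Or.inr ⟨j', mem_erase.2 ⟨?_, hj'⟩, hj'j, rfl⟩
      rintro rfl
      exact h2 rfl

/-- A gate that equals a constant, a symbol in `T` or an earlier gate, up to sign, is removed. -/
theorem Cert.remove (h : Cert A val K T B fn p q) {i : Fin k} (hi : i ∈ B)
    (α : Atom (Fin N ⊕ Fin k)) (hα : ∀ x ∈ A, val (Sum.inr i) x = ev val α x)
    (hαin : ∀ u, α.2 = some u → u ∈ T ∨ ∃ j ∈ B, j < i ∧ u = Sum.inr j) :
    Cert A val K T (B.erase i) fn (fun j => sub (Sum.inr i) α (p j))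
      (fun j => sub (Sum.inr i) α (q j)) where
  aff := h.aff
  disj := fun j hj => h.disj j (mem_of_mem_erase hj)
  gate := fun j hj x hx => by
    show _ = fn j (ev val (sub (Sum.inr i) α (p j)) x) (ev val (sub (Sum.inr i) α (q j)) x)
    rw [ev_sub (hα x hx), ev_sub (hα x hx)]
    exact h.gate j (mem_of_mem_erase hj) x hx
  pin := fun j hj w hw => h.remove_in hαin (h.pin j (mem_of_mem_erase hj)) hi hw
  qin := fun j hj w hw => h.remove_in hαin (h.qin j (mem_of_mem_erase hj)) hi hw
  rep := fun i' hi' => by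
    rcases h.rep i' hi' with h1 | ⟨j, hj, σ, hσ⟩
    · exact Or.inl h1
    · by_cases hji : j = i
      · subst hji
        obtain ⟨c, o⟩ := α
        cases o with
        | none =>
          refine Or.inl (isLoc_const (xor σ c) fun x hx => ?_)
          rw [hσ x hx, hα x hx]
          unfold ev
          simp
        | some u =>
          have h2 : ∀ x ∈ A, val (Sum.inr i') x = xor (xor σ c) (val u x) := by
            intro x hx
            rw [hσ x hx, hα x hx]
            unfold ev
            simp [Bool.xor_assoc]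
          rcases hαin u rfl with h3 | ⟨j', hj', hj'i, rfl⟩
          · exact Or.inl (isLoc_xor (isLoc_of_isAff (h.aff u h3)) _ h2)
          · exact Or.inr ⟨j', mem_erase.2 ⟨hj'i.ne, hj'⟩, xor σ c, h2⟩
      · exact Or.inr ⟨j, mem_erase.2 ⟨hji, hj⟩, σ, hσ⟩

/-- An affine gate becomes a symbol. -/
theorem Cert.toSymbol (h : Cert A val K T B fn p q) {i : Fin k} (hi : i ∈ B)
    (hα : IsAff A (val (Sum.inr i))) :
    Cert A val K (insert (Sum.inr i) T) (B.erase i) fn p q := by
  have hin : ∀ j : Fin k, ∀ w : Fin N ⊕ Fin k, (w ∈ T ∨ ∃ j' ∈ B, j' < j ∧ w = Sum.inr j') →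
      w ∈ insert (Sum.inr i) T ∨ ∃ j' ∈ B.erase i, j' < j ∧ w = Sum.inr j' := by
    rintro j w (h1 | ⟨j', hj', hj'j, rfl⟩)
    · exact Or.inl (mem_insert_of_mem h1)
    · by_cases hji : j' = i
      · rw [hji]
        exact Or.inl (mem_insert_self _ _)
      · exact Or.inr ⟨j', mem_erase.2 ⟨hji, hj'⟩, hj'j, rfl⟩
  refine ⟨fun u hu => ?_, fun j hj hT => ?_, fun j hj => h.gate j (mem_of_mem_erase hj),
    fun j hj w hw => hin j w (h.pin j (mem_of_mem_erase hj) w hw),
    fun j hj w hw => hin j w (h.qin j (mem_of_mem_erase hj) w hw), fun i' hi' => ?_⟩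
  · rcases mem_insert.1 hu with rfl | h1
    · exact hα
    · exact h.aff u h1
  · rcases mem_insert.1 hT with h1 | h1
    · exact (mem_erase.1 hj).1 (Sum.inr.inj h1)
    · exact h.disj j (mem_of_mem_erase hj) h1
  · rcases h.rep i' hi' with h1 | ⟨j, hj, σ, hσ⟩
    · exact Or.inl h1
    · by_cases hji : j = i
      · subst hji
        exact Or.inl (isLoc_xor (isLoc_of_isAff hα) σ hσ)
      · exact Or.inr ⟨j, mem_erase.2 ⟨hji, hj⟩, σ, hσ⟩

/-- A gate that is a function of two forms and is not used is removed. -/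
theorem Cert.prune (h : Cert A val K T B fn p q) {i : Fin k} (hi : i ∈ B)
    (hα : IsLoc A (val (Sum.inr i))) (hp : ∀ j ∈ B, (p j).2 ≠ some (Sum.inr i))
    (hq : ∀ j ∈ B, (q j).2 ≠ some (Sum.inr i)) :
    Cert A val K T (B.erase i) fn p q := by
  refine ⟨h.aff, fun j hj => h.disj j (mem_of_mem_erase hj),
    fun j hj => h.gate j (mem_of_mem_erase hj), fun j hj w hw => ?_, fun j hj w hw => ?_,
    fun i' hi' => ?_⟩
  · rcases h.pin j (mem_of_mem_erase hj) w hw with h1 | ⟨j', hj', hj'j, rfl⟩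
    · exact Or.inl h1
    · refine Or.inr ⟨j', mem_erase.2 ⟨?_, hj'⟩, hj'j, rfl⟩
      rintro rfl
      exact hp j (mem_of_mem_erase hj) hw
  · rcases h.qin j (mem_of_mem_erase hj) w hw with h1 | ⟨j', hj', hj'j, rfl⟩
    · exact Or.inl h1
    · refine Or.inr ⟨j', mem_erase.2 ⟨?_, hj'⟩, hj'j, rfl⟩
      rintro rfl
      exact hq j (mem_of_mem_erase hj) hw
  · rcases h.rep i' hi' with h1 | ⟨j, hj, σ, hσ⟩
    · exact Or.inl h1
    · by_cases hji : j = i
      · subst hji
        exact Or.inl (isLoc_xor hα σ hσ)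
      · exact Or.inr ⟨j, mem_erase.2 ⟨hji, hj⟩, σ, hσ⟩

/-- The description of a gate is changed. -/
theorem Cert.rewire (h : Cert A val K T B fn p q) {i : Fin k} (hi : i ∈ B)
    (g : Bool → Bool → Bool) (α β : Atom (Fin N ⊕ Fin k))
    (hg : ∀ x ∈ A, val (Sum.inr i) x = g (ev val α x) (ev val β x))
    (hα : ∀ u, α.2 = some u → u ∈ T ∨ ∃ j ∈ B, j < i ∧ u = Sum.inr j)
    (hβ : ∀ u, β.2 = some u → u ∈ T ∨ ∃ j ∈ B, j < i ∧ u = Sum.inr j) :
    Cert A val K T B (Function.update fn i g) (Function.update p i α)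
      (Function.update q i β) := by
  refine ⟨h.aff, h.disj, fun j hj x hx => ?_, fun j hj w hw => ?_, fun j hj w hw => ?_, h.rep⟩
  · by_cases hji : j = i
    · subst hji
      rw [Function.update_self, Function.update_self, Function.update_self]
      exact hg x hx
    · rw [Function.update_of_ne hji, Function.update_of_ne hji, Function.update_of_ne hji]
      exact h.gate j hj x hx
  · by_cases hji : j = i
    · subst hji
      rw [Function.update_self] at hw
      exact hα w hw
    · rw [Function.update_of_ne hji] at hw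
      exact h.pin j hj w hw
  · by_cases hji : j = i
    · subst hji
      rw [Function.update_self] at hw
      exact hβ w hw
    · rw [Function.update_of_ne hji] at hw
      exact h.qin j hj w hw

/-- A gate with a constant input is equal to an atom. -/
private theorem Cert.exists_atom (h : Cert A val K T B fn p q) {i : Fin k} (hi : i ∈ B)
    (hc : (p i).2 = none ∨ (q i).2 = none) : ∃ α : Atom (Fin N ⊕ Fin k),
      (∀ x ∈ A, val (Sum.inr i) x = ev val α x) ∧
      (α.2 = none ∨ α.2 = (p i).2 ∨ α.2 = (q i).2) := by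
  have key : ∀ (g : Bool → Bool) (β : Atom (Fin N ⊕ Fin k)),
      (∀ x ∈ A, val (Sum.inr i) x = g (ev val β x)) → ∃ α : Atom (Fin N ⊕ Fin k),
        (∀ x ∈ A, val (Sum.inr i) x = ev val α x) ∧ (α.2 = none ∨ α.2 = β.2) := by
    intro g β hg
    rcases bool_fn g with ⟨c, hgc⟩ | ⟨c, hgc⟩
    · refine ⟨(c, none), fun x hx => ?_, Or.inl rfl⟩
      rw [hg x hx, hgc]
      unfold ev
      simp
    · refine ⟨(xor c β.1, β.2), fun x hx => ?_, Or.inr rfl⟩
      rw [hg x hx, hgc]
      unfold ev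
      rw [Bool.xor_assoc]
  have hconst : ∀ β : Atom (Fin N ⊕ Fin k), β.2 = none → ∀ x, ev val β x = β.1 := by
    intro β hβ x
    unfold ev
    rw [hβ]
    simp
  rcases hc with hc | hc
  · obtain ⟨α, h1, h2⟩ := key (fn i (p i).1) (q i) fun x hx => by
      rw [h.gate i hi x hx, hconst _ hc]
    exact ⟨α, h1, h2.imp id Or.inr⟩
  · obtain ⟨α, h1, h2⟩ := key (fun y => fn i y (q i).1) (p i) fun x hx => by
      rw [h.gate i hi x hx, hconst _ hc]
    exact ⟨α, h1, h2.imp id Or.inl⟩

/-- Gates with a constant input are removed; no new use of a symbol arises. -/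
theorem Cert.removeMany (h : Cert A val K T B fn p q) (E : Finset (Fin k)) (hE : E ⊆ B)
    (hc : ∀ i ∈ E, (p i).2 = none ∨ (q i).2 = none) :
    ∃ p' q' : Fin k → Atom (Fin N ⊕ Fin k), Cert A val K T (B \ E) fn p' q' ∧
      ∀ u : Fin N ⊕ Fin k, (∀ i ∈ B, (p i).2 ≠ some u ∧ (q i).2 ≠ some u) →
        ∀ i ∈ B \ E, (p' i).2 ≠ some u ∧ (q' i).2 ≠ some u := by
  induction E using Finset.induction_on generalizing B p q with
  | empty =>
    rw [sdiff_empty]
    exact ⟨p, q, h, fun u hu => hu⟩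
  | insert i E hiE ih =>
    have hi : i ∈ B := hE (mem_insert_self i E)
    obtain ⟨α, hα, hα2⟩ := h.exists_atom hi (hc i (mem_insert_self i E))
    have hαin : ∀ u, α.2 = some u → u ∈ T ∨ ∃ j ∈ B, j < i ∧ u = Sum.inr j := by
      intro u hu
      rcases hα2 with h1 | h1 | h1
      · rw [h1] at hu
        exact absurd hu (by simp)
      · rw [h1] at hu
        exact h.pin i hi u hu
      · rw [h1] at hu
        exact h.qin i hi u hu
    have hnone : ∀ β : Atom (Fin N ⊕ Fin k), β.2 = none → (sub (Sum.inr i) α β).2 = none := by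
      intro β hβ
      rw [sub_snd, if_neg (by rw [hβ]; simp), hβ]
    obtain ⟨p', q', h1, h2⟩ := ih (h.remove hi α hα hαin)
      (fun j hj => mem_erase.2 ⟨fun hji => hiE (hji ▸ hj), hE (mem_insert_of_mem hj)⟩)
      (fun j hj => (hc j (mem_insert_of_mem hj)).imp (hnone _) (hnone _))
    have hset : B.erase i \ E = B \ insert i E := by
      ext j
      simp only [mem_sdiff, mem_erase, mem_insert, not_or]
      tauto
    rw [hset] at h1 h2
    refine ⟨p', q', h1, fun u hu j hj => h2 u (fun j' hj' => ?_) j hj⟩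
    have hj'B := mem_of_mem_erase hj'
    have hαu : α.2 ≠ some u := by
      rcases hα2 with h3 | h3 | h3
      · rw [h3]
        simp
      · rw [h3]
        exact (hu i hi).1
      · rw [h3]
        exact (hu i hi).2
    constructor
    · intro h3
      rcases sub_some h3 with ⟨-, h4⟩ | ⟨h4, -⟩
      · exact hαu h4
      · exact (hu j' hj'B).1 h4
    · intro h3
      rcases sub_some h3 with ⟨-, h4⟩ | ⟨h4, -⟩
      · exact hαu h4
      · exact (hu j' hj'B).2 h4

end

end Pool.Agent.MP_e81270_lc.Aff
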