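import Pool.Agent.Lib.MP_e81270_lc_Aff.Rado

/-!
# Points of affine spaces with prescribed holes
-/

set_option autoImplicit false

namespace Pool.Agent.MP_e81270_lc.Aff

open Finset Matrix

variable {M b n N k q s a : ℕ}

private theorem finrank_inf_onSet_le (W : Submodule (ZMod 2) (Vec M b))
    (X : Finset (Fin M × Fin b)) :
    Module.finrank (ZMod 2) (W ⊓ onSet X : Submodule (ZMod 2) (Vec M b)) ≤ X.card := by
  have h1 := Submodule.finrank_mono (R := ZMod 2) (inf_le_right : W ⊓ onSet X ≤ onSet X)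
  rwa [finrank_onSet] at h1

private theorem finrank_inf_onSet_step (W : Submodule (ZMod 2) (Vec M b))
    {X Y : Finset (Fin M × Fin b)} (h : X ⊆ Y) :
    Module.finrank (ZMod 2) (W ⊓ onSet Y : Submodule (ZMod 2) (Vec M b)) + X.card ≤
      Y.card + Module.finrank (ZMod 2) (W ⊓ onSet X : Submodule (ZMod 2) (Vec M b)) := by
  have h1 := Submodule.finrank_sup_add_finrank_inf_eq (W ⊓ onSet Y) (onSet X)
  have h2 : W ⊓ onSet Y ⊓ onSet X = W ⊓ onSet X := by
    rw [inf_assoc, inf_of_le_right (onSet_mono h)]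
  have h3 : Module.finrank (ZMod 2) (W ⊓ onSet Y ⊔ onSet X : Submodule (ZMod 2) (Vec M b)) ≤
      Module.finrank (ZMod 2) (onSet Y : Submodule (ZMod 2) (Vec M b)) :=
    Submodule.finrank_mono (sup_le inf_le_right (onSet_mono h))
  rw [finrank_onSet] at h3
  rw [h2, finrank_onSet] at h1
  omega

private theorem finrank_inf_onSet_super (W : Submodule (ZMod 2) (Vec M b))
    (X Y : Finset (Fin M × Fin b)) :
    Module.finrank (ZMod 2) (W ⊓ onSet X : Submodule (ZMod 2) (Vec M b)) +
      Module.finrank (ZMod 2) (W ⊓ onSet Y : Submodule (ZMod 2) (Vec M b)) ≤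
      Module.finrank (ZMod 2) (W ⊓ onSet (X ∪ Y) : Submodule (ZMod 2) (Vec M b)) +
      Module.finrank (ZMod 2) (W ⊓ onSet (X ∩ Y) : Submodule (ZMod 2) (Vec M b)) := by
  have h1 := Submodule.finrank_sup_add_finrank_inf_eq (W ⊓ onSet X) (W ⊓ onSet Y)
  have h2 : W ⊓ onSet X ⊓ (W ⊓ onSet Y) = W ⊓ onSet (X ∩ Y) := by
    rw [← onSet_inf, ← inf_inf_distrib_left]
  have h3 : Module.finrank (ZMod 2)
      (W ⊓ onSet X ⊔ W ⊓ onSet Y : Submodule (ZMod 2) (Vec M b)) ≤
      Module.finrank (ZMod 2) (W ⊓ onSet (X ∪ Y) : Submodule (ZMod 2) (Vec M b)) :=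
    Submodule.finrank_mono (sup_le (inf_le_inf_left W (onSet_mono subset_union_left))
      (inf_le_inf_left W (onSet_mono subset_union_right)))
  rw [h2] at h1
  omega

theorem exists_transversal {W : Submodule (ZMod 2) (Vec M b)} {R : Finset (Fin M)}
    (h : ∀ R' ⊆ R, Module.finrank (ZMod 2) (W ⊓ onRows R' : Submodule (ZMod 2) (Vec M b)) +
      q * R'.card ≤ b * R'.card) :
    ∃ Q : Finset (Fin M × Fin b), (∀ i ∈ R, (Q.filter (fun v => v.1 = i)).card = q) ∧
      W ⊓ onSet Q = ⊥ := by
  classical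
  let g : Finset (Fin M × Fin b) → ℕ := fun X =>
    Module.finrank (ZMod 2) (W ⊓ onSet X : Submodule (ZMod 2) (Vec M b))
  let ρ : Finset (Fin M × Fin b) → ℕ := fun X => X.card - g X
  have hg : ∀ X, g X ≤ X.card := finrank_inf_onSet_le W
  obtain ⟨f, hf1, hf2⟩ := rado ρ (by
      change (∅ : Finset (Fin M × Fin b)).card - g ∅ = 0
      rw [card_empty, Nat.zero_sub]) (by
      intro X Y hXY
      have e1 : g Y + X.card ≤ Y.card + g X := finrank_inf_onSet_step W hXY
      have e2 := hg X
      have e3 := hg Y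
      change X.card - g X ≤ Y.card - g Y
      omega) (by
      intro X Y
      have e1 : g X + g Y ≤ g (X ∪ Y) + g (X ∩ Y) := finrank_inf_onSet_super W X Y
      have e2 := card_union_add_card_inter X Y
      have e3 := hg X
      have e4 := hg Y
      have e5 := hg (X ∪ Y)
      have e6 := hg (X ∩ Y)
      change (X ∪ Y).card - g (X ∪ Y) + ((X ∩ Y).card - g (X ∩ Y)) ≤
        X.card - g X + (Y.card - g Y)
      omega) (fun x : {i // i ∈ R} × Fin q => ({x.1.1} : Finset (Fin M)) ×ˢ (univ : Finset (Fin b)))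
    (by
      intro T
      set R' : Finset (Fin M) := T.image (fun x => x.1.1) with hR'
      have hsub : R' ⊆ R := by
        intro i hi
        rw [hR', mem_image] at hi
        obtain ⟨x, _, rfl⟩ := hi
        exact x.1.2
      have hU : (T.biUnion fun x : {i // i ∈ R} × Fin q =>
          ({x.1.1} : Finset (Fin M)) ×ˢ (univ : Finset (Fin b))) = R' ×ˢ univ := by
        ext v
        rw [mem_biUnion, mem_product, hR', mem_image]
        constructor
        · rintro ⟨x, hx, hv⟩
          rw [mem_product, mem_singleton] at hv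
          exact ⟨⟨x, hx, hv.1.symm⟩, mem_univ _⟩
        · rintro ⟨⟨x, hx, hv⟩, -⟩
          refine ⟨x, hx, ?_⟩
          rw [mem_product, mem_singleton]
          exact ⟨hv.symm, mem_univ _⟩
      rw [hU]
      have e1 : T.card ≤ (R' ×ˢ (univ : Finset (Fin q))).card := by
        apply card_le_card_of_injOn (fun x => (x.1.1, x.2))
        · intro x hx
          rw [mem_coe, mem_product]
          exact ⟨mem_image_of_mem _ hx, mem_univ _⟩
        · rintro ⟨⟨i, hi⟩, j⟩ _ ⟨⟨i', hi'⟩, j'⟩ _ hxy
          simp only [Prod.mk.injEq] at hxy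
          obtain ⟨rfl, rfl⟩ := hxy
          rfl
      rw [card_product, card_univ, Fintype.card_fin] at e1
      have e2 := h R' hsub
      have e3 : (R' ×ˢ (univ : Finset (Fin b))).card = b * R'.card := by
        rw [card_product, card_univ, Fintype.card_fin, mul_comm]
      change T.card ≤ (R' ×ˢ (univ : Finset (Fin b))).card - g (R' ×ˢ univ)
      change g (R' ×ˢ univ) + q * R'.card ≤ b * R'.card at e2
      rw [mul_comm] at e1
      omega)
  set Q := univ.image f with hQ
  have hcard : Fintype.card ({i // i ∈ R} × Fin q) = R.card * q := by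
    rw [Fintype.card_prod, Fintype.card_coe, Fintype.card_fin]
  have hQc : Q.card ≤ Fintype.card ({i // i ∈ R} × Fin q) := by
    rw [hQ]
    exact card_image_le
  have hρ : Fintype.card ({i // i ∈ R} × Fin q) ≤ Q.card - g Q := hf2
  have hgQ := hg Q
  have hcpos : Q.card = Fintype.card ({i // i ∈ R} × Fin q) := by omega
  have hinj : Function.Injective f := by
    have e1 : (univ.image f).card = (univ : Finset ({i // i ∈ R} × Fin q)).card := by
      rw [← hQ, hcpos, card_univ]
    have := card_image_iff.mp e1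
    intro x y hxy
    exact this (by simp) (by simp) hxy
  refine ⟨Q, ?_, ?_⟩
  · intro i hi
    have e1 : Q.filter (fun v => v.1 = i) = univ.image (fun j => f (⟨i, hi⟩, j)) := by
      ext v
      rw [mem_filter, hQ, mem_image, mem_image]
      constructor
      · rintro ⟨⟨⟨⟨i', hi'⟩, j⟩, -, rfl⟩, hv⟩
        have := hf1 (⟨i', hi'⟩, j)
        rw [mem_product, mem_singleton] at this
        have hii : i' = i := this.1.symm.trans hv
        subst hii
        exact ⟨j, mem_univ _, rfl⟩
      · rintro ⟨j, -, rfl⟩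
        refine ⟨⟨_, mem_univ _, rfl⟩, ?_⟩
        have := hf1 (⟨i, hi⟩, j)
        rw [mem_product, mem_singleton] at this
        exact this.1
    rw [e1, card_image_of_injective, card_univ, Fintype.card_fin]
    intro j j' hjj
    have := hinj hjj
    exact (Prod.mk.inj this).2
  · have e1 : g Q = 0 := by
      rcases Nat.eq_zero_or_pos (g Q) with h0 | h0
      · exact h0
      · omega
    exact Submodule.finrank_eq_zero.mp e1

theorem exists_section {W : Submodule (ZMod 2) (Vec M b)} {Q : Finset (Fin M × Fin b)}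
    (h : W ⊓ onSet Q = ⊥) (x₀ : Vec M b) :
    ∃ (A : Matrix (Fin M × Fin b) (Fin M × Fin b) (ZMod 2)) (c : Vec M b),
      (∀ u : Vec M b, A *ᵥ u + c ∈ space W x₀) ∧
      ∀ u : Vec M b, ∀ v ∈ Q, (A *ᵥ u + c) v = u v := by
  classical
  obtain ⟨C, hWC, hC⟩ := (disjoint_iff.mpr h).exists_isCompl
  -- projection onto `onSet Q` along `C`
  let pr : Vec M b →ₗ[ZMod 2] Vec M b := (onSet Q).projection C hC.symm
  have hprQ : ∀ f ∈ onSet Q, pr f = f := fun f hf =>
    Submodule.projection_apply_of_mem_left hC.symm hf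
  have hprW : ∀ f ∈ W, pr f = 0 := fun f hf =>
    (Submodule.projection_apply_eq_zero_iff hC.symm).mpr (hWC hf)
  let A : Matrix (Fin M × Fin b) (Fin M × Fin b) (ZMod 2) :=
    fun v v' => pr (Pi.single v 1) v'
  have hA : ∀ f u : Vec M b, f ⬝ᵥ (A *ᵥ u) = pr f ⬝ᵥ u := by
    intro f u
    have e1 : pr f = ∑ v, f v • pr (Pi.single v (1 : ZMod 2)) := by
      have e2 : f = ∑ v, f v • (Pi.single v (1 : ZMod 2) : Vec M b) := by
        funext w
        rw [Finset.sum_apply]
        simp [Pi.single_apply]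
      conv_lhs => rw [e2]
      rw [map_sum]
      apply sum_congr rfl
      intro v _
      rw [map_smul]
    rw [e1]
    unfold dotProduct
    simp only [Finset.sum_apply, Pi.smul_apply, smul_eq_mul]
    simp only [sum_mul]
    rw [sum_comm]
    apply sum_congr rfl
    intro v _
    change f v * ∑ v', A v v' * u v' = _
    rw [mul_sum]
    apply sum_congr rfl
    intro v' _
    ring
  refine ⟨A, x₀ - A *ᵥ x₀, ?_, ?_⟩
  · intro u f hf
    rw [dotProduct_add, dotProduct_sub, hA, hA, hprW f hf]
    simp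
  · intro u v hv
    have e1 : (Pi.single v (1 : ZMod 2) : Vec M b) ∈ onSet Q := by
      intro w hw
      rw [Pi.single_apply, if_neg]
      rintro rfl
      exact hw hv
    have e2 : ∀ y : Vec M b, (A *ᵥ y) v = y v := by
      intro y
      have := hA (Pi.single v 1) y
      rw [hprQ _ e1, single_dotProduct, single_dotProduct, one_mul, one_mul] at this
      exact this
    rw [Pi.add_apply, Pi.sub_apply, e2, e2]
    ring

theorem exists_point {G : Fin M → (Fin b → ZMod 2) → Fin n} (hG : JointlyRich q G)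
    {W : Submodule (ZMod 2) (Vec M b)} (x₀ : Vec M b) {R : Finset (Fin M)}
    (h : ∀ R' ⊆ R, Module.finrank (ZMod 2) (W ⊓ onRows R' : Submodule (ZMod 2) (Vec M b)) +
      q * R'.card ≤ b * R'.card) (π : Fin M → Fin n) :
    ∃ x ∈ space W x₀, ∀ i ∈ R, G i (rowOf x i) = π i := by
  obtain ⟨Q, hQ, hWQ⟩ := exists_transversal h
  obtain ⟨A, c, hA, hAQ⟩ := exists_section hWQ x₀
  obtain ⟨u, hu⟩ := hG R Q hQ A c hAQ π
  exact ⟨A *ᵥ u + c, hA u, hu⟩

end Pool.Agent.MP_e81270_lc.Aff
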