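import Pool.Agent.Lib.MP_e81270_lc_Aff.Circ

/-!
# Rado's theorem for a monotone submodular function
-/

set_option autoImplicit false

namespace Pool.Agent.MP_e81270_lc.Aff

open Finset Matrix

private lemma rado_step {E ι : Type} [DecidableEq E] [Fintype ι] [DecidableEq ι]
    (ρ : Finset E → ℕ) (hmono : ∀ X Y, X ⊆ Y → ρ X ≤ ρ Y)
    (hsub : ∀ X Y, ρ (X ∪ Y) + ρ (X ∩ Y) ≤ ρ X + ρ Y) (X : ι → Finset E)
    (h : ∀ T : Finset ι, T.card ≤ ρ (T.biUnion X)) (i : ι) {x x' : E} (hne : x ≠ x') :
    (∀ T : Finset ι, T.card ≤ ρ (T.biUnion (Function.update X i ((X i).erase x)))) ∨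
      ∀ T : Finset ι, T.card ≤ ρ (T.biUnion (Function.update X i ((X i).erase x'))) := by
  by_contra hcon
  rw [not_or] at hcon
  obtain ⟨h1, h2⟩ := hcon
  rw [not_forall] at h1 h2
  obtain ⟨T, hT⟩ := h1
  obtain ⟨T', hT'⟩ := h2
  rw [not_le] at hT hT'
  have hmem : ∀ (T : Finset ι) (z : E),
      ρ (T.biUnion (Function.update X i ((X i).erase z))) < T.card → i ∈ T := by
    intro T z hz
    by_contra hi
    have h3 : T.biUnion (Function.update X i ((X i).erase z)) = T.biUnion X := by
      apply biUnion_congr rfl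
      intro j hj
      rw [Function.update_of_ne]
      rintro rfl
      exact hi hj
    rw [h3] at hz
    exact absurd (h T) (not_le.mpr hz)
  have hiT := hmem T x hT
  have hiT' := hmem T' x' hT'
  set A := T.biUnion (Function.update X i ((X i).erase x)) with hA
  set B := T'.biUnion (Function.update X i ((X i).erase x')) with hB
  have h3 : (T ∪ T').biUnion X ⊆ A ∪ B := by
    intro z hz
    rw [mem_biUnion] at hz
    obtain ⟨j, hj, hzj⟩ := hz
    by_cases hji : j = i
    · subst hji
      by_cases hzx : z = x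
      · refine mem_union_right _ (mem_biUnion.mpr ⟨j, hiT', ?_⟩)
        rw [Function.update_self]
        exact mem_erase.mpr ⟨by rw [hzx]; exact hne, hzj⟩
      · refine mem_union_left _ (mem_biUnion.mpr ⟨j, hiT, ?_⟩)
        rw [Function.update_self]
        exact mem_erase.mpr ⟨hzx, hzj⟩
    · rcases mem_union.mp hj with hj | hj
      · refine mem_union_left _ (mem_biUnion.mpr ⟨j, hj, ?_⟩)
        rw [Function.update_of_ne hji]
        exact hzj
      · refine mem_union_right _ (mem_biUnion.mpr ⟨j, hj, ?_⟩)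
        rw [Function.update_of_ne hji]
        exact hzj
  have h4 : ((T ∩ T').erase i).biUnion X ⊆ A ∩ B := by
    intro z hz
    rw [mem_biUnion] at hz
    obtain ⟨j, hj, hzj⟩ := hz
    obtain ⟨hji, hj⟩ := mem_erase.mp hj
    obtain ⟨hj1, hj2⟩ := mem_inter.mp hj
    refine mem_inter.mpr ⟨mem_biUnion.mpr ⟨j, hj1, ?_⟩, mem_biUnion.mpr ⟨j, hj2, ?_⟩⟩
    · rw [Function.update_of_ne hji]
      exact hzj
    · rw [Function.update_of_ne hji]
      exact hzj
  have h5 := (h (T ∪ T')).trans (hmono _ _ h3)
  have h6 := (h ((T ∩ T').erase i)).trans (hmono _ _ h4)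
  have h7 := hsub A B
  have h8 := card_union_add_card_inter T T'
  have h9 : i ∈ T ∩ T' := mem_inter.mpr ⟨hiT, hiT'⟩
  rw [card_erase_of_mem h9] at h6
  have h10 : 0 < (T ∩ T').card := card_pos.mpr ⟨i, h9⟩
  omega

private lemma rado_aux {E ι : Type} [DecidableEq E] [Fintype ι] [DecidableEq ι]
    (ρ : Finset E → ℕ) (h0 : ρ ∅ = 0) (hmono : ∀ X Y, X ⊆ Y → ρ X ≤ ρ Y)
    (hsub : ∀ X Y, ρ (X ∪ Y) + ρ (X ∩ Y) ≤ ρ X + ρ Y) :
    ∀ (n : ℕ) (X : ι → Finset E), ∑ i, (X i).card = n →
      (∀ T : Finset ι, T.card ≤ ρ (T.biUnion X)) →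
      ∃ f : ι → E, (∀ i, f i ∈ X i) ∧ Fintype.card ι ≤ ρ (univ.image f) := by
  intro n
  induction n using Nat.strong_induction_on with
  | _ n ih =>
    intro X hn h
    by_cases hbig : ∃ i, 1 < (X i).card
    · obtain ⟨i, hi⟩ := hbig
      obtain ⟨x, hx, x', hx', hne⟩ := one_lt_card.mp hi
      have hdone : ∀ z ∈ X i,
          (∀ T : Finset ι, T.card ≤ ρ (T.biUnion (Function.update X i ((X i).erase z)))) →
          ∃ f : ι → E, (∀ i, f i ∈ X i) ∧ Fintype.card ι ≤ ρ (univ.image f) := by
        intro z hz hT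
        have hlt : ∑ j, (Function.update X i ((X i).erase z) j).card < n := by
          rw [← hn]
          apply sum_lt_sum
          · intro j _
            by_cases hji : j = i
            · subst hji
              rw [Function.update_self]
              exact card_le_card (erase_subset _ _)
            · rw [Function.update_of_ne hji]
          · refine ⟨i, mem_univ i, ?_⟩
            rw [Function.update_self, card_erase_of_mem hz]
            omega
        obtain ⟨f, hf, hf2⟩ := ih _ hlt _ rfl hT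
        refine ⟨f, fun j => ?_, hf2⟩
        have := hf j
        by_cases hji : j = i
        · subst hji
          rw [Function.update_self] at this
          exact mem_of_mem_erase this
        · rwa [Function.update_of_ne hji] at this
      rcases rado_step ρ hmono hsub X h i hne with hT | hT
      · exact hdone x hx hT
      · exact hdone x' hx' hT
    · rw [not_exists] at hbig
      have hnon : ∀ i, (X i).Nonempty := by
        intro i
        by_contra hi
        rw [not_nonempty_iff_eq_empty] at hi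
        have h1 := h {i}
        rw [singleton_biUnion, hi, h0, card_singleton] at h1
        omega
      choose f hf using hnon
      refine ⟨f, hf, ?_⟩
      have h1 := h univ
      rw [card_univ] at h1
      refine h1.trans (hmono _ _ ?_)
      intro z hz
      rw [mem_biUnion] at hz
      obtain ⟨j, -, hzj⟩ := hz
      rw [mem_image]
      refine ⟨j, mem_univ j, ?_⟩
      have h2 : (X j).card ≤ 1 := not_lt.mp (hbig j)
      exact card_le_one.mp h2 _ (hf j) _ hzj

theorem rado {E ι : Type} [DecidableEq E] [Fintype ι] [DecidableEq ι] (ρ : Finset E → ℕ)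
    (h0 : ρ ∅ = 0)
    (hmono : ∀ X Y, X ⊆ Y → ρ X ≤ ρ Y) (hsub : ∀ X Y, ρ (X ∪ Y) + ρ (X ∩ Y) ≤ ρ X + ρ Y)
    (X : ι → Finset E) (h : ∀ T : Finset ι, T.card ≤ ρ (T.biUnion X)) :
    ∃ f : ι → E, (∀ i, f i ∈ X i) ∧ Fintype.card ι ≤ ρ (univ.image f) :=
  rado_aux ρ h0 hmono hsub _ X rfl h

end Pool.Agent.MP_e81270_lc.Aff
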