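import Pool.Agent.Lib.MP_e81270_lc_Aff.Circ

/-!
# The one-row lemma: a balanced colouring for many weights
-/

set_option autoImplicit false

namespace Pool.Agent.MP_e81270_lc.Aff

open Finset Matrix

private lemma a1_mgf {Z : Type} [Fintype Z] [DecidableEq Z] {n : ℕ} (hn : 1 ≤ n) (w : Z → ℝ) (lam : ℝ)
    (hl : ∀ z, |lam * w z| ≤ 1) (h : Fin n) :
    ∑ g : Z → Fin n, Real.exp (lam * ∑ z, w z * ((if g z = h then 1 else 0) - 1 / (n : ℝ))) ≤
      (n : ℝ) ^ Fintype.card Z * Real.exp (∑ z, (lam * w z) ^ 2) := by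
  have hn0 : (0 : ℝ) < n := by exact_mod_cast hn
  have h1 : ∀ g : Z → Fin n,
      Real.exp (lam * ∑ z, w z * ((if g z = h then 1 else 0) - 1 / (n : ℝ))) =
        ∏ z, Real.exp (lam * w z * ((if g z = h then 1 else 0) - 1 / (n : ℝ))) := by
    intro g
    rw [← Real.exp_sum, mul_sum]
    congr 1
    exact sum_congr rfl fun z _ => by ring
  have h2 : ∑ g : Z → Fin n, ∏ z, Real.exp (lam * w z * ((if g z = h then 1 else 0) - 1 / (n : ℝ))) =
      ∏ z, ∑ c : Fin n, Real.exp (lam * w z * ((if c = h then 1 else 0) - 1 / (n : ℝ))) := by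
    have h3 := Finset.prod_univ_sum (fun _ : Z => (univ : Finset (Fin n)))
      (fun z c => Real.exp (lam * w z * ((if c = h then 1 else 0) - 1 / (n : ℝ))))
    rw [Fintype.piFinset_univ] at h3
    exact h3.symm
  rw [sum_congr rfl fun g _ => h1 g, h2]
  have h4 : ∀ z : Z, ∑ c : Fin n, Real.exp (lam * w z * ((if c = h then 1 else 0) - 1 / (n : ℝ))) ≤
      (n : ℝ) * Real.exp ((lam * w z) ^ 2) := by
    intro z
    set y : ℝ := lam * w z with hy
    have hy1 : |y| ≤ 1 := hl z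
    have hc : ∀ c : Fin n, |((if c = h then 1 else 0) - 1 / (n : ℝ) : ℝ)| ≤ 1 := by
      intro c
      have h5 : 0 < 1 / (n : ℝ) := by positivity
      have h6 : 1 / (n : ℝ) ≤ 1 := by
        rw [div_le_one hn0]
        exact_mod_cast hn
      split_ifs
      · rw [abs_le]
        constructor <;> linarith
      · rw [abs_le]
        constructor <;> linarith
    have hterm : ∀ c : Fin n, Real.exp (y * ((if c = h then 1 else 0) - 1 / (n : ℝ))) ≤
        1 + y * ((if c = h then 1 else 0) - 1 / (n : ℝ)) + y ^ 2 := by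
      intro c
      have h5 : |y * ((if c = h then 1 else 0) - 1 / (n : ℝ))| ≤ 1 := by
        rw [abs_mul]
        exact mul_le_one₀ hy1 (abs_nonneg _) (hc c)
      have h6 := (abs_le.mp (Real.abs_exp_sub_one_sub_id_le h5)).2
      have h7 : (y * ((if c = h then 1 else 0) - 1 / (n : ℝ))) ^ 2 ≤ y ^ 2 := by
        rw [mul_pow, ← sq_abs ((if c = h then 1 else 0) - 1 / (n : ℝ) : ℝ)]
        have h8 : |((if c = h then 1 else 0) - 1 / (n : ℝ) : ℝ)| ^ 2 ≤ 1 :=
          pow_le_one₀ (abs_nonneg _) (hc c)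
        nlinarith [sq_nonneg y]
      linarith
    have hsum : ∑ c : Fin n, ((if c = h then 1 else 0) - 1 / (n : ℝ) : ℝ) = 0 := by
      rw [sum_sub_distrib, sum_ite_eq' univ h (fun _ => (1 : ℝ)), if_pos (mem_univ h), sum_const,
        card_univ, Fintype.card_fin, nsmul_eq_mul]
      field_simp
      ring
    calc ∑ c : Fin n, Real.exp (y * ((if c = h then 1 else 0) - 1 / (n : ℝ)))
        ≤ ∑ c : Fin n, (1 + y * ((if c = h then 1 else 0) - 1 / (n : ℝ)) + y ^ 2) :=
          sum_le_sum fun c _ => hterm c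
      _ = (n : ℝ) * (1 + y ^ 2) := by
          rw [sum_add_distrib, sum_add_distrib, ← mul_sum, hsum, mul_zero, sum_const, sum_const,
            card_univ, Fintype.card_fin, nsmul_eq_mul, nsmul_eq_mul]
          ring
      _ ≤ (n : ℝ) * Real.exp (y ^ 2) := by
          apply mul_le_mul_of_nonneg_left _ hn0.le
          linarith [Real.add_one_le_exp (y ^ 2)]
  calc ∏ z, ∑ c : Fin n, Real.exp (lam * w z * ((if c = h then 1 else 0) - 1 / (n : ℝ)))
      ≤ ∏ z : Z, ((n : ℝ) * Real.exp ((lam * w z) ^ 2)) :=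
        prod_le_prod (fun z _ => sum_nonneg fun c _ => (Real.exp_pos _).le) fun z _ => h4 z
    _ = (n : ℝ) ^ Fintype.card Z * Real.exp (∑ z, (lam * w z) ^ 2) := by
        rw [prod_mul_distrib, prod_const, card_univ, Real.exp_sum]

private lemma a1_pos {Z ι : Type} [Fintype Z] [Fintype ι] {n : ℕ} (hn : 1 ≤ n)
    (w : ι → Z → ℝ) (hw : ∀ k z, 0 ≤ w k z) (hT : ∀ k, 0 < ∑ z, w k z) {μ : ℝ} (hμ : 0 < μ)
    (hmax : ∀ k z, w k z ≤ μ * ∑ y, w k y)
    (hcard : 2 * (Fintype.card ι : ℝ) * n * Real.exp (-(1 / (4 * μ * (n : ℝ) ^ 4))) < 1) :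
    ∃ g : Z → Fin n, ∀ k h, |(∑ z ∈ univ.filter (fun z => g z = h), w k z) -
      (∑ z, w k z) / n| ≤ (∑ z, w k z) / (n : ℝ) ^ 2 := by
  classical
  have hn0 : (0 : ℝ) < n := by exact_mod_cast hn
  set T : ι → ℝ := fun k => ∑ z, w k z with hTd
  set lam : ι → ℝ := fun k => 1 / (2 * μ * T k * (n : ℝ) ^ 2) with hlam
  have hlp : ∀ k, 0 < lam k := by
    intro k
    have := hT k
    simp only [hlam]
    positivity
  set X : (Z → Fin n) → ι → Fin n → ℝ :=
    fun g k h => ∑ z, w k z * ((if g z = h then 1 else 0) - 1 / (n : ℝ)) with hX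
  set Ph : (Z → Fin n) → ℝ := fun g => ∑ k, ∑ h,
    (Real.exp (lam k * X g k h) + Real.exp (-lam k * X g k h)) *
      Real.exp (-(lam k * (T k / (n : ℝ) ^ 2))) with hPh
  have hlw : ∀ k z, |lam k * w k z| ≤ 1 := by
    intro k z
    have h1 := hT k
    rw [abs_of_nonneg (mul_nonneg (hlp k).le (hw k z))]
    have h2 : lam k * w k z ≤ lam k * (μ * T k) :=
      mul_le_mul_of_nonneg_left (hmax k z) (hlp k).le
    have h3 : lam k * (μ * T k) = 1 / (2 * (n : ℝ) ^ 2) := by
      have h4 : T k ≠ 0 := h1.ne'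
      simp only [hlam]
      field_simp
    have h5 : 1 / (2 * (n : ℝ) ^ 2) ≤ 1 := by
      rw [div_le_one (by positivity)]
      have h6 : (1 : ℝ) ≤ n := by exact_mod_cast hn
      nlinarith
    linarith
  have hsq : ∀ k, ∑ z, (lam k * w k z) ^ 2 ≤ lam k ^ 2 * (μ * T k ^ 2) := by
    intro k
    have h1 : ∑ z, (lam k * w k z) ^ 2 = lam k ^ 2 * ∑ z, w k z * w k z := by
      rw [mul_sum]
      exact sum_congr rfl fun z _ => by ring
    rw [h1]
    apply mul_le_mul_of_nonneg_left _ (sq_nonneg _)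
    calc ∑ z, w k z * w k z ≤ ∑ z, (μ * T k) * w k z :=
          sum_le_sum fun z _ => mul_le_mul_of_nonneg_right (hmax k z) (hw k z)
      _ = μ * T k ^ 2 := by
          rw [← mul_sum]
          simp only [hTd]
          ring
  have hexp : ∀ k, Real.exp (∑ z, (lam k * w k z) ^ 2) *
      Real.exp (-(lam k * (T k / (n : ℝ) ^ 2))) ≤ Real.exp (-(1 / (4 * μ * (n : ℝ) ^ 4))) := by
    intro k
    rw [← Real.exp_add]
    apply Real.exp_le_exp.mpr
    have h1 := hsq k
    have h2 : lam k ^ 2 * (μ * T k ^ 2) + -(lam k * (T k / (n : ℝ) ^ 2)) =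
        -(1 / (4 * μ * (n : ℝ) ^ 4)) := by
      have h4 : T k ≠ 0 := (hT k).ne'
      simp only [hlam]
      field_simp
      ring
    linarith
  have hkh : ∀ k h, ∑ g : Z → Fin n, (Real.exp (lam k * X g k h) + Real.exp (-lam k * X g k h)) *
      Real.exp (-(lam k * (T k / (n : ℝ) ^ 2))) ≤
        (n : ℝ) ^ Fintype.card Z * (2 * Real.exp (-(1 / (4 * μ * (n : ℝ) ^ 4)))) := by
    intro k h
    rw [← sum_mul, sum_add_distrib]
    have h1 := a1_mgf hn (w k) (lam k) (hlw k) h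
    have h2 := a1_mgf hn (w k) (-lam k) (fun z => by
      rw [neg_mul, abs_neg]
      exact hlw k z) h
    have h3 : ∑ z, (-lam k * w k z) ^ 2 = ∑ z, (lam k * w k z) ^ 2 :=
      sum_congr rfl fun z _ => by ring
    rw [h3] at h2
    have h4 : (∑ g : Z → Fin n, Real.exp (lam k * X g k h) +
        ∑ g : Z → Fin n, Real.exp (-lam k * X g k h)) *
          Real.exp (-(lam k * (T k / (n : ℝ) ^ 2))) ≤
        (2 * ((n : ℝ) ^ Fintype.card Z * Real.exp (∑ z, (lam k * w k z) ^ 2))) *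
          Real.exp (-(lam k * (T k / (n : ℝ) ^ 2))) := by
      apply mul_le_mul_of_nonneg_right _ (Real.exp_pos _).le
      simp only [hX]
      linarith
    refine h4.trans ?_
    have h5 := mul_le_mul_of_nonneg_left (hexp k)
      (show (0 : ℝ) ≤ 2 * (n : ℝ) ^ Fintype.card Z by positivity)
    calc (2 * ((n : ℝ) ^ Fintype.card Z * Real.exp (∑ z, (lam k * w k z) ^ 2))) *
          Real.exp (-(lam k * (T k / (n : ℝ) ^ 2)))
        = 2 * (n : ℝ) ^ Fintype.card Z * (Real.exp (∑ z, (lam k * w k z) ^ 2) *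
          Real.exp (-(lam k * (T k / (n : ℝ) ^ 2)))) := by ring
      _ ≤ 2 * (n : ℝ) ^ Fintype.card Z * Real.exp (-(1 / (4 * μ * (n : ℝ) ^ 4))) := h5
      _ = _ := by ring
  have htot : ∑ g : Z → Fin n, Ph g < ∑ _g : Z → Fin n, (1 : ℝ) := by
    have h1 : ∑ g : Z → Fin n, Ph g = ∑ k, ∑ h, ∑ g : Z → Fin n,
        (Real.exp (lam k * X g k h) + Real.exp (-lam k * X g k h)) *
          Real.exp (-(lam k * (T k / (n : ℝ) ^ 2))) := by
      simp only [hPh]
      rw [sum_comm]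
      refine sum_congr rfl fun k _ => ?_
      rw [sum_comm]
    have h2 : ∑ g : Z → Fin n, Ph g ≤ ∑ _k : ι, ∑ _h : Fin n,
        (n : ℝ) ^ Fintype.card Z * (2 * Real.exp (-(1 / (4 * μ * (n : ℝ) ^ 4)))) := by
      rw [h1]
      exact sum_le_sum fun k _ => sum_le_sum fun h _ => hkh k h
    have h3 : ∑ _k : ι, ∑ _h : Fin n,
        (n : ℝ) ^ Fintype.card Z * (2 * Real.exp (-(1 / (4 * μ * (n : ℝ) ^ 4)))) =
        (n : ℝ) ^ Fintype.card Z * (2 * (Fintype.card ι : ℝ) * n *
          Real.exp (-(1 / (4 * μ * (n : ℝ) ^ 4)))) := by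
      rw [sum_const, sum_const, card_univ, card_univ, Fintype.card_fin, nsmul_eq_mul, nsmul_eq_mul]
      ring
    have h4 : ∑ _g : Z → Fin n, (1 : ℝ) = (n : ℝ) ^ Fintype.card Z := by
      rw [sum_const, card_univ, Fintype.card_fun, Fintype.card_fin, nsmul_eq_mul, mul_one]
      push_cast
      rfl
    rw [h4]
    refine lt_of_le_of_lt h2 ?_
    rw [h3]
    have h5 : (0 : ℝ) < (n : ℝ) ^ Fintype.card Z := by positivity
    nlinarith
  obtain ⟨g, -, hg⟩ := exists_lt_of_sum_lt htot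
  refine ⟨g, fun k h => ?_⟩
  have hXeq : (∑ z ∈ univ.filter (fun z => g z = h), w k z) - (∑ z, w k z) / n = X g k h := by
    simp only [hX]
    rw [sum_filter, sum_div, ← sum_sub_distrib]
    refine sum_congr rfl fun z _ => ?_
    split_ifs <;> ring
  rw [hXeq]
  have hnn : ∀ k' h', 0 ≤ (Real.exp (lam k' * X g k' h') + Real.exp (-lam k' * X g k' h')) *
      Real.exp (-(lam k' * (T k' / (n : ℝ) ^ 2))) := fun k' h' => by positivity
  have h1 : (Real.exp (lam k * X g k h) + Real.exp (-lam k * X g k h)) *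
      Real.exp (-(lam k * (T k / (n : ℝ) ^ 2))) < 1 := by
    refine lt_of_le_of_lt ?_ hg
    simp only [hPh]
    calc (Real.exp (lam k * X g k h) + Real.exp (-lam k * X g k h)) *
          Real.exp (-(lam k * (T k / (n : ℝ) ^ 2)))
        ≤ ∑ h' : Fin n, (Real.exp (lam k * X g k h') + Real.exp (-lam k * X g k h')) *
          Real.exp (-(lam k * (T k / (n : ℝ) ^ 2))) :=
          single_le_sum (f := fun h' => (Real.exp (lam k * X g k h') +
            Real.exp (-lam k * X g k h')) * Real.exp (-(lam k * (T k / (n : ℝ) ^ 2))))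
            (fun h' _ => hnn k h') (mem_univ h)
      _ ≤ _ := single_le_sum (f := fun k' => ∑ h' : Fin n, (Real.exp (lam k' * X g k' h') +
            Real.exp (-lam k' * X g k' h')) * Real.exp (-(lam k' * (T k' / (n : ℝ) ^ 2))))
            (fun k' _ => sum_nonneg fun h' _ => hnn k' h') (mem_univ k)
  have hfin : ∀ x : ℝ, Real.exp (lam k * x) * Real.exp (-(lam k * (T k / (n : ℝ) ^ 2))) < 1 →
      x ≤ T k / (n : ℝ) ^ 2 := by
    intro x hx
    rw [← Real.exp_add, Real.exp_lt_one_iff] at hx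
    by_contra hcon
    rw [not_le] at hcon
    have := mul_lt_mul_of_pos_left hcon (hlp k)
    linarith
  have h2 : Real.exp (lam k * X g k h) * Real.exp (-(lam k * (T k / (n : ℝ) ^ 2))) < 1 := by
    refine lt_of_le_of_lt ?_ h1
    apply mul_le_mul_of_nonneg_right _ (Real.exp_pos _).le
    linarith [Real.exp_pos (-lam k * X g k h)]
  have h3 : Real.exp (lam k * (-X g k h)) * Real.exp (-(lam k * (T k / (n : ℝ) ^ 2))) < 1 := by
    refine lt_of_le_of_lt ?_ h1
    apply mul_le_mul_of_nonneg_right _ (Real.exp_pos _).le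
    have e : lam k * (-X g k h) = -lam k * X g k h := by ring
    rw [e]
    linarith [Real.exp_pos (lam k * X g k h)]
  have h4 := hfin _ h2
  have h5 := hfin _ h3
  rw [abs_le]
  constructor
  · linarith
  · exact h4

theorem exists_balanced {Z ι : Type} [Fintype Z] [Fintype ι] {n : ℕ} (hn : 1 ≤ n)
    (w : ι → Z → ℝ) (hw : ∀ k z, 0 ≤ w k z) {μ : ℝ} (hμ : 0 < μ)
    (hmax : ∀ k z, w k z ≤ μ * ∑ y, w k y)
    (hcard : 2 * (Fintype.card ι : ℝ) * n * Real.exp (-(1 / (4 * μ * (n : ℝ) ^ 4))) < 1) :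
    ∃ g : Z → Fin n, ∀ k h, |(∑ z ∈ univ.filter (fun z => g z = h), w k z) -
      (∑ z, w k z) / n| ≤ (∑ z, w k z) / (n : ℝ) ^ 2 := by
  classical
  have hT0 : ∀ k, 0 ≤ ∑ z, w k z := fun k => sum_nonneg fun z _ => hw k z
  obtain ⟨g, hg⟩ := a1_pos (ι := {k : ι // 0 < ∑ z, w k z}) hn (fun k z => w k z)
    (fun k z => hw k z) (fun k => k.2) hμ (fun k z => hmax k z) (by
      refine lt_of_le_of_lt ?_ hcard
      have h1 : (Fintype.card {k : ι // 0 < ∑ z, w k z} : ℝ) ≤ Fintype.card ι := by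
        exact_mod_cast Fintype.card_subtype_le _
      have h2 : (0 : ℝ) ≤ n := by positivity
      have h3 := Real.exp_pos (-(1 / (4 * μ * (n : ℝ) ^ 4)))
      gcongr)
  refine ⟨g, fun k h => ?_⟩
  rcases (hT0 k).eq_or_lt with h0 | h0
  · have h1 : ∀ z, w k z = 0 := by
      intro z
      exact (sum_eq_zero_iff_of_nonneg fun z _ => hw k z).mp h0.symm z (mem_univ z)
    simp [h1]
  · exact hg ⟨k, h0⟩ h

end Pool.Agent.MP_e81270_lc.Aff
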