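import Pool.Agent.Lib.MP_e81270_lc_Aff.Ops

/-!
# One step of the elimination, every connective
-/

set_option autoImplicit false

namespace Pool.Agent.MP_e81270_lc.Aff

open Finset Matrix

variable {M b n N k : ℕ}

private theorem toZ_inj {a c : Bool} (h : toZ a = toZ c) : a = c := by
  revert h
  cases a <;> cases c <;> decide

private theorem toZ_xor (a c : Bool) : toZ (xor a c) = toZ a + toZ c := by
  cases a <;> cases c <;> decide

private theorem fn_cases (g : Bool → Bool → Bool) :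
    (∀ a c c', g a c = g a c') ∨ (∀ a a' c, g a c = g a' c) ∨
      (∃ e, ∀ a c, g a c = xor e (xor a c)) ∨
      ((∃ c γ, ∀ a, g c a = γ) ∧ ∃ c γ, ∀ a, g a c = γ) := by
  revert g
  decide

private theorem sub_none {U : Type} [DecidableEq U] {u : U} {c : Bool} {β : Atom U}
    (h : β.2 = none ∨ β.2 = some u) : (sub u (c, none) β).2 = none := by
  unfold sub
  rcases h with h | h
  · rw [if_neg (by rw [h]; simp)]
    exact h
  · rw [if_pos h]

private theorem sub_ne {U : Type} [DecidableEq U] {u w : U} {c : Bool} {β : Atom U}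
    (h : β.2 ≠ some w) : (sub u (c, none) β).2 ≠ some w := by
  unfold sub
  by_cases hβ : β.2 = some u
  · rw [if_pos hβ]
    simp
  · rw [if_neg hβ]
    exact h

private theorem sub_keep {U : Type} [DecidableEq U] {u w : U} {c : Bool} {β : Atom U}
    (h : β.2 = some w) : (sub u (c, none) β).2 = none ∨ (sub u (c, none) β).2 = some w := by
  unfold sub
  by_cases hβ : β.2 = some u
  · rw [if_pos hβ]
    simp
  · rw [if_neg hβ]
    exact Or.inr h

private theorem isLoc_two {A : Set (Vec M b)} {g g₁ g₂ : Vec M b → Bool} (h₁ : IsAff A g₁)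
    (h₂ : IsAff A g₂) (F : Bool → Bool → Bool) (h : ∀ x ∈ A, g x = F (g₁ x) (g₂ x)) :
    IsLoc A g := by
  obtain ⟨f₁, c₁, hf₁⟩ := h₁
  obtain ⟨f₂, c₂, hf₂⟩ := h₂
  have hd : ∀ c : Bool, decide (toZ c = 1) = c := by decide
  refine ⟨f₁, f₂, fun s t => F (decide (s + c₁ = 1)) (decide (t + c₂ = 1)), fun x hx => ?_⟩
  show g x = F (decide (f₁ ⬝ᵥ x + c₁ = 1)) (decide (f₂ ⬝ᵥ x + c₂ = 1))
  rw [h x hx, ← hf₁ x hx, ← hf₂ x hx, hd, hd]

section

variable {val : Fin N ⊕ Fin k → Vec M b → Bool} {K : Finset (Fin k)}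
  {T : Finset (Fin N ⊕ Fin k)} {B : Finset (Fin k)} {fn : Fin k → Bool → Bool → Bool}
  {p q : Fin k → Atom (Fin N ⊕ Fin k)}

/-- Restrict the symbol `u` to a value for which the gate `i` is constant. -/
private theorem Cert.restrict {W : Submodule (ZMod 2) (Vec M b)} {x₀ : Vec M b}
    (h : Cert (space W x₀) val K T B fn p q) {i : Fin k} (hi : i ∈ B) {u : Fin N ⊕ Fin k}
    (hu : u ∈ T) (hnc : ¬ ∃ c, ∀ x ∈ space W x₀, val u x = c) {c γ : Bool}
    (hγ : ∀ x ∈ space W x₀, val u x = c → val (Sum.inr i) x = γ) (E : Finset (Fin k))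
    (hE : E ⊆ B.erase i) (hEu : ∀ j ∈ E, ((p j).2 = some u ∨ (p j).2 = some (Sum.inr i)) ∨
      ((q j).2 = some u ∨ (q j).2 = some (Sum.inr i))) :
    ∃ (f : Vec M b) (x' : Vec M b), x' ∈ space W x₀ ∧ ∃ p' q',
      Cert {x | x ∈ space W x₀ ∧ f ⬝ᵥ x = f ⬝ᵥ x'} val K (T.erase u) (B.erase i \ E) fn p' q' ∧
      ∀ w, (∀ j ∈ B.erase i, (p j).2 ≠ some w ∧ (q j).2 ≠ some w) →
        ∀ j ∈ B.erase i \ E, (p' j).2 ≠ some w ∧ (q' j).2 ≠ some w := by
  obtain ⟨f, c₀, hf⟩ := h.aff u hu
  obtain ⟨x', hx', hxc⟩ : ∃ x' ∈ space W x₀, val u x' = c := by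
    by_contra hcon
    push Not at hcon
    refine hnc ⟨!c, fun x hx => ?_⟩
    have := hcon x hx
    cases hv : val u x <;> cases c <;> simp_all
  have hA' : ∀ x ∈ {x | x ∈ space W x₀ ∧ f ⬝ᵥ x = f ⬝ᵥ x'}, val u x = c := by
    rintro x ⟨hx, hfx⟩
    rw [← hxc]
    refine toZ_inj ?_
    rw [hf x hx, hf x' hx', hfx]
  have h1 := h.mono (A' := {x | x ∈ space W x₀ ∧ f ⬝ᵥ x = f ⬝ᵥ x'}) fun x hx => hx.1
  have h2 := h1.fix hu c hA'
  have h3 := h2.remove hi (γ, none) (fun x hx => by
    rw [hγ x hx.1 (hA' x hx)]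
    unfold ev
    simp) (fun w hw => absurd hw (by simp))
  obtain ⟨p', q', h4, h5⟩ := h3.removeMany E hE (fun j hj => by
    have key : ∀ β : Atom (Fin N ⊕ Fin k), (β.2 = some u ∨ β.2 = some (Sum.inr i)) →
        (sub (Sum.inr i) (γ, none) (sub u (c, none) β)).2 = none := by
      rintro β (hβ | hβ)
      · exact sub_none (Or.inl (sub_none (Or.inr hβ)))
      · exact sub_none (sub_keep hβ)
    rcases hEu j hj with h6 | h6
    · exact Or.inl (key _ h6)
    · exact Or.inr (key _ h6))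
  refine ⟨f, x', hx', p', q', h4, fun w hw => h5 w fun j hj => ?_⟩
  exact ⟨sub_ne (sub_ne (hw j hj).1), sub_ne (sub_ne (hw j hj).2)⟩

theorem Cert.step {W : Submodule (ZMod 2) (Vec M b)} {x₀ : Vec M b}
    (h : Cert (space W x₀) val K T B fn p q) (hB : B.Nonempty) :
    (∃ T' B' fn' p' q', Cert (space W x₀) val K T' B' fn' p' q' ∧
      B'.card + T'.card ≤ B.card + T.card ∧ 2 * B'.card + T'.card < 2 * B.card + T.card) ∨
    ∃ (f : Vec M b) (x' : Vec M b), x' ∈ space W x₀ ∧ ∃ T' B' fn' p' q',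
      Cert {x | x ∈ space W x₀ ∧ f ⬝ᵥ x = f ⬝ᵥ x'} val K T' B' fn' p' q' ∧
      B'.card + T'.card + 4 ≤ B.card + T.card := by
  obtain ⟨i, hidef⟩ : ∃ i, i = B.min' hB := ⟨_, rfl⟩
  have hi : i ∈ B := by rw [hidef]; exact B.min'_mem hB
  have hmin : ∀ j ∈ B, i ≤ j := fun j hj => by rw [hidef]; exact B.min'_le j hj
  have hcB : (B.erase i).card + 1 = B.card := card_erase_add_one hi
  have hpT : ∀ u, (p i).2 = some u → u ∈ T := by
    intro u hu
    rcases h.pin i hi u hu with h1 | ⟨j, hj, hji, -⟩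
    · exact h1
    · exact absurd (hmin j hj) (not_le.2 hji)
  have hqT : ∀ u, (q i).2 = some u → u ∈ T := by
    intro u hu
    rcases h.qin i hi u hu with h1 | ⟨j, hj, hji, -⟩
    · exact h1
    · exact absurd (hmin j hj) (not_le.2 hji)
  -- the gate is equal to an atom
  have atom : ∀ α : Atom (Fin N ⊕ Fin k), (∀ x ∈ space W x₀, val (Sum.inr i) x = ev val α x) →
      (∀ u, α.2 = some u → u ∈ T) →
      ∃ T' B' fn' p' q', Cert (space W x₀) val K T' B' fn' p' q' ∧
      B'.card + T'.card ≤ B.card + T.card ∧ 2 * B'.card + T'.card < 2 * B.card + T.card := by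
    intro α h1 h2
    refine ⟨T, B.erase i, fn, _, _, h.remove hi α h1 fun u hu => Or.inl (h2 u hu), ?_, ?_⟩ <;>
      omega
  have hgate := h.gate i hi
  have hconst : ∀ β : Atom (Fin N ⊕ Fin k), β.2 = none → ∀ x, ev val β x = β.1 := by
    intro β hβ x
    unfold ev
    rw [hβ]
    simp
  have hsym : ∀ (β : Atom (Fin N ⊕ Fin k)) u, β.2 = some u → ∀ x,
      ev val β x = xor β.1 (val u x) := by
    intro β u hβ x
    unfold ev
    rw [hβ]
    rfl
  -- functions of one atom
  have one : ∀ (g : Bool → Bool) (β : Atom (Fin N ⊕ Fin k)),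
      (∀ x ∈ space W x₀, val (Sum.inr i) x = g (ev val β x)) → (∀ u, β.2 = some u → u ∈ T) →
      ∃ T' B' fn' p' q', Cert (space W x₀) val K T' B' fn' p' q' ∧
      B'.card + T'.card ≤ B.card + T.card ∧ 2 * B'.card + T'.card < 2 * B.card + T.card := by
    intro g β hg hβ
    by_cases h01 : g false = g true
    · refine atom (g false, none) (fun x hx => ?_) fun u hu => absurd hu (by simp)
      rw [hg x hx, hconst (g false, none) rfl]
      cases ev val β x <;> simp [h01]
    · refine atom (xor (g false) β.1, β.2) (fun x hx => ?_) hβ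
      rw [hg x hx]
      have h1 : ev val ((xor (g false) β.1, β.2) : Atom (Fin N ⊕ Fin k)) x =
          xor (g false) (ev val β x) := by
        unfold ev
        rw [Bool.xor_assoc]
      rw [h1]
      cases ev val β x
      · simp
      · cases h0 : g false <;> cases h1 : g true <;> simp_all
  rcases hpi : (p i).2 with _ | u
  · refine Or.inl (one (fn i (p i).1) (q i) (fun x hx => ?_) hqT)
    rw [hgate x hx, hconst _ hpi]
  rcases hqi : (q i).2 with _ | w
  · refine Or.inl (one (fun y => fn i y (q i).1) (p i) (fun x hx => ?_) hpT)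
    rw [hgate x hx, hconst _ hqi]
  have hu : u ∈ T := hpT u hpi
  have hw : w ∈ T := hqT w hqi
  have hgate' : ∀ x ∈ space W x₀, val (Sum.inr i) x =
      fn i (xor (p i).1 (val u x)) (xor (q i).1 (val w x)) := by
    intro x hx
    rw [hgate x hx, hsym _ u hpi, hsym _ w hqi]
  by_cases huw : u = w
  · subst huw
    refine Or.inl (one (fun y => fn i (xor (p i).1 y) (xor (q i).1 y)) (false, some u)
      (fun x hx => ?_) ?_)
    · rw [hgate' x hx, hsym _ u rfl]
      simp
    · intro u' hu'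
      have : u = u' := Option.some.inj hu'
      rw [← this]
      exact hu
  have hiT : (Sum.inr i : Fin N ⊕ Fin k) ∉ T := h.disj i hi
  have hui : u ≠ Sum.inr i := fun h1 => hiT (h1 ▸ hu)
  have hwi : w ≠ Sum.inr i := fun h1 => hiT (h1 ▸ hw)
  have hcu : (T.erase u).card + 1 = T.card := card_erase_add_one hu
  have hcw : (T.erase w).card + 1 = T.card := card_erase_add_one hw
  -- constant symbols
  by_cases hnu : ∃ c, ∀ x ∈ space W x₀, val u x = c
  · obtain ⟨c, hc⟩ := hnu
    refine Or.inl ⟨T.erase u, B, fn, _, _, h.fix hu c hc, ?_, ?_⟩ <;> omega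
  by_cases hnw : ∃ c, ∀ x ∈ space W x₀, val w x = c
  · obtain ⟨c, hc⟩ := hnw
    refine Or.inl ⟨T.erase w, B, fn, _, _, h.fix hw c hc, ?_, ?_⟩ <;> omega
  -- the connective
  rcases fn_cases (fn i) with hfn | hfn | ⟨e, hfn⟩ | ⟨⟨cu, γu, hfu⟩, cw, γw, hfw⟩
  · refine Or.inl (one (fun y => fn i y false) (p i) (fun x hx => ?_) hpT)
    rw [hgate x hx]
    exact hfn _ _ _
  · refine Or.inl (one (fun y => fn i false y) (q i) (fun x hx => ?_) hqT)
    rw [hgate x hx]
    exact hfn _ _ _
  · -- exclusive or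
    obtain ⟨f₁, c₁, hf₁⟩ := h.aff u hu
    obtain ⟨f₂, c₂, hf₂⟩ := h.aff w hw
    have haff : IsAff (space W x₀) (val (Sum.inr i)) := by
      refine ⟨f₁ + f₂, toZ e + toZ (p i).1 + toZ (q i).1 + c₁ + c₂, fun x hx => ?_⟩
      rw [hgate' x hx, hfn, toZ_xor, toZ_xor, toZ_xor, toZ_xor, hf₁ x hx, hf₂ x hx,
        add_dotProduct]
      ring
    refine Or.inl ⟨insert (Sum.inr i) T, B.erase i, fn, p, q, h.toSymbol hi haff, ?_, ?_⟩ <;>
      rw [card_insert_of_notMem hiT] <;> omega
  -- and type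
  have hγu : ∀ x ∈ space W x₀, val u x = xor (p i).1 cu → val (Sum.inr i) x = γu := by
    intro x hx hv
    rw [hgate' x hx, hv, ← Bool.xor_assoc, Bool.xor_self, Bool.false_xor]
    exact hfu _
  have hγw : ∀ x ∈ space W x₀, val w x = xor (q i).1 cw → val (Sum.inr i) x = γw := by
    intro x hx hv
    rw [hgate' x hx, hv, ← Bool.xor_assoc, Bool.xor_self, Bool.false_xor]
    exact hfw _
  have hloc : IsLoc (space W x₀) (val (Sum.inr i)) :=
    isLoc_two (h.aff u hu) (h.aff w hw)
      (fun s t => fn i (xor (p i).1 s) (xor (q i).1 t)) hgate'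
  -- the successors
  obtain ⟨S, hS⟩ : ∃ S : Finset (Fin k), S = B.filter fun j =>
      (p j).2 = some (Sum.inr i) ∨ (q j).2 = some (Sum.inr i) := ⟨_, rfl⟩
  have hSmem : ∀ j, j ∈ S ↔ j ∈ B ∧ ((p j).2 = some (Sum.inr i) ∨
      (q j).2 = some (Sum.inr i)) := fun j => by rw [hS, mem_filter]
  have hiS : i ∉ S := by
    intro h1
    rcases ((hSmem i).1 h1).2 with h2 | h2
    · rw [hpi] at h2
      exact hui (Option.some.inj h2)
    · rw [hqi] at h2
      exact hwi (Option.some.inj h2)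
  have hSB : S ⊆ B.erase i := fun j hj =>
    mem_erase.2 ⟨fun h1 => hiS (h1 ▸ hj), ((hSmem j).1 hj).1⟩
  rcases Nat.lt_or_ge 1 S.card with hS2 | hS1
  · -- at least two successors
    right
    obtain ⟨f, x', hx', p', q', h1, -⟩ := h.restrict hi hu hnu hγu S hSB fun j hj => by
      rcases ((hSmem j).1 hj).2 with h2 | h2
      · exact Or.inl (Or.inr h2)
      · exact Or.inr (Or.inr h2)
    refine ⟨f, x', hx', _, _, fn, p', q', h1, ?_⟩
    have h2 := card_sdiff_add_card_eq_card hSB
    omega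
  rcases Nat.eq_zero_or_pos S.card with hS0 | hSpos
  · -- no successor
    have hSe : ∀ j ∈ B, ¬ ((p j).2 = some (Sum.inr i) ∨ (q j).2 = some (Sum.inr i)) := by
      intro j hj h1
      have : j ∈ S := (hSmem j).2 ⟨hj, h1⟩
      rw [card_eq_zero.1 hS0] at this
      exact notMem_empty j this
    refine Or.inl ⟨T, B.erase i, fn, p, q, h.prune hi hloc (fun j hj h1 => hSe j hj (Or.inl h1))
      (fun j hj h1 => hSe j hj (Or.inr h1)), ?_, ?_⟩ <;> omega
  obtain ⟨j, hj⟩ := card_eq_one.1 (show S.card = 1 by omega)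
  have hjS : j ∈ S := by rw [hj]; exact mem_singleton_self j
  have hjB : j ∈ B := ((hSmem j).1 hjS).1
  have hjuse := ((hSmem j).1 hjS).2
  have hji : j ≠ i := fun h1 => hiS (h1 ▸ hjS)
  have hother : ∀ j' ∈ B, j' ≠ j → ¬ ((p j').2 = some (Sum.inr i) ∨
      (q j').2 = some (Sum.inr i)) := by
    intro j' hj' hne h1
    have : j' ∈ S := (hSmem j').2 ⟨hj', h1⟩
    rw [hj, mem_singleton] at this
    exact hne this
  by_cases hjfun : ((p j).2 = none ∨ (p j).2 = some u ∨ (p j).2 = some w ∨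
      (p j).2 = some (Sum.inr i)) ∧ ((q j).2 = none ∨ (q j).2 = some u ∨ (q j).2 = some w ∨
      (q j).2 = some (Sum.inr i))
  · -- `j` is a function of `u` and `w`
    have hex : ∀ β : Atom (Fin N ⊕ Fin k), (β.2 = none ∨ β.2 = some u ∨ β.2 = some w ∨
        β.2 = some (Sum.inr i)) → ∃ F : Bool → Bool → Bool, ∀ x ∈ space W x₀,
        ev val β x = F (val u x) (val w x) := by
      rintro β (hβ | hβ | hβ | hβ)
      · exact ⟨fun _ _ => β.1, fun x _ => hconst β hβ x⟩
      · exact ⟨fun s _ => xor β.1 s, fun x _ => hsym β u hβ x⟩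
      · exact ⟨fun _ t => xor β.1 t, fun x _ => hsym β w hβ x⟩
      · exact ⟨fun s t => xor β.1 (fn i (xor (p i).1 s) (xor (q i).1 t)), fun x hx => by
          rw [hsym β _ hβ, hgate' x hx]⟩
    obtain ⟨F₁, hF₁⟩ := hex _ hjfun.1
    obtain ⟨F₂, hF₂⟩ := hex _ hjfun.2
    have h1 := h.rewire hjB (fun s t => fn j (F₁ s t) (F₂ s t)) (false, some u) (false, some w)
      (fun x hx => by
        rw [h.gate j hjB x hx, hF₁ x hx, hF₂ x hx, hsym _ u rfl, hsym _ w rfl, Bool.false_xor,
          Bool.false_xor])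
      (fun v hv => by
        have : u = v := Option.some.inj hv
        exact Or.inl (this ▸ hu))
      (fun v hv => by
        have : w = v := Option.some.inj hv
        exact Or.inl (this ▸ hw))
    have h2 := h1.prune hi hloc (fun j' hj' h3 => by
      by_cases hjj : j' = j
      · subst hjj
        rw [Function.update_self] at h3
        exact hui (Option.some.inj h3)
      · rw [Function.update_of_ne hjj] at h3
        exact hother j' hj' hjj (Or.inl h3)) (fun j' hj' h3 => by
      by_cases hjj : j' = j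
      · subst hjj
        rw [Function.update_self] at h3
        exact hwi (Option.some.inj h3)
      · rw [Function.update_of_ne hjj] at h3
        exact hother j' hj' hjj (Or.inr h3))
    refine Or.inl ⟨T, B.erase i, _, _, _, h2, ?_, ?_⟩ <;> omega
  -- `j` does not use `u` and `w`
  have hjnot : ∀ v, v = u ∨ v = w → (p j).2 ≠ some v ∧ (q j).2 ≠ some v := by
    intro v hv
    rcases hjuse with h1 | h1
    · refine ⟨?_, fun h2 => hjfun ⟨Or.inr (Or.inr (Or.inr h1)), ?_⟩⟩
      · rw [h1]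
        intro h2
        have h3 : Sum.inr i = v := Option.some.inj h2
        rcases hv with rfl | rfl
        · exact hui h3.symm
        · exact hwi h3.symm
      · rcases hv with rfl | rfl
        · exact Or.inr (Or.inl h2)
        · exact Or.inr (Or.inr (Or.inl h2))
    · refine ⟨fun h2 => hjfun ⟨?_, Or.inr (Or.inr (Or.inr h1))⟩, ?_⟩
      · rcases hv with rfl | rfl
        · exact Or.inr (Or.inl h2)
        · exact Or.inr (Or.inr (Or.inl h2))
      · rw [h1]
        intro h2
        have h3 : Sum.inr i = v := Option.some.inj h2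
        rcases hv with rfl | rfl
        · exact hui h3.symm
        · exact hwi h3.symm
  -- another gate uses `v`, `v = u` or `v = w`
  have feed : ∀ v, v = u ∨ v = w → v ∈ T → (¬ ∃ c, ∀ x ∈ space W x₀, val v x = c) →
      ∀ c γ : Bool, (∀ x ∈ space W x₀, val v x = c → val (Sum.inr i) x = γ) →
      (∃ j' ∈ B, j' ≠ i ∧ ((p j').2 = some v ∨ (q j').2 = some v)) →
      ∃ (f : Vec M b) (x' : Vec M b), x' ∈ space W x₀ ∧ ∃ T' B' fn' p' q',
      Cert {x | x ∈ space W x₀ ∧ f ⬝ᵥ x = f ⬝ᵥ x'} val K T' B' fn' p' q' ∧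
      B'.card + T'.card + 4 ≤ B.card + T.card := by
    rintro v hv hvT hnc c γ hγ ⟨j', hj', hj'i, hj'use⟩
    have hjj : j ≠ j' := by
      rintro rfl
      rcases hj'use with h1 | h1
      · exact (hjnot v hv).1 h1
      · exact (hjnot v hv).2 h1
    have hE : ({j, j'} : Finset (Fin k)) ⊆ B.erase i := by
      intro l hl
      rcases mem_insert.1 hl with rfl | hl
      · exact mem_erase.2 ⟨hji, hjB⟩
      · rw [mem_singleton.1 hl]
        exact mem_erase.2 ⟨hj'i, hj'⟩
    obtain ⟨f, x', hx', p', q', h1, -⟩ := h.restrict hi hvT hnc hγ {j, j'} hE fun l hl => by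
      rcases mem_insert.1 hl with rfl | hl
      · rcases hjuse with h2 | h2
        · exact Or.inl (Or.inr h2)
        · exact Or.inr (Or.inr h2)
      · rw [mem_singleton.1 hl]
        rcases hj'use with h2 | h2
        · exact Or.inl (Or.inl h2)
        · exact Or.inr (Or.inl h2)
    refine ⟨f, x', hx', _, _, fn, p', q', h1, ?_⟩
    have h2 := card_sdiff_add_card_eq_card hE
    have h3 : ({j, j'} : Finset (Fin k)).card = 2 := card_pair hjj
    have h4 : (T.erase v).card + 1 = T.card := card_erase_add_one hvT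
    omega
  right
  by_cases hfu' : ∃ j' ∈ B, j' ≠ i ∧ ((p j').2 = some u ∨ (q j').2 = some u)
  · exact feed u (Or.inl rfl) hu hnu _ _ hγu hfu'
  by_cases hfw' : ∃ j' ∈ B, j' ≠ i ∧ ((p j').2 = some w ∨ (q j').2 = some w)
  · exact feed w (Or.inr rfl) hw hnw _ _ hγw hfw'
  -- `u` and `w` feed only `i`
  have hE : ({j} : Finset (Fin k)) ⊆ B.erase i := by
    intro l hl
    rw [mem_singleton.1 hl]
    exact mem_erase.2 ⟨hji, hjB⟩
  obtain ⟨f, x', hx', p', q', h1, h2⟩ := h.restrict hi hu hnu hγu {j} hE fun l hl => by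
    rw [mem_singleton.1 hl]
    rcases hjuse with h2 | h2
    · exact Or.inl (Or.inr h2)
    · exact Or.inr (Or.inr h2)
  have h3 := h2 w fun l hl => by
    have h4 := mem_erase.1 hl
    push Not at hfw'
    exact hfw' l h4.2 h4.1
  have h4 := h1.drop (u := w) (fun l hl => (h3 l hl).1) (fun l hl => (h3 l hl).2)
  refine ⟨f, x', hx', _, _, fn, p', q', h4, ?_⟩
  have h5 := card_sdiff_add_card_eq_card hE
  have h6 : ({j} : Finset (Fin k)).card = 1 := card_singleton j
  have h7 : ((T.erase u).erase w).card + 1 = (T.erase u).card :=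
    card_erase_add_one (mem_erase.2 ⟨fun h => huw h.symm, hw⟩)
  omega

end

end Pool.Agent.MP_e81270_lc.Aff
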