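import Pool.Agent.Lib.MP_e81270_lc.Defs

/-!
# Extension variables defined by arbitrary functions of their arguments

The definitions used by the statement.  Clauses, formulas and satisfaction are those of
`Pool.Agent.Lib.MP_e81270_lc.Defs`.
-/

set_option autoImplicit false

namespace Pool.Agent.MP_e81270_lc.Aff

/-- Definitions of `k` extension variables over the variables `V`: the extension variable `j` is
defined as `fn j`, a Boolean function that depends only on the arguments `args j`, which are
variables in `V` or extension variables defined earlier. -/
structure Definitions (V : Type) (k : ℕ) where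
  args : Fin k → Finset (V ⊕ Fin k)
  fn : Fin k → (V ⊕ Fin k → Bool) → Bool
  earlier : ∀ j i, Sum.inr i ∈ args j → i < j
  depends : ∀ j (a a' : V ⊕ Fin k → Bool), (∀ u ∈ args j, a u = a' u) → fn j a = fn j a'

variable {V : Type} {k : ℕ}

/-- The assignment `a` obeys all the definitions. -/
def Definitions.Obeyed (D : Definitions V k) (a : V ⊕ Fin k → Bool) : Prop :=
  ∀ j, a (Sum.inr j) = D.fn j a

/-- The extension variable `j` is defined as the exclusive or of its arguments, or as the negation
of this exclusive or: the value flips whenever exactly one argument flips. -/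
def Definitions.IsXor (D : Definitions V k) (j : Fin k) : Prop :=
  ∀ (a a' : V ⊕ Fin k → Bool), ∀ u ∈ D.args j, a u ≠ a' u →
    (∀ w ∈ D.args j, w ≠ u → a w = a' w) → D.fn j a ≠ D.fn j a'

/-- The extension variables in `I` are defined from the variables in `J` only (their arguments
are in `J` or in `I`); those in `B` have at most two arguments; all those outside `I` have at most
`max 2 t` arguments, and their arguments that are extension variables are in `I` or in `B`. -/
def Definitions.Split (D : Definitions V k) (J : Finset V) (I B : Finset (Fin k)) (t : ℕ) :
    Prop :=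
  (∀ j ∈ I, ∀ u ∈ D.args j, (∃ v ∈ J, u = Sum.inl v) ∨ ∃ i ∈ I, u = Sum.inr i) ∧
  (∀ j ∈ B, (D.args j).card ≤ 2) ∧
  ∀ j, j ∉ I → (D.args j).card ≤ max 2 t ∧ ∀ i, Sum.inr i ∈ D.args j → i ∈ I ∨ i ∈ B

/-- A refutation of `F` with `k` extension variables and `L` lines.  Each line is a clause over
the variables of `F` and the extension variables.  Each line is a clause of `F`, or it follows
from at most two earlier lines: every assignment that obeys the definitions of the extension
variables and satisfies these earlier lines also satisfies the line.  One of the lines is the
empty clause. -/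
structure Refutation (F : CNF V) (k L : ℕ) where
  defs : Definitions V k
  line : Fin L → Clause (V ⊕ Fin k)
  sound : ∀ t, (∃ C ∈ F, line t = C.map (fun l => (Sum.inl l.1, l.2))) ∨
    ∃ P : Finset (Fin L), P.card ≤ 2 ∧ (∀ s ∈ P, s < t) ∧
      ∀ a, defs.Obeyed a → (∀ s ∈ P, Sat a (line s)) → Sat a (line t)
  last : ∃ t, line t = []

end Pool.Agent.MP_e81270_lc.Aff
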