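import Pool.Agent.Lib.MP_e81270_lc_Aff.State

/-!
# A line that depends on many forms
-/

set_option autoImplicit false

namespace Pool.Agent.MP_e81270_lc.Aff

open Finset Matrix

variable {M b n N k q s a : ℕ}

/-- A point of an affine space with enough freedom in the rows of `R` that maps `S` and `R` to
different holes. -/
private theorem exists_inj_point {G : Fin M → (Fin b → ZMod 2) → Fin n}
    (hG : JointlyRich q G) {W : Submodule (ZMod 2) (Vec M b)} {x₀ : Vec M b}
    {S R : Finset (Fin M)} (hdead : onRows S ≤ W) (hd : Disjoint R S)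
    (hinj : ∀ i ∈ S, ∀ j ∈ S, i ≠ j → G i (rowOf x₀ i) ≠ G j (rowOf x₀ j))
    (h : ∀ R' ⊆ R, Module.finrank (ZMod 2) (W ⊓ onRows R' : Submodule (ZMod 2) (Vec M b)) +
      q * R'.card ≤ b * R'.card) (hcard : (S ∪ R).card ≤ n) :
    ∃ x ∈ space W x₀, ∀ i ∈ S ∪ R, ∀ j ∈ S ∪ R, i ≠ j →
      G i (rowOf x i) ≠ G j (rowOf x j) := by
  obtain ⟨π, hπS, hπ⟩ := exists_holes (G := G) (x₀ := x₀) hd hinj hcard
  obtain ⟨x, hx, hπ₁⟩ := exists_point hG x₀ h π
  have hall : ∀ i ∈ S ∪ R, G i (rowOf x i) = π i := by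
    intro i hi
    rcases mem_union.mp hi with hi | hi
    · rw [rowOf_eq hdead hx hi, hπS i hi]
    · exact hπ₁ i hi
  refine ⟨x, hx, ?_⟩
  intro i hi j hj hij
  rw [hall i hi, hall j hj]
  exact hπ i hi j hj hij

private theorem finrank_inf_add_le (W P Z : Submodule (ZMod 2) (Vec M b)) :
    Module.finrank (ZMod 2) ((W ⊔ P) ⊓ Z : Submodule (ZMod 2) (Vec M b)) +
      Module.finrank (ZMod 2) W ≤
      Module.finrank (ZMod 2) (W ⊓ Z : Submodule (ZMod 2) (Vec M b)) +
        Module.finrank (ZMod 2) (W ⊔ P : Submodule (ZMod 2) (Vec M b)) := by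
  have h1 := Submodule.finrank_sup_add_finrank_inf_eq W ((W ⊔ P) ⊓ Z)
  have h3 : W ⊓ ((W ⊔ P) ⊓ Z) = W ⊓ Z := by
    rw [← inf_assoc, inf_of_le_left (le_sup_left : W ≤ W ⊔ P)]
  rw [h3] at h1
  have h4 : Module.finrank (ZMod 2) (W ⊔ ((W ⊔ P) ⊓ Z) : Submodule (ZMod 2) (Vec M b)) ≤
      Module.finrank (ZMod 2) (W ⊔ P : Submodule (ZMod 2) (Vec M b)) :=
    Submodule.finrank_mono (sup_le le_sup_left inf_le_left)
  omega

/-- The line `H` holds whenever the rows in `R ∪ S` are mapped to different holes. -/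
private def Works (G : Fin M → (Fin b → ZMod 2) → Fin n) (A : Set (Vec M b))
    (S R : Finset (Fin M)) (H : Vec M b → Prop) : Prop :=
  ∀ x ∈ A, (∀ i ∈ R ∪ S, ∀ j ∈ R ∪ S, i ≠ j → G i (rowOf x i) ≠ G j (rowOf x j)) → H x

theorem State.width {G : Fin M → (Fin b → ZMod 2) → Fin n} (hG : JointlyRich q G)
    {W : Submodule (ZMod 2) (Vec M b)} {x₀ : Vec M b} {S : Finset (Fin M)}
    (h : State G q s W x₀ S a) (hM : M = n + 1) {L : ℕ} (H : Fin L → Vec M b → Prop)
    (Φ : Fin L → Submodule (ZMod 2) (Vec M b))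
    (hdep : ∀ t, ∀ x ∈ space W x₀, ∀ y ∈ space W x₀, (∀ f ∈ Φ t, f ⬝ᵥ x = f ⬝ᵥ y) →
      H t x → H t y)
    (hsound : ∀ t, (∃ i j, i ≠ j ∧ ∀ x, G i (rowOf x i) ≠ G j (rowOf x j) → H t x) ∨
      ∃ P : Finset (Fin L), P.card ≤ 2 ∧ (∀ r ∈ P, r < t) ∧ ∀ x, (∀ r ∈ P, H r x) → H t x)
    (hlast : ∃ t, ∀ x, ¬ H t x) (hm : S.card + 6 ≤ M) :
    ∃ t, (∃ x ∈ space W x₀, ¬ H t x) ∧
      s * (M - S.card) ≤ 3 * (Module.finrank (ZMod 2) (W ⊔ Φ t : Submodule (ZMod 2) (Vec M b)) -
        Module.finrank (ZMod 2) W) := by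
  classical
  let Small : Fin L → Prop := fun t => ∃ R : Finset (Fin M), Disjoint R S ∧
    3 * R.card ≤ M - S.card ∧ Works G (space W x₀) S R (H t)
  have halive : ∀ R : Finset (Fin M), Disjoint R S → ∀ R' ⊆ R, Module.finrank (ZMod 2)
      (W ⊓ onRows R' : Submodule (ZMod 2) (Vec M b)) + q * R'.card ≤ b * R'.card := by
    intro R hR R' hR'
    have := h.alive R' (disjoint_of_subset_left hR' hR)
    rw [add_mul] at this
    omega
  -- the false line is not small
  obtain ⟨t₁, ht₁⟩ := hlast
  have hns : ¬ Small t₁ := by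
    rintro ⟨R, hR1, hR2, hR3⟩
    obtain ⟨x, hx, hxi⟩ := exists_inj_point hG h.dead hR1 h.inj (halive R hR1) (by
      rw [card_union_of_disjoint hR1.symm]; omega)
    apply ht₁ x
    apply hR3 x hx
    rw [union_comm R S]
    exact hxi
  -- the first line that is not small
  obtain ⟨t, ht, hmin⟩ : ∃ t, ¬ Small t ∧ ∀ r < t, Small r := by
    by_contra hcon
    push Not at hcon
    apply hns
    have : ∀ v : ℕ, ∀ t : Fin L, t.val = v → Small t := by
      intro v
      induction v using Nat.strong_induction_on with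
      | _ v ih =>
        intro t htv
        by_contra hnt
        obtain ⟨r, hr1, hr2⟩ := hcon t hnt
        exact hr2 (ih r.val (by rw [← htv]; exact hr1) r rfl)
    exact this _ t₁ rfl
  -- a set of moderate size works
  obtain ⟨R₀, hR₀d, hR₀c, hR₀w⟩ : ∃ R : Finset (Fin M), Disjoint R S ∧
      3 * R.card ≤ 2 * (M - S.card) ∧ Works G (space W x₀) S R (H t) := by
    rcases hsound t with ⟨i, j, hij, hH⟩ | ⟨P, hP1, hP2, hP3⟩
    · exfalso
      apply ht
      refine ⟨({i, j} : Finset (Fin M)) \ S, sdiff_disjoint, ?_, ?_⟩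
      · have e1 : (({i, j} : Finset (Fin M)) \ S).card ≤ 2 :=
          (card_le_card sdiff_subset).trans card_le_two
        omega
      · intro x _ hx
        apply hH
        rw [sdiff_union_self_eq_union] at hx
        exact hx i (mem_union_left _ (by simp)) j (mem_union_left _ (by simp)) hij
    · have hsm : ∀ r ∈ P, Small r := fun r hr => hmin r (hP2 r hr)
      choose! Rf hRf1 hRf2 hRf3 using hsm
      refine ⟨P.biUnion Rf, ?_, ?_, ?_⟩
      · rw [disjoint_biUnion_left]
        exact hRf1
      · have e1 : (P.biUnion Rf).card ≤ ∑ r ∈ P, (Rf r).card := card_biUnion_le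
        have e2 : 3 * ∑ r ∈ P, (Rf r).card ≤ P.card * (M - S.card) := by
          rw [mul_sum, ← smul_eq_mul, ← sum_const]
          exact sum_le_sum hRf2
        have e3 : P.card * (M - S.card) ≤ 2 * (M - S.card) := Nat.mul_le_mul_right _ hP1
        omega
      · intro x hx hxi
        apply hP3
        intro r hr
        apply hRf3 r hr x hx
        intro i hi j hj hij
        have hsub : Rf r ∪ S ⊆ P.biUnion Rf ∪ S :=
          union_subset_union (subset_biUnion_of_mem Rf hr) subset_rfl
        exact hxi i (hsub hi) j (hsub hj) hij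
  -- a minimal set
  obtain ⟨R, hR, hRmin⟩ := exists_min_image
    (R₀.powerset.filter (fun R => Works G (space W x₀) S R (H t))) card
    ⟨R₀, mem_filter.mpr ⟨mem_powerset_self _, hR₀w⟩⟩
  obtain ⟨hRs, hRw⟩ := mem_filter.mp hR
  rw [mem_powerset] at hRs
  have hRd : Disjoint R S := disjoint_of_subset_left hRs hR₀d
  have hRc : 3 * R.card ≤ 2 * (M - S.card) := by
    have := card_le_card hRs
    omega
  have hRbig : M - S.card < 3 * R.card := by
    by_contra hcon
    exact ht ⟨R, hRd, by omega, hRw⟩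
  have herase : ∀ i ∈ R, ∃ x ∈ space W x₀, (∀ i' ∈ R.erase i ∪ S, ∀ j' ∈ R.erase i ∪ S,
      i' ≠ j' → G i' (rowOf x i') ≠ G j' (rowOf x j')) ∧ ¬ H t x := by
    intro i hi
    by_contra hcon
    push Not at hcon
    have h1 : R.erase i ∈ R₀.powerset.filter (fun R => Works G (space W x₀) S R (H t)) := by
      rw [mem_filter, mem_powerset]
      exact ⟨(erase_subset _ _).trans hRs, fun x hx hxi => hcon x hx hxi⟩
    have h2 := hRmin _ h1
    have h3 := card_erase_lt_of_mem hi
    omega
  refine ⟨t, ?_, ?_⟩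
  · have hne : R.Nonempty := by
      rw [← card_pos]
      omega
    obtain ⟨i, hi⟩ := hne
    obtain ⟨x, hx, -, hH⟩ := herase i hi
    exact ⟨x, hx, hH⟩
  · by_contra hcon
    push Not at hcon
    set Wt : Submodule (ZMod 2) (Vec M b) := W ⊔ Φ t with hWt
    let g : Finset (Fin M) → ℕ := fun R =>
      Module.finrank (ZMod 2) (Wt ⊓ onRows R : Submodule (ZMod 2) (Vec M b))
    let e : Finset (Fin M) → ℤ := fun R => (g R : ℤ) + q * R.card - b * R.card
    obtain ⟨R₂, hR₂, hmax⟩ := exists_max_image R.powerset e ⟨∅, by simp⟩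
    rw [mem_powerset] at hR₂
    have h1 : 0 ≤ e R₂ := by
      have := hmax ∅ (by simp)
      have h0 : e ∅ = 0 := by
        simp only [e, g]
        rw [finrank_inf_onRows_empty]
        simp
      rw [h0] at this
      exact this
    have h2 : b * R₂.card ≤ g R₂ + q * R₂.card := by
      have e1 : (b : ℤ) * R₂.card ≤ g R₂ + q * R₂.card := by
        simp only [e] at h1
        linarith
      exact_mod_cast e1
    have h3 := finrank_inf_add_le W (Φ t) (onRows R₂)
    have h4 := h.alive R₂ (disjoint_of_subset_left hR₂ hRd)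
    have h5 : s * R₂.card ≤ Module.finrank (ZMod 2) Wt - Module.finrank (ZMod 2) W := by
      change g R₂ + _ ≤ _ at h3
      rw [add_mul] at h4
      rw [← hWt] at h3
      omega
    have hlt : R₂.card < R.card := by
      have e1 : 3 * (s * R₂.card) < s * (M - S.card) := by
        omega
      have e2 : s * (M - S.card) ≤ s * (3 * R.card) := Nat.mul_le_mul_left s hRbig.le
      have e3 : s * (3 * R₂.card) < s * (3 * R.card) := by
        have : s * (3 * R₂.card) = 3 * (s * R₂.card) := by ring
        omega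
      have e4 := Nat.lt_of_mul_lt_mul_left e3
      omega
    obtain ⟨i, hi, hi₂⟩ := exists_of_ssubset (Finset.ssubset_iff_subset_ne.mpr ⟨hR₂, by
      rintro rfl
      exact lt_irrefl _ hlt⟩)
    obtain ⟨y, hy, hyi, hHy⟩ := herase i hi
    have hR₂e : R₂ ⊆ R.erase i := by
      intro j hj
      rw [mem_erase]
      exact ⟨fun hji => hi₂ (hji ▸ hj), hR₂ hj⟩
    have hdR : Disjoint (R \ R₂) (S ∪ R₂) := by
      rw [disjoint_union_right]
      exact ⟨disjoint_of_subset_left sdiff_subset hRd, sdiff_disjoint⟩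
    have hunion : (S ∪ R₂) ∪ (R \ R₂) = R ∪ S := by
      ext v
      simp only [mem_union, mem_sdiff]
      constructor
      · rintro ((hv | hv) | hv)
        · exact Or.inr hv
        · exact Or.inl (hR₂ hv)
        · exact Or.inl hv.1
      · rintro (hv | hv)
        · by_cases hv2 : v ∈ R₂
          · exact Or.inl (Or.inr hv2)
          · exact Or.inr ⟨hv, hv2⟩
        · exact Or.inl (Or.inl hv)
    obtain ⟨x, hx, hxi⟩ := exists_inj_point (S := S ∪ R₂) (R := R \ R₂) hG
      (W := Wt ⊔ onRows R₂) (x₀ := y) (by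
        rw [onRows_union]
        exact sup_le (h.dead.trans (le_sup_left.trans le_sup_left)) le_sup_right) hdR (by
        intro i' hi' j' hj' hij
        have hsub : S ∪ R₂ ⊆ R.erase i ∪ S := by
          intro v hv
          rcases mem_union.mp hv with hv | hv
          · exact mem_union_right _ hv
          · exact mem_union_left _ (hR₂e hv)
        exact hyi i' (hsub hi') j' (hsub hj') hij) (by
        intro R' hR'
        have hRR : Disjoint R' R₂ := disjoint_of_subset_left hR' sdiff_disjoint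
        have e1 := finrank_sup_onRows_inf Wt hRR
        have e2 : e (R' ∪ R₂) ≤ e R₂ := by
          apply hmax
          rw [mem_powerset]
          exact union_subset (hR'.trans sdiff_subset) hR₂
        simp only [e] at e2
        rw [card_union_of_disjoint hRR] at e2
        push_cast at e2
        change _ + g R₂ ≤ g (R' ∪ R₂) at e1
        have e3 : ((Module.finrank (ZMod 2)
            ((Wt ⊔ onRows R₂) ⊓ onRows R' : Submodule (ZMod 2) (Vec M b)) : ℤ)) +
            q * R'.card ≤ b * R'.card := by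
          have e4 : ((Module.finrank (ZMod 2)
            ((Wt ⊔ onRows R₂) ⊓ onRows R' : Submodule (ZMod 2) (Vec M b)) : ℤ)) + g R₂ ≤
              g (R' ∪ R₂) := by
            exact_mod_cast e1
          nlinarith
        exact_mod_cast e3) (by
        rw [hunion, card_union_of_disjoint hRd]
        omega)
    rw [hunion] at hxi
    have hxA : x ∈ space W x₀ := by
      rw [← space_eq hy]
      exact space_anti (le_sup_left.trans le_sup_left) y hx
    apply hHy
    apply hdep t x hxA y hy _ (hRw x hxA hxi)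
    intro f hf
    exact hx f (Submodule.mem_sup_left (Submodule.mem_sup_right hf))

end Pool.Agent.MP_e81270_lc.Aff
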